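import Mathlib
import Pool.Agent.Lib.MP_32dfd1_ag.Cyc.Theory

set_option autoImplicit false

/-!
# Short-hands for the statements
-/

namespace Pool.Agent.Lib.MP_32dfd1_ag.Cyc

open CategoryTheory MonoidalCategory CartesianMonoidalCategory

universe u v w

variable {V : Type u} [Category.{v} V]

/-- `x` is of degree `m`. -/
abbrev RingData.InDeg (R : RingData.{u, v, w} V) {X : V} (x : R.R X) (m : ℤ) : Prop :=
  x ∈ R.gr X m

/-- `x = 0` -/
abbrev RingData.IsZero (R : RingData.{u, v, w} V) {X : V} (x : R.R X) : Prop := x = 0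

/-- product -/
abbrev RingData.mul' (R : RingData.{u, v, w} V) {X : V} (x y : R.R X) : R.R X := x * y

/-- power -/
abbrev RingData.pow' (R : RingData.{u, v, w} V) {X : V} (x : R.R X) (k : ℕ) : R.R X := x ^ k

/-- the unit of the ring of `X`, times a rational number -/
abbrev RingData.num (R : RingData.{u, v, w} V) (X : V) (q : ℚ) : R.R X := q • (1 : R.R X)

/-- difference -/
abbrev RingData.sub' (R : RingData.{u, v, w} V) {X : V} (x y : R.R X) : R.R X := x - y

/-- inverse image -/
abbrev RingData.inv (R : RingData.{u, v, w} V) {X Y : V} (f : X ⟶ Y) (y : R.R Y) : R.R X :=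
  R.pull f y

/-- direct image -/
abbrev RingData.dir (R : RingData.{u, v, w} V) {X Y : V} (f : X ⟶ Y) (x : R.R X) : R.R Y :=
  R.push f x

/-- the linear span -/
abbrev RingData.spn (R : RingData.{u, v, w} V) {X : V} (s : Set (R.R X)) : Submodule ℚ (R.R X) :=
  Submodule.span ℚ s

/-- the cohomology class of a cycle class -/
abbrev CycleData.cls (T : CycleData.{u, v, w} V) {X : V} (z : T.CH.R X) : T.H.R X := T.cl X z

/-- The action of a correspondence on cohomology. -/
abbrev CycleData.actCoh [CartesianMonoidalCategory V] (T : CycleData.{u, v, w} V) {X Y : V}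
    (c : T.CH.R (X ⊗ Y)) (x : T.H.R X) : T.H.R Y := T.H.act (T.cl _ c) x

end Pool.Agent.Lib.MP_32dfd1_ag.Cyc
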