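import Mathlib
import Pool.Agent.Lib.MP_32dfd1_ag.Cyc.Spec

set_option autoImplicit false
set_option linter.unusedSectionVars false

/-!
# Linear algebra for the powers of an operator
-/

namespace Pool.Agent.Lib.MP_32dfd1_ag.Pur.Abel

open Polynomial Pool.Agent.Lib.MP_32dfd1_ag.Cyc

section

variable {W : Type*} [AddCommGroup W] [Module ℚ W]

theorem cd_neg (F : ℤ → W) (n : ℕ) (x : ℤ) :
    cd^[n] (fun y => F (-y)) x = ((-1 : ℤ) ^ n) • cd^[n] F (-x) := by
  induction n generalizing F x with
  | zero => simp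
  | succ n ih =>
    rw [Function.iterate_succ_apply, Function.iterate_succ_apply]
    have h : cd (fun y => F (-y)) = fun y => (fun z => -(cd F z)) (-y) := by
      funext y
      simp only [cd]
      rw [show -(y + 1) = -y - 1 by ring, show -(y - 1) = -y + 1 by ring]
      abel
    rw [h]
    refine (ih (fun z => -(cd F z)) x).trans ?_
    have h2 : ∀ (m : ℕ) (G : ℤ → W) (y : ℤ), cd^[m] (fun z => -(G z)) y = -(cd^[m] G y) := by
      intro m
      induction m with
      | zero => intro G y; rfl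
      | succ m ihm =>
        intro G y
        rw [Function.iterate_succ_apply, Function.iterate_succ_apply]
        have : cd (fun z => -(G z)) = fun z => -(cd G z) := by
          funext z
          simp only [cd]
          abel
        rw [this, ihm]
    rw [h2, pow_succ, mul_smul, neg_one_zsmul, smul_neg]

theorem cd_add (F G : ℤ → W) (n : ℕ) (x : ℤ) :
    cd^[n] (fun y => F y + G y) x = cd^[n] F x + cd^[n] G x := by
  induction n generalizing F G x with
  | zero => rfl
  | succ n ih =>
    rw [Function.iterate_succ_apply, Function.iterate_succ_apply, Function.iterate_succ_apply]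
    have : cd (fun y => F y + G y) = fun y => cd F y + cd G y := by
      funext y
      simp only [cd]
      abel
    rw [this, ih]

theorem cd_smul (q : ℚ) (F : ℤ → W) (n : ℕ) (x : ℤ) :
    cd^[n] (fun y => q • F y) x = q • cd^[n] F x := by
  induction n generalizing F x with
  | zero => rfl
  | succ n ih =>
    rw [Function.iterate_succ_apply, Function.iterate_succ_apply]
    have : cd (fun y => q • F y) = fun y => q • cd F y := by
      funext y
      simp only [cd]
      rw [smul_sub]
    rw [this, ih]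

theorem cd_map {W' : Type*} [AddCommGroup W'] [Module ℚ W'] (f : W →ₗ[ℚ] W') (F : ℤ → W) (n : ℕ)
    (x : ℤ) : cd^[n] (fun y => f (F y)) x = f (cd^[n] F x) := by
  induction n generalizing F x with
  | zero => rfl
  | succ n ih =>
    rw [Function.iterate_succ_apply, Function.iterate_succ_apply]
    have : cd (fun y => f (F y)) = fun y => f (cd F y) := by
      funext y
      simp only [cd]
      rw [map_sub]
    rw [this, ih]

/-- binomial expansion on the even integers -/
theorem expand_of_cd {n : ℕ} {F : ℤ → W} (h : ∀ x, cd^[n] F x = 0) :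
    ∃ c : ℕ → W, ∀ l : ℕ, F (2 * l) = ∑ i ∈ Finset.range n, (l.choose i) • c i := by
  refine ⟨fun i => (fwdDiff 1)^[i] (fun k : ℕ => F (2 * k + 0)) 0, fun l => ?_⟩
  have h1 := shift_eq_sum_fwdDiff_iter 1 (fun k : ℕ => F (2 * k + 0)) l 0
  have hz : ∀ i, n ≤ i → (fwdDiff 1)^[i] (fun k : ℕ => F (2 * k + 0)) 0 = 0 := by
    intro i hi
    obtain ⟨j, rfl⟩ := Nat.exists_eq_add_of_le' hi
    rw [Function.iterate_add_apply]
    have : (fwdDiff 1)^[n] (fun k : ℕ => F (2 * k + 0)) = fun _ => 0 := by
      funext l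
      rw [fwdDiff_even, h]
    rw [this]
    clear h1 hi
    induction j with
    | zero => rfl
    | succ j ih =>
      rw [Function.iterate_succ_apply]
      have : (fwdDiff 1 fun _ : ℕ => (0 : W)) = fun _ => 0 := by
        funext l; simp [fwdDiff]
      rw [this, ih]
  have h2 : F (2 * l) = ∑ k ∈ Finset.range (l + 1), l.choose k •
      (fwdDiff 1)^[k] (fun k : ℕ => F (2 * k + 0)) 0 := by
    rw [← h1]
    simp
  rw [h2]
  by_cases hl : l + 1 ≤ n
  · refine Finset.sum_subset (Finset.range_subset_range.2 hl) fun i _ hi => ?_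
    rw [Finset.mem_range, not_lt] at hi
    rw [Nat.choose_eq_zero_of_lt (by omega), zero_smul]
  · symm
    refine Finset.sum_subset (Finset.range_subset_range.2 (by omega)) fun i _ hi => ?_
    rw [Finset.mem_range, not_lt] at hi
    change l.choose i • (fwdDiff 1)^[i] (fun k : ℕ => F (2 * k + 0)) 0 = 0
    rw [hz i hi, smul_zero]

/-- If the `n`-th central differences of `F` are in `S`, then `qp n` applied to `N` maps `N z` to
`S`, where `F (2 ^ l) = N ^ l z`. -/
theorem aeval_qp_mem (S : Submodule ℚ W) {n : ℕ} {F : ℤ → W} (h : ∀ x, cd^[n] F x ∈ S)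
    (N : Module.End ℚ W) (z : W) (hN : ∀ l : ℕ, F (2 * (2 ^ l : ℕ)) = (N ^ (l + 1)) z) :
    aeval N (qp n) (N z) ∈ S := by
  have h1 : ∀ x, cd^[n] (fun y => S.mkQ (F y)) x = 0 := by
    intro x
    rw [cd_map, Submodule.mkQ_apply, Submodule.Quotient.mk_eq_zero]
    exact h x
  obtain ⟨c, hc⟩ := expand_of_cd h1
  rw [← Submodule.Quotient.mk_eq_zero, ← Submodule.mkQ_apply, aeval_eq_sum_range, qp_natDegree,
    LinearMap.sum_apply, map_sum]
  have h2 : ∀ l, S.mkQ (((qp n).coeff l • N ^ l) (N z)) =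
      ∑ i ∈ Finset.range n, ((qp n).coeff l * (((2 ^ l : ℕ).choose i : ℕ) : ℚ)) • c i := by
    intro l
    rw [LinearMap.smul_apply, ← Module.End.mul_apply, ← pow_succ, ← hN, map_smul]
    have h3 := hc (2 ^ l)
    beta_reduce at h3
    rw [h3, Finset.smul_sum]
    refine Finset.sum_congr rfl fun i _ => ?_
    rw [mul_smul, Nat.cast_smul_eq_nsmul]
  rw [Finset.sum_congr rfl fun l _ => h2 l, Finset.sum_comm]
  refine Finset.sum_eq_zero fun i hi => ?_
  rw [← Finset.sum_smul]
  have h2 := qp_sum n (C (1 / (i.factorial : ℚ)) * descPochhammer ℚ i)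
    ((choose_natDegree i).trans_lt (Finset.mem_range.1 hi))
  have h3 : ∀ l, (C (1 / (i.factorial : ℚ)) * descPochhammer ℚ i).eval (2 ^ l : ℚ) =
      (((2 ^ l : ℕ).choose i : ℕ) : ℚ) := by
    intro l
    rw [choose_eval]
    norm_num
  rw [Finset.sum_congr rfl fun l _ => by rw [h3 l]] at h2
  rw [h2, zero_smul]

theorem aeval_comm (N : Module.End ℚ W) (p q : ℚ[X]) (z : W) :
    aeval N p (aeval N q z) = aeval N (p * q) z := by
  rw [map_mul, Module.End.mul_apply]

theorem aeval_mem (S : Submodule ℚ W) (N : Module.End ℚ W) (hN : ∀ z ∈ S, N z ∈ S) (p : ℚ[X])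
    {z : W} (hz : z ∈ S) : aeval N p z ∈ S := by
  have h : ∀ l : ℕ, (N ^ l) z ∈ S := by
    intro l
    induction l with
    | zero => simpa using hz
    | succ l ih =>
      rw [pow_succ', Module.End.mul_apply]
      exact hN _ ih
  rw [aeval_eq_sum_range, LinearMap.sum_apply]
  refine Submodule.sum_mem _ fun l _ => ?_
  rw [LinearMap.smul_apply]
  exact Submodule.smul_mem _ _ (h l)

theorem aeval_mem_of_dvd (S : Submodule ℚ W) (N : Module.End ℚ W) (hN : ∀ z ∈ S, N z ∈ S)
    {p q : ℚ[X]} (hpq : p ∣ q) {z : W} (hz : aeval N p z ∈ S) : aeval N q z ∈ S := by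
  obtain ⟨r, rfl⟩ := hpq
  rw [mul_comm, ← aeval_comm]
  exact aeval_mem S N hN r hz

/-- `M` and `N` agree on the powers of `M` applied to `z` if they commute. -/
theorem aeval_eq (M N : Module.End ℚ W) (hMN : ∀ w, M (N w) = N (M w)) (z : W) (hz : M z = N z)
    (p : ℚ[X]) : aeval M p z = aeval N p z := by
  have h : ∀ l : ℕ, (M ^ l) z = (N ^ l) z := by
    intro l
    induction l with
    | zero => simp
    | succ l ih =>
      have h1 : ∀ l : ℕ, M ((N ^ l) z) = (N ^ l) (M z) := by
        intro l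
        induction l with
        | zero => simp
        | succ l ih => rw [pow_succ', Module.End.mul_apply, Module.End.mul_apply, hMN, ih]
      rw [pow_succ', Module.End.mul_apply, ih, h1, hz, ← Module.End.mul_apply, ← pow_succ]
  rw [aeval_eq_sum_range, aeval_eq_sum_range, LinearMap.sum_apply, LinearMap.sum_apply]
  refine Finset.sum_congr rfl fun l _ => ?_
  rw [LinearMap.smul_apply, LinearMap.smul_apply, h]

/-- If `M N = 2 ^ (2 g)`, then `(M - 2 ^ (2 g)) (M - 2 ^ (2 g - 1)) ⋯ (M - 2 ^ (2 g - n + 1))`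
applied to `z` is a multiple of `M ^ n` applied to `(N - 1) (N - 2) ⋯ (N - 2 ^ (n - 1)) z`. -/
theorem aeval_inv (M N : Module.End ℚ W) (d : ℕ) (hMN : ∀ w, M (N w) = ((2 : ℚ) ^ d) • w) (n : ℕ)
    (z : W) : (M ^ n) (aeval N (qp n) z) =
      aeval M (∏ j ∈ Finset.range n, (C ((2 : ℚ) ^ d) - C ((2 : ℚ) ^ j) * X)) z := by
  induction n with
  | zero => simp [qp]
  | succ n ih =>
    have h1 : qp (n + 1) = (X - C ((2 : ℚ) ^ n)) * qp n := by
      unfold qp
      rw [Finset.prod_range_succ, mul_comm]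
    rw [h1, ← aeval_comm, pow_succ, Module.End.mul_apply]
    have h2 : ∀ w, M (aeval N (X - C ((2 : ℚ) ^ n)) w) =
        aeval M (C ((2 : ℚ) ^ d) - C ((2 : ℚ) ^ n) * X) w := by
      intro w
      rw [map_sub, map_sub, aeval_X, aeval_C, aeval_C, map_mul, aeval_C, aeval_X,
        LinearMap.sub_apply, LinearMap.sub_apply, Module.End.mul_apply, map_sub, hMN]
      simp only [Module.algebraMap_end_apply, map_smul]
    rw [h2, Finset.prod_range_succ, mul_comm (∏ j ∈ Finset.range n, _), ← aeval_comm, ← ih]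
    have h3 : M ^ n = aeval M (X ^ n : ℚ[X]) := by rw [map_pow, aeval_X]
    rw [h3, aeval_comm, aeval_comm, mul_comm]

end

/-- The nodes: Lagrange interpolation. -/
theorem lagrange_sum (s : Finset ℕ) (hs : s.Nonempty) :
    ∑ w ∈ s, C ((∏ j ∈ s.erase w, ((2 : ℚ) ^ w - 2 ^ j))⁻¹) *
      ∏ j ∈ s.erase w, (X - C ((2 : ℚ) ^ j)) = 1 := by
  have hinj : Set.InjOn (fun j : ℕ => (2 : ℚ) ^ j) s := by
    intro a _ b _ hab
    exact pow_right_injective₀ (by norm_num) (by norm_num) hab
  have h := Lagrange.sum_basis (F := ℚ) (v := fun j : ℕ => (2 : ℚ) ^ j) hinj hs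
  rw [← h]
  refine Finset.sum_congr rfl fun w _ => ?_
  unfold Lagrange.basis Lagrange.basisDivisor
  rw [Finset.prod_mul_distrib, ← Finset.prod_inv_distrib, map_prod]

end Pool.Agent.Lib.MP_32dfd1_ag.Pur.Abel
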