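import Mathlib
import Pool.Agent.Lib.MP_32dfd1_ag.Sur.Ext

set_option autoImplicit false
set_option linter.unusedSectionVars false

/-!
# Associativity of the composition of correspondences, graphs, external products
-/

namespace Pool.Agent.Lib.MP_32dfd1_ag.Pur

open CategoryTheory MonoidalCategory CartesianMonoidalCategory Pool.Agent.Lib.MP_32dfd1_ag.Cyc
  Pool.Agent.Lib.MP_32dfd1_ag.Par Pool.Agent.Lib.MP_32dfd1_ag.Sur

universe u v w

variable {V : Type u} [Category.{v} V] [CartesianMonoidalCategory V]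

section

variable (R : RingData.{u, v, w} V)

theorem comp_add {X Y Z : V} (c : R.R (X ⊗ Y)) (d d' : R.R (Y ⊗ Z)) :
    R.comp c (d + d') = R.comp c d + R.comp c d' := by
  unfold RingData.comp
  rw [map_add, mul_add, map_add]

theorem add_comp {X Y Z : V} (c c' : R.R (X ⊗ Y)) (d : R.R (Y ⊗ Z)) :
    R.comp (c + c') d = R.comp c d + R.comp c' d := by
  unfold RingData.comp
  rw [map_add, add_mul, map_add]

theorem smul_comp (q : ℚ) {X Y Z : V} (c : R.R (X ⊗ Y)) (d : R.R (Y ⊗ Z)) :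
    R.comp (q • c) d = q • R.comp c d := by
  unfold RingData.comp
  rw [map_smul, smul_mul_assoc, map_smul]

theorem comp_smul (q : ℚ) {X Y Z : V} (c : R.R (X ⊗ Y)) (d : R.R (Y ⊗ Z)) :
    R.comp c (q • d) = q • R.comp c d := by
  unfold RingData.comp
  rw [map_smul, mul_smul_comm, map_smul]

/-- composition with `d` as a linear map -/
def compR {X Y Z : V} (d : R.R (Y ⊗ Z)) : R.R (X ⊗ Y) →ₗ[ℚ] R.R (X ⊗ Z) where
  toFun c := R.comp c d
  map_add' c c' := add_comp R c c' d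
  map_smul' q c := smul_comp R q c d

/-- composition with `c` as a linear map -/
def compL {X Y Z : V} (c : R.R (X ⊗ Y)) : R.R (Y ⊗ Z) →ₗ[ℚ] R.R (X ⊗ Z) where
  toFun d := R.comp c d
  map_add' d d' := comp_add R c d d'
  map_smul' q d := comp_smul R q c d

@[simp] theorem compR_apply {X Y Z : V} (d : R.R (Y ⊗ Z)) (c : R.R (X ⊗ Y)) :
    compR R d c = R.comp c d := rfl

@[simp] theorem compL_apply {X Y Z : V} (c : R.R (X ⊗ Y)) (d : R.R (Y ⊗ Z)) :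
    compL R c d = R.comp c d := rfl

theorem comp_sub {X Y Z : V} (c : R.R (X ⊗ Y)) (d d' : R.R (Y ⊗ Z)) :
    R.comp c (d - d') = R.comp c d - R.comp c d' := map_sub (compL R c) d d'

theorem sub_comp {X Y Z : V} (c c' : R.R (X ⊗ Y)) (d : R.R (Y ⊗ Z)) :
    R.comp (c - c') d = R.comp c d - R.comp c' d := map_sub (compR R d) c c'

theorem sum_comp {X Y Z : V} {I : Type*} (s : Finset I) (c : I → R.R (X ⊗ Y)) (d : R.R (Y ⊗ Z)) :
    R.comp (∑ i ∈ s, c i) d = ∑ i ∈ s, R.comp (c i) d := map_sum (compR R d) c s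

theorem comp_sum {X Y Z : V} {I : Type*} (s : Finset I) (c : R.R (X ⊗ Y)) (d : I → R.R (Y ⊗ Z)) :
    R.comp c (∑ i ∈ s, d i) = ∑ i ∈ s, R.comp c (d i) := map_sum (compL R c) d s

/-- the action of `c` as a linear map -/
def actL {X Y : V} (c : R.R (X ⊗ Y)) : R.R X →ₗ[ℚ] R.R Y where
  toFun x := R.act c x
  map_add' x y := R.act_add c x y
  map_smul' q x := R.act_smul c q x

@[simp] theorem actL_apply {X Y : V} (c : R.R (X ⊗ Y)) (x : R.R X) : actL R c x = R.act c x := rfl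

theorem add_act {X Y : V} (c c' : R.R (X ⊗ Y)) (x : R.R X) :
    R.act (c + c') x = R.act c x + R.act c' x := by
  unfold RingData.act
  rw [mul_add, map_add]

theorem sub_act {X Y : V} (c c' : R.R (X ⊗ Y)) (x : R.R X) :
    R.act (c - c') x = R.act c x - R.act c' x := by
  unfold RingData.act
  rw [mul_sub, map_sub]

variable [R.Functorial] [R.Direct] [R.Formulas]

/-- base change for `p × 1` and `f × 1`, where `p : X × Y ⟶ Y` is the projection -/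
theorem base_change_mid {X Y Z W : V} (f : Z ⟶ Y) (u : R.R (Z ⊗ W)) :
    R.pull (snd X Y ▷ W) (R.push (f ▷ W) u) =
      R.push ((X ◁ f) ▷ W) (R.pull (snd X Z ▷ W) u) := by
  have h := base_change_right R (f ▷ W) X u
  have h1 : snd X Y ▷ W = (α_ X Y W).hom ≫ snd X (Y ⊗ W) := by
    ext <;> simp
  have h2 : snd X Z ▷ W = (α_ X Z W).hom ≫ snd X (Z ⊗ W) := by
    ext <;> simp
  rw [h1, h2, R.pull_comp, R.pull_comp, h]
  refine RingData.pull_push_iso R (α_ X Z W) (α_ X Y W) ((X ◁ f) ▷ W) (X ◁ f ▷ W) ?_ _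
  ext <;> simp

/-- associativity of the composition of correspondences -/
theorem comp_assoc {X Y Z W : V} (a : R.R (X ⊗ Y)) (b : R.R (Y ⊗ Z)) (c : R.R (Z ⊗ W)) :
    R.comp (R.comp a b) c = R.comp a (R.comp b c) := by
  -- the left-hand side
  have hL : R.comp (R.comp a b) c = R.push ((fst X Y ▷ Z) ▷ W ≫ fst X Z ▷ W)
      (R.pull (fst ((X ⊗ Y) ⊗ Z) W ≫ fst (X ⊗ Y) Z) a *
        R.pull (fst ((X ⊗ Y) ⊗ Z) W ≫ snd X Y ▷ Z) b *
        R.pull ((fst X Y ▷ Z) ▷ W ≫ snd X Z ▷ W) c) := by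
    unfold RingData.comp
    rw [R.base_change, ← R.proj_right, ← R.push_comp, map_mul (R.pull _), ← R.pull_comp,
      ← R.pull_comp, ← R.pull_comp]
  -- the right-hand side
  have hR : R.comp a (R.comp b c) = R.push ((X ◁ fst Y Z) ▷ W ≫ fst X Y ▷ W)
      (R.pull ((X ◁ fst Y Z) ▷ W ≫ fst (X ⊗ Y) W) a *
        (R.pull (snd X (Y ⊗ Z) ▷ W ≫ fst (Y ⊗ Z) W) b *
        R.pull (snd X (Y ⊗ Z) ▷ W ≫ snd Y Z ▷ W) c)) := by
    unfold RingData.comp
    rw [base_change_mid, ← R.proj_left, ← R.push_comp, map_mul (R.pull _), ← R.pull_comp,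
      ← R.pull_comp, ← R.pull_comp]
  have h := RingData.pull_push_iso R ((α_ X Y Z) ▷ᵢ W) (Iso.refl (X ⊗ W))
    ((fst X Y ▷ Z) ▷ W ≫ fst X Z ▷ W) ((X ◁ fst Y Z) ▷ W ≫ fst X Y ▷ W) (by ext <;> simp)
    (R.pull ((X ◁ fst Y Z) ▷ W ≫ fst (X ⊗ Y) W) a *
        (R.pull (snd X (Y ⊗ Z) ▷ W ≫ fst (Y ⊗ Z) W) b *
        R.pull (snd X (Y ⊗ Z) ▷ W ≫ snd Y Z ▷ W) c))
  rw [Iso.refl_hom, R.pull_id] at h
  rw [hR, h, hL]
  congr 1
  rw [map_mul (R.pull _), map_mul (R.pull _), ← R.pull_comp, ← R.pull_comp, ← R.pull_comp,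
    mul_assoc]
  have e1 : fst ((X ⊗ Y) ⊗ Z) W ≫ fst (X ⊗ Y) Z =
      (α_ X Y Z ▷ᵢ W).hom ≫ (X ◁ fst Y Z) ▷ W ≫ fst (X ⊗ Y) W := by
    ext <;> simp
  have e2 : fst ((X ⊗ Y) ⊗ Z) W ≫ snd X Y ▷ Z =
      (α_ X Y Z ▷ᵢ W).hom ≫ snd X (Y ⊗ Z) ▷ W ≫ fst (Y ⊗ Z) W := by
    ext <;> simp
  have e3 : (fst X Y ▷ Z) ▷ W ≫ snd X Z ▷ W =
      (α_ X Y Z ▷ᵢ W).hom ≫ snd X (Y ⊗ Z) ▷ W ≫ snd Y Z ▷ W := by
    ext <;> simp
  rw [e1, e2, e3]

/-- the transposed correspondence -/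
def tr {X Y : V} (c : R.R (X ⊗ Y)) : R.R (Y ⊗ X) := R.pull (sw Y X).hom c

theorem tr_tr {X Y : V} (c : R.R (X ⊗ Y)) : tr R (tr R c) = c := by
  unfold tr
  rw [← R.pull_comp]
  have h : (sw X Y).hom ≫ (sw Y X).hom = 𝟙 _ := by ext <;> simp [sw]
  rw [h, R.pull_id]

theorem tr_mem {X Y : V} {c : R.R (X ⊗ Y)} {k : ℤ} (h : c ∈ R.gr (X ⊗ Y) k) :
    tr R c ∈ R.gr (Y ⊗ X) k := R.pull_mem _ h

/-- reversal of three factors -/
def rev (X Y Z : V) : (Z ⊗ Y) ⊗ X ≅ (X ⊗ Y) ⊗ Z where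
  hom := lift (lift (snd _ _) (fst _ _ ≫ snd _ _)) (fst _ _ ≫ fst _ _)
  inv := lift (lift (snd _ _) (fst _ _ ≫ snd _ _)) (fst _ _ ≫ fst _ _)
  hom_inv_id := by ext <;> simp
  inv_hom_id := by ext <;> simp

theorem tr_comp (hC : ∀ (X : V) (x y : R.R X), x * y = y * x) {X Y Z : V} (a : R.R (X ⊗ Y))
    (b : R.R (Y ⊗ Z)) : tr R (R.comp a b) = R.comp (tr R b) (tr R a) := by
  have h := RingData.pull_push_iso R (rev X Y Z) (sw Z X) (fst Z Y ▷ X) (fst X Y ▷ Z)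
    (by ext <;> simp [rev, sw]) (R.pull (fst (X ⊗ Y) Z) a * R.pull (snd X Y ▷ Z) b)
  unfold tr RingData.comp
  rw [h, map_mul (R.pull _), ← R.pull_comp, ← R.pull_comp, ← R.pull_comp, ← R.pull_comp, hC]
  have e1 : (rev X Y Z).hom ≫ snd X Y ▷ Z = fst (Z ⊗ Y) X ≫ (sw Z Y).hom := by
    ext <;> simp [rev, sw]
  have e2 : (rev X Y Z).hom ≫ fst (X ⊗ Y) Z = snd Z Y ▷ X ≫ (sw Y X).hom := by
    ext <;> simp [rev, sw]
  rw [e1, e2]

/-- the graph of a morphism -/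
def gr {X Y : V} (f : X ⟶ Y) : R.R (X ⊗ Y) := R.push (lift (𝟙 X) f) 1

theorem tr_gt {X Y : V} (f : X ⟶ Y) : tr R (R.gt f) = gr R f := by
  unfold tr RingData.gt gr
  have h := RingData.pull_push_iso R (Iso.refl X) (sw X Y) (lift (𝟙 X) f) (lift f (𝟙 X))
    (by ext <;> simp [sw]) (1 : R.R X)
  rw [h, map_one (R.pull _)]

theorem tr_gr {X Y : V} (f : X ⟶ Y) : tr R (gr R f) = R.gt f := by
  rw [← tr_gt, tr_tr]

theorem tr_diag (X : V) : tr R (R.diag X) = R.diag X := by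
  have h := tr_gt R (𝟙 X)
  exact h

theorem gt_id (X : V) : R.gt (𝟙 X) = R.diag X := rfl

theorem gr_id (X : V) : gr R (𝟙 X) = R.diag X := rfl

theorem act_gr {X Y : V} (f : X ⟶ Y) (x : R.R X) : R.act (gr R f) x = R.push f x := by
  unfold RingData.act gr
  rw [← R.proj_left, ← R.pull_comp, ← R.push_comp, lift_fst, lift_snd, R.pull_id, mul_one]

theorem gt_comp_gt {X Y Z : V} (f : X ⟶ Y) (g : Z ⟶ X) :
    R.comp (R.gt f) (R.gt g) = R.gt (g ≫ f) := by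
  unfold RingData.gt
  rw [span_comp, map_one (R.pull _), one_mul, id_whiskerRight, R.pull_id, ← R.push_comp]
  congr 2
  ext <;> simp

theorem gr_comp_gr (hC : ∀ (X : V) (x y : R.R X), x * y = y * x) {X Y Z : V} (f : X ⟶ Y)
    (g : Y ⟶ Z) : R.comp (gr R f) (gr R g) = gr R (f ≫ g) := by
  rw [← tr_tr R (R.comp (gr R f) (gr R g)), tr_comp R hC, tr_gr, tr_gr, gt_comp_gt, tr_gt]

theorem comp_diag_right (hC : ∀ (X : V) (x y : R.R X), x * y = y * x) {X Y : V}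
    (c : R.R (X ⊗ Y)) : R.comp c (R.diag Y) = c := by
  rw [← tr_tr R (R.comp c (R.diag Y)), tr_comp R hC, tr_diag, R.comp_diag, tr_tr]

/-- the transposed graph of an isomorphism is the graph of the inverse -/
theorem gt_iso {X Y : V} (f : X ≅ Y) : R.gt f.hom = gr R f.inv := by
  unfold RingData.gt gr
  have h : lift f.hom (𝟙 X) = f.hom ≫ lift (𝟙 Y) f.inv := by ext <;> simp
  rw [h, R.push_comp, R.push_iso, map_one (R.pull _)]

/-! ## external products -/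

theorem ep_add {X X' P P' : V} (a : R.R (X ⊗ P)) (a' b' : R.R (X' ⊗ P')) :
    ep R a (a' + b') = ep R a a' + ep R a b' := by
  unfold ep
  rw [map_add, mul_add]

theorem add_ep {X X' P P' : V} (a b : R.R (X ⊗ P)) (a' : R.R (X' ⊗ P')) :
    ep R (a + b) a' = ep R a a' + ep R b a' := by
  unfold ep
  rw [map_add, add_mul]

theorem ep_smul {X X' P P' : V} (q : ℚ) (a : R.R (X ⊗ P)) (a' : R.R (X' ⊗ P')) :
    ep R a (q • a') = q • ep R a a' := by
  unfold ep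
  rw [map_smul, mul_smul_comm]

theorem smul_ep {X X' P P' : V} (q : ℚ) (a : R.R (X ⊗ P)) (a' : R.R (X' ⊗ P')) :
    ep R (q • a) a' = q • ep R a a' := by
  unfold ep
  rw [map_smul, smul_mul_assoc]

theorem ep_zero {X X' P P' : V} (a : R.R (X ⊗ P)) :
    ep R a (0 : R.R (X' ⊗ P')) = 0 := by
  unfold ep
  rw [map_zero, mul_zero]

theorem zero_ep {X X' P P' : V} (a' : R.R (X' ⊗ P')) :
    ep R (0 : R.R (X ⊗ P)) a' = 0 := by
  unfold ep
  rw [map_zero, zero_mul]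

theorem ep_gt {X X' Y Y' : V} (f : X ⟶ Y) (g : X' ⟶ Y') :
    ep R (R.gt f) (R.gt g) = R.gt (f ⊗ₘ g) := by
  rw [ep_eq]
  unfold RingData.gt
  rw [← push_product]
  have h := RingData.pull_push_iso R (Iso.refl (X ⊗ X')) (four Y Y' X X')
    (lift (f ⊗ₘ g) (𝟙 (X ⊗ X'))) (lift f (𝟙 X) ⊗ₘ lift g (𝟙 X'))
    (by ext <;> simp [four]) (1 : R.R (X ⊗ X'))
  rw [map_one, map_one, one_mul, h, Iso.refl_hom, R.pull_id]

/-- the action of an external product on an external product -/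
theorem act_ep (hC : ∀ (X : V) (x y : R.R X), x * y = y * x) {X X' Y Y' : V}
    (a : R.R (X ⊗ Y)) (a' : R.R (X' ⊗ Y')) (z : R.R X) (z' : R.R X') :
    R.act (ep R a a') (R.pull (fst X X') z * R.pull (snd X X') z') =
      R.pull (fst Y Y') (R.act a z) * R.pull (snd Y Y') (R.act a' z') := by
  have h := push_product R (snd X Y) (snd X' Y') (R.pull (fst X Y) z * a)
    (R.pull (fst X' Y') z' * a')
  unfold RingData.act
  rw [← h, ep_eq]
  have h2 := RingData.pull_push_iso R (four X X' Y Y') (Iso.refl (Y ⊗ Y')) (snd (X ⊗ X') (Y ⊗ Y'))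
    (snd X Y ⊗ₘ snd X' Y') (by ext <;> simp [four])
    (R.pull (fst (X ⊗ Y) (X' ⊗ Y')) (R.pull (fst X Y) z * a) *
      R.pull (snd (X ⊗ Y) (X' ⊗ Y')) (R.pull (fst X' Y') z' * a'))
  rw [Iso.refl_hom, R.pull_id] at h2
  rw [h2]
  congr 1
  simp only [map_mul, ← R.pull_comp]
  have e1 : fst (X ⊗ X') (Y ⊗ Y') ≫ fst X X' =
      (four X X' Y Y').hom ≫ fst (X ⊗ Y) (X' ⊗ Y') ≫ fst X Y := by simp [four]
  have e2 : fst (X ⊗ X') (Y ⊗ Y') ≫ snd X X' =
      (four X X' Y Y').hom ≫ snd (X ⊗ Y) (X' ⊗ Y') ≫ fst X' Y' := by simp [four]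
  rw [e1, e2]
  generalize R.pull _ z = A
  generalize R.pull _ z' = A'
  generalize R.pull _ a = B
  generalize R.pull _ a' = B'
  rw [mul_assoc, ← mul_assoc A' B B', hC _ A' B, mul_assoc B A' B', ← mul_assoc]

end

end Pool.Agent.Lib.MP_32dfd1_ag.Pur
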