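import Mathlib
import Pool.Agent.Lib.MP_32dfd1_ag.Cyc.Theory
import Pool.Agent.Lib.MP_32dfd1_ag.Pur.Short
import Pool.Agent.Lib.MP_32dfd1_ag.Par.Defs
import Pool.Agent.Lib.MP_32dfd1_ag.Sur.Defs
import Pool.Agent.Lib.MP_32dfd1_ag.Sur.Ext

set_option autoImplicit false

/-!
# Purity: test objects, sharp correspondences, pure varieties (definitions)

`T : CycleData V` consists of the Chow rings with rational coefficients and the cohomology rings
`H^*(X(ℂ), ℚ)` of the (irreducible) smooth projective varieties over an algebraically closed field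
`k ⊆ ℂ`, for instance `k = ℚ̄`; their textbook properties are `CycleData.Textbook`.
-/

namespace Pool.Agent.Lib.MP_32dfd1_ag.Pur

open CategoryTheory MonoidalCategory CartesianMonoidalCategory Pool.Agent.Lib.MP_32dfd1_ag.Cyc
  Pool.Agent.Lib.MP_32dfd1_ag.Par Pool.Agent.Lib.MP_32dfd1_ag.Sur

universe u v w

variable {V : Type u} [Category.{v} V]

section

variable [CartesianMonoidalCategory V]

/-- Q1 for the varieties of the class `K`: if `H^(2m-1)(X, ℚ) = 0`, `m ≥ 1`, then every
homologically trivial cycle class of codimension `m` on `X` is zero in `CH^m(X) ⊗ ℚ`.  There is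
no condition on `m` and `dim X`. -/
def Q1On (T : CycleData.{u, v, w} V) (K : V → Prop) : Prop :=
  ∀ X : V, K X → ∀ m : ℤ, 1 ≤ m → T.H.gr X (2 * m - 1) = ⊥ →
    ∀ z, T.HomTrivial X m z → z = 0

/-- The conjectures of Murre, Bloch and Beilinson over `ℚ̄` (one-step filtration, controlled by
`H^(2m-1)` only) for the class `K`: a correspondence `c` from `X` to `Y`, `X` and `Y` in `K`, which
acts as zero on `H^(2m-1)(X)` acts as zero on the homologically trivial cycle classes of
codimension `m` on `X`. -/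
def OneStepOn (T : CycleData.{u, v, w} V) (K : V → Prop) : Prop :=
  ∀ X Y : V, K X → K Y → ∀ (m r : ℤ) (c : T.CH.R (X ⊗ Y)), 1 ≤ m →
    T.CH.InDeg c (T.dim X + r) →
    (∀ x, T.H.InDeg x (2 * m - 1) → T.H.IsZero (T.actCoh c x)) →
    ∀ z, T.HomTrivial X m z → T.CH.IsZero (T.CH.act c z)

/-- Exterior products of homologically trivial cycles on varieties of the class `K` are zero. -/
def ExteriorVanishOn (T : CycleData.{u, v, w} V) (K : V → Prop) : Prop :=
  ∀ X Y : V, K X → K Y → ∀ (a b : ℤ) (z : T.CH.R X) (z' : T.CH.R Y), T.HomTrivial X a z →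
    T.HomTrivial Y b z' → T.CH.pull' (fst X Y) z * T.CH.pull' (snd X Y) z' = 0

/-- For `X` in the class `K` there is for each `m` a correspondence `t` from `X` to itself which
is the identity on the homologically trivial cycle classes of codimension `m` and acts as zero
on `H^j(X)` for all `j ≠ 2m - 1`. -/
def MurreOn (T : CycleData.{u, v, w} V) (K : V → Prop) : Prop :=
  ∀ X : V, K X → ∀ m : ℤ, ∃ t ∈ T.CH.gr (X ⊗ X) (T.dim X),
    (∀ z, T.HomTrivial X m z → T.CH.act t z = z) ∧
    (∀ j : ℤ, j ≠ 2 * m - 1 → ∀ x ∈ T.H.gr X j, T.H.act (T.cl _ t) x = 0)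

/-! ## Test objects -/

/-- A variety `Y` with a correspondence `e` and an interval `[lo, hi]`. -/
structure Test (T : CycleData.{u, v, w} V) where
  Y : V
  e : T.CH.R (Y ⊗ Y)
  lo : ℤ
  hi : ℤ

/-- `e` has degree zero and acts as zero on `H^j(Y)` for `j` outside of `[lo, hi]`. -/
structure Test.Coh {T : CycleData.{u, v, w} V} (t : Test T) : Prop where
  mem : t.e ∈ T.CH.gr (t.Y ⊗ t.Y) (T.dim t.Y)
  zero : ∀ j : ℤ, (j < t.lo ∨ t.hi < j) → ∀ x ∈ T.H.gr t.Y j, T.H.act (T.cl _ t.e) x = 0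

/-- `e` acts as zero on homologically trivial cycles of codimension `m` for `2m - 1` outside of
`[lo, hi]`. -/
def Test.Van {T : CycleData.{u, v, w} V} (t : Test T) : Prop :=
  ∀ (m : ℤ) (z : T.CH.R t.Y), T.HomTrivial t.Y m z → (2 * m - 1 < t.lo ∨ t.hi < 2 * m - 1) →
    T.CH.act t.e z = 0

/-- Sums of compositions `X ⟶ Y ⟶ Y ⟶ X` through test objects `t = (Y, e, lo, hi)` of the family
`F`, of degrees `n`, `0`, `- n`, the second one being `e`, where `t` and `n` satisfy `P`. -/
def Through (T : CycleData.{u, v, w} V) (F : Set (Test T)) (P : Test T → ℤ → Prop) (X : V) :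
    Submodule ℚ (T.CH.R (X ⊗ X)) :=
  Submodule.span ℚ {f | ∃ (t : Test T) (n : ℤ) (a : T.CH.R (X ⊗ t.Y)) (b : T.CH.R (t.Y ⊗ X)),
    t ∈ F ∧ P t n ∧ a ∈ T.CH.gr (X ⊗ t.Y) (T.dim X + n) ∧
    b ∈ T.CH.gr (t.Y ⊗ X) (T.dim t.Y - n) ∧ f = T.CH.comp (T.CH.comp a t.e) b}

/-- Sums of compositions through test objects with `lo - 2n ≥ k`: they act as zero on `H^j(X)` for
`j < k`. -/
def AtLeast (T : CycleData.{u, v, w} V) (F : Set (Test T)) (X : V) (k : ℤ) :
    Submodule ℚ (T.CH.R (X ⊗ X)) := Through T F (fun t n => k ≤ t.lo - 2 * n) X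

/-- Sums of compositions through test objects with `hi - 2n ≤ k`: they act as zero on `H^j(X)` for
`j > k`. -/
def AtMost (T : CycleData.{u, v, w} V) (F : Set (Test T)) (X : V) (k : ℤ) :
    Submodule ℚ (T.CH.R (X ⊗ X)) := Through T F (fun t n => t.hi - 2 * n ≤ k) X

/-- Sums of sharp correspondences; a sharp correspondence of weight `k` is in `AtLeast k` and in
`AtMost k`. -/
def Sharp (T : CycleData.{u, v, w} V) (F : Set (Test T)) (X : V) :
    Submodule ℚ (T.CH.R (X ⊗ X)) := ⨆ k : ℤ, AtLeast T F X k ⊓ AtMost T F X k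

/-- `X` is pure with respect to the family `F`: the diagonal is a sum of sharp
correspondences. -/
def Pure (T : CycleData.{u, v, w} V) (F : Set (Test T)) (X : V) : Prop :=
  T.CH.diag X ∈ Sharp T F X

/-- The external product of two test objects of the family factors through the family. -/
def ProdClosed (T : CycleData.{u, v, w} V) (F : Set (Test T)) : Prop :=
  ∀ t ∈ F, ∀ t' ∈ F,
    ep T.CH t.e t'.e ∈ AtLeast T F (t.Y ⊗ t'.Y) (t.lo + t'.lo) ∧
    ep T.CH t.e t'.e ∈ AtMost T F (t.Y ⊗ t'.Y) (t.hi + t'.hi)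

/-! ## Group tests -/

/-- A finite group `G`, a character `χ : G ⟶ {1, -1}` and morphisms `a g : Y ⟶ Y`. -/
structure GroupTest (V : Type u) [Category.{v} V] where
  Y : V
  G : Type
  [grp : Group G]
  [fin : Fintype G]
  a : G → (Y ⟶ Y)
  χ : G →* ℤˣ
  δ : ℤ

attribute [instance] GroupTest.grp GroupTest.fin

/-- `G` has exponent two, acts on `Y` (from the right), `H^j(Y)^G = 0` for odd `j`, and there are
no classes `x ≠ 0` in `H^j(Y)` with `g^* x = χ(g) x`, for `j < δ` and for `j > 2 dim Y - δ`. -/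
structure GroupTest.IsGood (T : CycleData.{u, v, w} V) (t : GroupTest V) : Prop where
  sq : ∀ g : t.G, g * g = 1
  act : Action t.Y t.G t.a
  even : ∀ j : ℤ, Odd j → ∀ x ∈ T.H.gr t.Y j, (∀ g, T.H.pull (t.a g) x = x) → x = 0
  bound : ∀ j : ℤ, (j < t.δ ∨ 2 * T.dim t.Y - t.δ < j) → ∀ x ∈ T.H.gr t.Y j,
    (∀ g, T.H.pull (t.a g) x = (((t.χ g : ℤˣ) : ℤ) : ℚ) • x) → x = 0

/-- The projector `(1 / |G|) ∑ χ(g) g^*`. -/
noncomputable def GroupTest.proj (T : CycleData.{u, v, w} V) (t : GroupTest V) :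
    T.CH.R (t.Y ⊗ t.Y) :=
  ((Fintype.card t.G : ℚ))⁻¹ • ∑ g, (((t.χ g : ℤˣ) : ℤ) : ℚ) • T.CH.gt (t.a g)

/-- The test object of a group test. -/
noncomputable def GroupTest.test (T : CycleData.{u, v, w} V) (t : GroupTest V) : Test T where
  Y := t.Y
  e := t.proj T
  lo := t.δ
  hi := 2 * T.dim t.Y - t.δ

/-- The family of the group tests on varieties of the class `K`. -/
def groupTests (T : CycleData.{u, v, w} V) (K : V → Prop) : Set (Test T) :=
  {t | ∃ s : GroupTest V, s.IsGood T ∧ K s.Y ∧ t = s.test T}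

end

/-- The construction of Godeaux and Serre in the class `K`.  A finite group `G` of exponent two
acts on a variety `X` of the class `K`; let `B` be an intersection of diagonal quadrics
`∑_j t_j^i x_j^2 = 0`, `0 ≤ i < c`, in `P^(2c-1)`, `c` large, with a free action of `G` by sign
changes of the coordinates (the motive of `B` is of abelian type), `W = X × B`, `Y = W / G`,
`q : W ⟶ Y` the etale Galois cover, `p : W ⟶ X` the projection, `s : X ⟶ W` given by a point of
`B`.  Then `Y` is in `K`, and `H^j(Y)` is the sum of the `G`-invariants in `H^(j - 2i)(X)`,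
`i ≥ 0`; only the vanishing of `H^j(Y)` when all these vanish is recorded here. -/
def GodeauxSerreOn (T : CycleData.{u, v, w} V) (K : V → Prop) : Prop :=
  ∀ (X : V) (G : Type) [Group G] [Fintype G] (a : G → (X ⟶ X)), K X →
    (∀ g : G, g * g = 1) → Action X G a → ∀ j : ℤ,
    (∀ i : ℕ, ∀ x ∈ T.H.gr X (j - 2 * i), (∀ g, T.H.pull (a g) x = x) → x = 0) →
    ∃ C : T.GaloisCover X G a, T.H.gr C.Y j = ⊥ ∧ K C.Y

end Pool.Agent.Lib.MP_32dfd1_ag.Pur
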