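import Mathlib
import Pool.Agent.Lib.MP_32dfd1_ag.Cyc.Sign
import Pool.Agent.Lib.MP_32dfd1_ag.Cyc.Rel
import Pool.Agent.Lib.MP_32dfd1_ag.Pur.Defs
import Pool.Agent.Lib.MP_32dfd1_ag.Pur.Assoc

set_option autoImplicit false
set_option linter.unusedSectionVars false

/-!
# The sign changes on the powers of an abelian variety are group tests
-/

namespace Pool.Agent.Lib.MP_32dfd1_ag.Pur.Abel

open CategoryTheory MonoidalCategory CartesianMonoidalCategory
  Pool.Agent.Lib.MP_32dfd1_ag.Cyc Pool.Agent.Lib.MP_32dfd1_ag.Par Pool.Agent.Lib.MP_32dfd1_ag.Sur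

universe u v w

variable {V : Type u} [Category.{v} V] [CartesianMonoidalCategory V] [BraidedCategory V]
  {T : CycleData.{u, v, w} V} [T.Textbook]

variable (A : AbVar T)

/-- classes of given weights at most `2g` for the sign changes -/
def wts (N : ℕ) (j : ℤ) : Set (T.H.R (A.pow N).A) :=
  {x | ∃ a : Fin N → ℕ, (∑ i, (a i : ℤ)) = j ∧ (∀ i, a i ≤ 2 * A.g) ∧ ∀ ε : Fin N → ℤˣ,
      T.H.pull (A.sgn N ε) x = (((∏ i, ε i ^ a i : ℤˣ) : ℤ) : ℚ) • x}

theorem span_wts (N : ℕ) (j : ℤ) :
    T.H.gr (A.pow N).A j ≤ Submodule.span ℚ (wts A N j) := by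
  induction N generalizing j with
  | zero =>
    intro x hx
    by_cases hj : j = 0
    · refine Submodule.subset_span ⟨fun i => i.elim0, by simp [hj], fun i => i.elim0, fun ε => ?_⟩
      rw [show ε = 1 from Subsingleton.elim _ _, A.sgn_one, T.H.pull_id]
      simp
    · have h0 : T.H.gr (A.pow 0).A j = ⊥ := by
        have h1 : T.dim (A.pow 0).A = 0 := T.dim_unit
        rcases lt_or_gt_of_ne hj with h | h
        · exact T.H_bot _ j (Or.inl h)
        · exact T.H_bot _ j (Or.inr (by rw [h1]; omega))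
      rw [h0, Submodule.mem_bot] at hx
      rw [hx]
      exact Submodule.zero_mem _
  | succ N ih =>
    intro x hx
    have h1 := T.kunneth (A.pow N).A A.A j hx
    refine Submodule.span_le.2 ?_ h1
    rintro _ ⟨p, q, y, z, hpq, hy, hz, rfl⟩
    by_cases hq : q < 0
    · rw [T.H_bot A.A q (Or.inl hq), Submodule.mem_bot] at hz
      rw [hz, map_zero, mul_zero]
      exact Submodule.zero_mem _
    by_cases hq' : 2 * T.dim A.A < q
    · rw [T.H_bot A.A q (Or.inr hq'), Submodule.mem_bot] at hz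
      rw [hz, map_zero, mul_zero]
      exact Submodule.zero_mem _
    push Not at hq hq'
    rw [A.dim_eq] at hq'
    have h2 := ih p hy
    clear hx hy
    change T.H.pull (A.pfst N) y * T.H.pull (A.psnd N) z ∈ Submodule.span ℚ (wts A (N + 1) j)
    induction h2 using Submodule.span_induction with
    | zero => simp
    | add y y' _ _ hy hy' => rw [map_add, add_mul]; exact Submodule.add_mem _ hy hy'
    | smul c y _ hy => rw [map_smul, smul_mul_assoc]; exact Submodule.smul_mem _ _ hy
    | mem y hy =>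
      obtain ⟨a, ha, ha', hy⟩ := hy
      refine Submodule.subset_span ⟨Fin.snoc (α := fun _ => ℕ) a q.toNat, ?_, fun i => ?_,
        fun ε => ?_⟩
      · rw [Fin.sum_univ_castSucc]
        simp only [Fin.snoc_castSucc, Fin.snoc_last]
        rw [ha]
        omega
      · refine Fin.lastCases ?_ (fun i => ?_) i
        · simp only [Fin.snoc_last]
          omega
        · simp only [Fin.snoc_castSucc]
          exact ha' i
      · rw [map_mul (T.H.pull _), ← T.H.pull_comp, ← T.H.pull_comp, A.sgn_pfst, A.sgn_psnd,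
          T.H.pull_comp, T.H.pull_comp, hy, A.coh_int _ hq hz, map_smul, map_smul,
          smul_mul_smul_comm]
        congr 1
        rw [Fin.prod_univ_castSucc]
        simp only [Fin.snoc_castSucc, Fin.snoc_last]
        push_cast
        ring

/-- the sign change of one coordinate -/
def flip (N : ℕ) (i : Fin N) : Fin N → ℤˣ := fun l => if l = i then -1 else 1

theorem prod_flip {N : ℕ} (i : Fin N) (a : Fin N → ℕ) :
    ∏ l, flip N i l ^ a l = (-1) ^ a i := by
  rw [Finset.prod_eq_single i]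
  · simp [flip]
  · intro b _ hb
    simp [flip, hb]
  · simp

theorem prod_flip' {N : ℕ} (i : Fin N) : ∏ l, flip N i l = -1 := by
  have h := prod_flip i fun _ => 1
  simpa using h

/-- Isotypic classes: a class in `H^j(A^N)` with character `χ` is zero, if for all multidegrees
`a` with sum `j` there is a coordinate `i` with `χ(flip i) ≠ (-1)^(a i)`. -/
theorem isotypic (N : ℕ) (j : ℤ) (χ : (Fin N → ℤˣ) →* ℤˣ)
    (h : ∀ a : Fin N → ℕ, (∑ i, (a i : ℤ)) = j → (∀ i, a i ≤ 2 * A.g) →
      ∃ i, χ (flip N i) ≠ (-1) ^ a i) (x : T.H.R (A.pow N).A) (hx : x ∈ T.H.gr (A.pow N).A j)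
    (hinv : ∀ ε, T.H.pull (A.sgn N ε) x = (((χ ε : ℤˣ) : ℤ) : ℚ) • x) : x = 0 := by
  classical
  let E : T.H.R (A.pow N).A →ₗ[ℚ] T.H.R (A.pow N).A :=
    ∑ ε : Fin N → ℤˣ, (((χ ε : ℤˣ) : ℤ) : ℚ) • (T.H.pull (A.sgn N ε)).toLinearMap
  have hE : ∀ y, E y = ∑ ε : Fin N → ℤˣ, (((χ ε : ℤˣ) : ℤ) : ℚ) • T.H.pull (A.sgn N ε) y := by
    intro y
    simp [E, LinearMap.sum_apply]
  have hunit : ∀ s : ℤˣ, (((s : ℤˣ) : ℤ) : ℚ) * (((s : ℤˣ) : ℤ) : ℚ) = 1 := by
    intro s
    rw [← Int.cast_mul, ← Units.val_mul, Int.units_mul_self]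
    simp
  have hshift : ∀ (d : Fin N → ℤˣ) (y : T.H.R (A.pow N).A),
      E (T.H.pull (A.sgn N d) y) = (((χ d : ℤˣ) : ℤ) : ℚ) • E y := by
    intro d y
    rw [hE, hE, Finset.smul_sum]
    have h1 : ∀ ε : Fin N → ℤˣ, (((χ ε : ℤˣ) : ℤ) : ℚ) • T.H.pull (A.sgn N ε)
        (T.H.pull (A.sgn N d) y) = (((χ d : ℤˣ) : ℤ) : ℚ) •
          (((χ (d * ε) : ℤˣ) : ℤ) : ℚ) • T.H.pull (A.sgn N (d * ε)) y := by
      intro ε
      rw [A.sgn_mul, T.H.pull_comp, map_mul, smul_smul, Units.val_mul, Int.cast_mul,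
        ← mul_assoc, hunit, one_mul]
    rw [Finset.sum_congr rfl fun ε _ => h1 ε]
    exact Fintype.sum_equiv (Equiv.mulLeft d) _ _ fun g => rfl
  have hE0 : ∀ x ∈ Submodule.span ℚ (wts A N j), E x = 0 := by
    intro x hx
    induction hx using Submodule.span_induction with
    | zero => simp
    | add y z _ _ hy hz => rw [map_add, hy, hz, add_zero]
    | smul c y _ hy => rw [map_smul, hy, smul_zero]
    | mem y hy =>
      obtain ⟨a, ha, ha', hy⟩ := hy
      obtain ⟨i, hi⟩ := h a ha ha'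
      have h1 := hshift (flip N i) y
      rw [hy, prod_flip, map_smul] at h1
      have h2 : ((((((-1) ^ a i : ℤˣ) : ℤ) : ℚ)) - (((χ (flip N i) : ℤˣ) : ℤ) : ℚ)) • E y = 0 := by
        rw [sub_smul, h1, sub_self]
      refine (smul_eq_zero.1 h2).resolve_left fun h3 => hi (Units.ext ?_)
      exact_mod_cast (sub_eq_zero.1 h3).symm
  have h1 : E x = (Fintype.card (Fin N → ℤˣ)) • x := by
    rw [hE, Finset.sum_congr rfl fun g _ => by rw [hinv g, smul_smul, hunit, one_smul]]
    simp
  rw [hE0 x (span_wts A N j hx)] at h1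
  have h2 : ((Fintype.card (Fin N → ℤˣ) : ℕ) : ℚ) • x = 0 := by
    rw [Nat.cast_smul_eq_nsmul, ← h1]
  have h3 : ((Fintype.card (Fin N → ℤˣ) : ℕ) : ℚ) ≠ 0 := by
    exact_mod_cast Fintype.card_ne_zero
  exact (smul_eq_zero.1 h2).resolve_left h3

/-- the product of the signs -/
def prodChar (N : ℕ) : (Fin N → ℤˣ) →* ℤˣ where
  toFun ε := ∏ i, ε i
  map_one' := by simp
  map_mul' a b := by
    rw [← Finset.prod_mul_distrib]
    rfl

/-- The sign changes on `A^N` with the product character. -/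
def signTest (N : ℕ) : GroupTest V where
  Y := (A.pow N).A
  G := Fin N → ℤˣ
  a := A.sgn N
  χ := prodChar N
  δ := N

theorem dim_pow (N : ℕ) : T.dim (A.pow N).A = N * A.g := by
  rw [(A.pow N).dim_eq, A.pow_g]
  push_cast
  rfl

theorem pi_sq {N : ℕ} (g : Fin N → ℤˣ) : g * g = 1 := by
  funext i
  exact Int.units_mul_self _

/-- There are no invariants of odd degree. -/
theorem inv_even (N : ℕ) (j : ℤ) (hj : Odd j) (x : T.H.R (A.pow N).A)
    (hx : x ∈ T.H.gr (A.pow N).A j) (hinv : ∀ g, T.H.pull (A.sgn N g) x = x) : x = 0 := by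
  refine isotypic A N j 1 (fun a ha _ => ?_) x hx fun g => by rw [hinv]; simp
  by_contra hcon
  push Not at hcon
  have h1 : Even (∑ i, (a i : ℤ)) := by
    refine Finset.even_sum _ fun i _ => ?_
    have h2 := hcon i
    rw [MonoidHom.one_apply] at h2
    rcases Nat.even_or_odd (a i) with h3 | h3
    · exact_mod_cast h3
    · rw [h3.neg_one_pow] at h2
      exact absurd h2 (by decide)
  rw [ha] at h1
  exact (Int.not_even_iff_odd.2 hj) h1

theorem signTest_isGood (N : ℕ) : (signTest A N).IsGood T where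
  sq := pi_sq
  act := ⟨A.sgn_one N, A.sgn_mul N⟩
  even := inv_even A N
  bound := by
    intro j hj x hx hinv
    refine isotypic A N j (prodChar N) (fun a ha ha' => ?_) x hx hinv
    by_contra hcon
    push Not at hcon
    have hodd : ∀ i, Odd (a i) := by
      intro i
      have h2 := hcon i
      have h4 : prodChar N (flip N i) = -1 := prod_flip' i
      rw [h4] at h2
      rcases Nat.even_or_odd (a i) with h3 | h3
      · rw [h3.neg_one_pow] at h2
        exact absurd h2 (by decide)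
      · exact h3
    have h1 : (N : ℤ) ≤ ∑ i, (a i : ℤ) := by
      have : ∀ i ∈ (Finset.univ : Finset (Fin N)), (1 : ℤ) ≤ a i := by
        intro i _
        have := (hodd i).pos
        omega
      calc (N : ℤ) = ∑ i : Fin N, (1 : ℤ) := by simp
        _ ≤ _ := Finset.sum_le_sum this
    have h2 : ∑ i, (a i : ℤ) ≤ N * (2 * A.g - 1) := by
      have : ∀ i ∈ (Finset.univ : Finset (Fin N)), (a i : ℤ) ≤ 2 * A.g - 1 := by
        intro i _
        have h3 := ha' i
        obtain ⟨c, hc⟩ := hodd i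
        omega
      calc ∑ i, (a i : ℤ) ≤ ∑ i : Fin N, (2 * (A.g : ℤ) - 1) := Finset.sum_le_sum this
        _ = _ := by rw [Finset.sum_const, Finset.card_univ, Fintype.card_fin, nsmul_eq_mul]
    have h3 : T.dim (signTest A N).Y = N * A.g := dim_pow A N
    have h4 : (signTest A N).δ = N := rfl
    rw [h3, h4] at hj
    rw [ha] at h1 h2
    rcases hj with hj | hj
    · omega
    · have : (N : ℤ) * (2 * A.g - 1) = 2 * (N * A.g) - N := by ring
      omega

/-- The sign changes on `A^N` with the trivial character. -/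
def evenTest (N : ℕ) : GroupTest V where
  Y := (A.pow N).A
  G := Fin N → ℤˣ
  a := A.sgn N
  χ := 1
  δ := 0

theorem evenTest_isGood (N : ℕ) : (evenTest A N).IsGood T where
  sq := pi_sq
  act := ⟨A.sgn_one N, A.sgn_mul N⟩
  even := inv_even A N
  bound := by
    intro j hj x hx _
    have h := T.H_bot (evenTest A N).Y j (by
      rcases hj with hj | hj
      · exact Or.inl hj
      · exact Or.inr (by
          have h4 : (evenTest A N).δ = 0 := rfl
          rw [h4] at hj
          omega))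
    rwa [h, Submodule.mem_bot] at hx

end Pool.Agent.Lib.MP_32dfd1_ag.Pur.Abel
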