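import Mathlib
import Pool.Agent.Lib.MP_32dfd1_ag.Pur.Defs
import Pool.Agent.Lib.MP_32dfd1_ag.Pur.Assoc

set_option autoImplicit false
set_option linter.unusedSectionVars false

/-!
# The ideals of correspondences which factor through test objects
-/

namespace Pool.Agent.Lib.MP_32dfd1_ag.Pur

open CategoryTheory MonoidalCategory CartesianMonoidalCategory Pool.Agent.Lib.MP_32dfd1_ag.Cyc
  Pool.Agent.Lib.MP_32dfd1_ag.Par Pool.Agent.Lib.MP_32dfd1_ag.Sur

universe u v w

variable {V : Type u} [Category.{v} V] [CartesianMonoidalCategory V]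
  {T : CycleData.{u, v, w} V} [T.Textbook] {F : Set (Test T)}

theorem through_gr (hF : ∀ t ∈ F, t.Coh) {P : Test T → ℤ → Prop} {X : V} {f : T.CH.R (X ⊗ X)}
    (hf : f ∈ Through T F P X) : f ∈ T.CH.gr (X ⊗ X) (T.dim X) := by
  refine (Submodule.span_le.2 ?_) hf
  rintro _ ⟨t, n, a, b, ht, _, ha, hb, rfl⟩
  exact T.gr_congr (T.comp_mem (T.comp_mem ha (hF t ht).mem) hb) (by ring)

/-- the ideal property -/
theorem through_conj {P P' : Test T → ℤ → Prop} {X Y : V} {n : ℤ} {p : T.CH.R (X ⊗ Y)}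
    {q : T.CH.R (Y ⊗ X)} (hp : p ∈ T.CH.gr (X ⊗ Y) (T.dim X + n))
    (hq : q ∈ T.CH.gr (Y ⊗ X) (T.dim Y - n)) (hPP : ∀ t k, P t k → P' t (k + n))
    {g : T.CH.R (Y ⊗ Y)} (hg : g ∈ Through T F P Y) :
    T.CH.comp (T.CH.comp p g) q ∈ Through T F P' X := by
  have h : Through T F P Y ≤ (Through T F P' X).comap ((compR T.CH q).comp (compL T.CH p)) := by
    refine Submodule.span_le.2 ?_
    rintro _ ⟨t, k, a, b, ht, hP, ha, hb, rfl⟩
    refine Submodule.subset_span ⟨t, k + n, T.CH.comp p a, T.CH.comp b q, ht, hPP t k hP, ?_, ?_, ?_⟩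
    · exact T.gr_congr (T.comp_mem hp ha) (by ring)
    · exact T.gr_congr (T.comp_mem hb hq) (by ring)
    · simp only [LinearMap.comp_apply, compR_apply, compL_apply]
      rw [← comp_assoc, comp_assoc T.CH _ b q, ← comp_assoc T.CH p a t.e]
  exact h hg

theorem through_mono {P P' : Test T → ℤ → Prop} (h : ∀ t k, P t k → P' t k) (X : V) :
    Through T F P X ≤ Through T F P' X := by
  refine Submodule.span_mono ?_
  rintro _ ⟨t, k, a, b, ht, hP, ha, hb, rfl⟩
  exact ⟨t, k, a, b, ht, h t k hP, ha, hb, rfl⟩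

theorem through_act {P : Test T → ℤ → Prop} {X : V} {m : ℤ} {z : T.CH.R X}
    (hV : ∀ t ∈ F, t.Van)
    (hz : T.HomTrivial X m z) (hP : ∀ t k, P t k → 2 * (m + k) - 1 < t.lo ∨ t.hi < 2 * (m + k) - 1)
    {f : T.CH.R (X ⊗ X)} (hf : f ∈ Through T F P X) : T.CH.act f z = 0 := by
  unfold Through at hf
  induction hf using Submodule.span_induction with
  | zero => exact T.CH.zero_act z
  | add x y _ _ hx hy => rw [add_act, hx, hy, add_zero]
  | smul q x _ hx => rw [T.CH.smul_act, hx, smul_zero]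
  | mem x hx =>
    obtain ⟨t, k, a, b, ht, hPt, ha, hb, rfl⟩ := hx
    rw [RingData.act_comp, RingData.act_comp,
      hV t ht (m + k) _ (T.homTrivial_congr (T.homTrivial_act ha hz) (by ring)) (hP t k hPt),
      RingData.act_zero]

theorem through_coh {P : Test T → ℤ → Prop} {X : V} {j : ℤ} {x : T.H.R X}
    (hF : ∀ t ∈ F, t.Coh) (hx : x ∈ T.H.gr X j)
    (hP : ∀ t k, P t k → j + 2 * k < t.lo ∨ t.hi < j + 2 * k)
    {f : T.CH.R (X ⊗ X)} (hf : f ∈ Through T F P X) : T.H.act (T.cl _ f) x = 0 := by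
  unfold Through at hf
  induction hf using Submodule.span_induction with
  | zero => rw [map_zero]; exact T.H.zero_act x
  | add x y _ _ hx hy => rw [map_add, add_act, hx, hy, add_zero]
  | smul q x _ hx => rw [map_smul, T.H.smul_act, hx, smul_zero]
  | mem y hy =>
    obtain ⟨t, k, a, b, ht, hPt, ha, hb, rfl⟩ := hy
    rw [T.cl_comp, T.cl_comp, RingData.act_comp, RingData.act_comp,
      (hF t ht).zero (j + 2 * k) (hP t k hPt) _
        (T.grH_congr (T.actH_mem (T.cl_mem _ _ _ ha) hx) (by ring)), RingData.act_zero]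

/-! ## `AtLeast` and `AtMost` -/

theorem atLeast_anti {X : V} {k k' : ℤ} (h : k ≤ k') : AtLeast T F X k' ≤ AtLeast T F X k :=
  through_mono (fun _ _ h' => h.trans h') X

theorem atMost_mono {X : V} {k k' : ℤ} (h : k ≤ k') : AtMost T F X k ≤ AtMost T F X k' :=
  through_mono (fun _ _ h' => le_trans h' h) X

theorem atLeast_conj {X Y : V} {n k : ℤ} {p : T.CH.R (X ⊗ Y)}
    {q : T.CH.R (Y ⊗ X)} (hp : p ∈ T.CH.gr (X ⊗ Y) (T.dim X + n))
    (hq : q ∈ T.CH.gr (Y ⊗ X) (T.dim Y - n)) {g : T.CH.R (Y ⊗ Y)} (hg : g ∈ AtLeast T F Y k) :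
    T.CH.comp (T.CH.comp p g) q ∈ AtLeast T F X (k - 2 * n) :=
  through_conj hp hq (fun _ _ h => by linarith) hg

theorem atMost_conj {X Y : V} {n k : ℤ} {p : T.CH.R (X ⊗ Y)}
    {q : T.CH.R (Y ⊗ X)} (hp : p ∈ T.CH.gr (X ⊗ Y) (T.dim X + n))
    (hq : q ∈ T.CH.gr (Y ⊗ X) (T.dim Y - n)) {g : T.CH.R (Y ⊗ Y)} (hg : g ∈ AtMost T F Y k) :
    T.CH.comp (T.CH.comp p g) q ∈ AtMost T F X (k - 2 * n) :=
  through_conj hp hq (fun _ _ h => by linarith) hg

theorem diag_mem' (X : V) : T.CH.diag X ∈ T.CH.gr (X ⊗ X) (T.dim X + 0) :=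
  T.gr_congr (T.diag_mem X) (by ring)

theorem diag_mem'' (X : V) : T.CH.diag X ∈ T.CH.gr (X ⊗ X) (T.dim X - 0) :=
  T.gr_congr (T.diag_mem X) (by ring)

variable (hC : ∀ (X : V) (x y : T.CH.R X), x * y = y * x)

include hC in
theorem atLeast_left {X : V} {k : ℤ} {p g : T.CH.R (X ⊗ X)} (hp : p ∈ T.CH.gr (X ⊗ X) (T.dim X))
    (hg : g ∈ AtLeast T F X k) : T.CH.comp p g ∈ AtLeast T F X k := by
  have h := atLeast_conj (n := 0) (T.gr_congr hp (by ring)) (diag_mem'' X) hg
  rw [comp_diag_right T.CH hC] at h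
  simpa using h

theorem atLeast_right {X : V} {k : ℤ} {q g : T.CH.R (X ⊗ X)} (hq : q ∈ T.CH.gr (X ⊗ X) (T.dim X))
    (hg : g ∈ AtLeast T F X k) : T.CH.comp g q ∈ AtLeast T F X k := by
  have h := atLeast_conj (n := 0) (diag_mem' X) (T.gr_congr hq (by ring)) hg
  rw [RingData.comp_diag] at h
  simpa using h

include hC in
theorem atMost_left {X : V} {k : ℤ} {p g : T.CH.R (X ⊗ X)} (hp : p ∈ T.CH.gr (X ⊗ X) (T.dim X))
    (hg : g ∈ AtMost T F X k) : T.CH.comp p g ∈ AtMost T F X k := by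
  have h := atMost_conj (n := 0) (T.gr_congr hp (by ring)) (diag_mem'' X) hg
  rw [comp_diag_right T.CH hC] at h
  simpa using h

theorem atMost_right {X : V} {k : ℤ} {q g : T.CH.R (X ⊗ X)} (hq : q ∈ T.CH.gr (X ⊗ X) (T.dim X))
    (hg : g ∈ AtMost T F X k) : T.CH.comp g q ∈ AtMost T F X k := by
  have h := atMost_conj (n := 0) (diag_mem' X) (T.gr_congr hq (by ring)) hg
  rw [RingData.comp_diag] at h
  simpa using h

theorem sharp_conj {X Y : V} {n : ℤ} {p : T.CH.R (X ⊗ Y)}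
    {q : T.CH.R (Y ⊗ X)} (hp : p ∈ T.CH.gr (X ⊗ Y) (T.dim X + n))
    (hq : q ∈ T.CH.gr (Y ⊗ X) (T.dim Y - n)) {g : T.CH.R (Y ⊗ Y)} (hg : g ∈ Sharp T F Y) :
    T.CH.comp (T.CH.comp p g) q ∈ Sharp T F X := by
  have h : Sharp T F Y ≤ (Sharp T F X).comap ((compR T.CH q).comp (compL T.CH p)) := by
    refine iSup_le fun k => ?_
    intro g hg
    exact (le_iSup (fun k : ℤ => AtLeast T F X k ⊓ AtMost T F X k) (k - 2 * n))
      ⟨atLeast_conj hp hq hg.1, atMost_conj hp hq hg.2⟩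
  exact h hg

/-- a correspondence in `AtLeast k` and in `AtMost k` is sharp -/
theorem sharp_of {X : V} {k : ℤ} {g : T.CH.R (X ⊗ X)} (h : g ∈ AtLeast T F X k)
    (h' : g ∈ AtMost T F X k) : g ∈ Sharp T F X :=
  (le_iSup (fun k : ℤ => AtLeast T F X k ⊓ AtMost T F X k) k) ⟨h, h'⟩

include hC in
/-- summands of pure varieties are pure -/
theorem pure_summand {X : V} {I : Type*} [Fintype I] {P : I → V} {n : I → ℤ}
    {a : ∀ i, T.CH.R (X ⊗ P i)} {b : ∀ i, T.CH.R (P i ⊗ X)}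
    (ha : ∀ i, a i ∈ T.CH.gr (X ⊗ P i) (T.dim X + n i))
    (hb : ∀ i, b i ∈ T.CH.gr (P i ⊗ X) (T.dim (P i) - n i))
    (hab : ∑ i, T.CH.comp (a i) (b i) = T.CH.diag X) (hP : ∀ i, Pure T F (P i)) :
    Pure T F X := by
  unfold Pure
  rw [← hab]
  refine Submodule.sum_mem _ fun i _ => ?_
  have h := sharp_conj (ha i) (hb i) (hP i)
  rwa [comp_diag_right T.CH hC] at h

/-! ## External products -/

include hC in
theorem ep_comp_comp {X X' Y Y' : V} (a : T.CH.R (X ⊗ Y)) (e : T.CH.R (Y ⊗ Y))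
    (b : T.CH.R (Y ⊗ X)) (a' : T.CH.R (X' ⊗ Y')) (e' : T.CH.R (Y' ⊗ Y'))
    (b' : T.CH.R (Y' ⊗ X')) :
    ep T.CH (T.CH.comp (T.CH.comp a e) b) (T.CH.comp (T.CH.comp a' e') b') =
      T.CH.comp (T.CH.comp (ep T.CH a a') (ep T.CH e e')) (ep T.CH b b') := by
  rw [comp_ep T.CH hC, comp_ep T.CH hC]

include hC in
theorem ep_atLeast (hprod : ProdClosed T F) {X X' : V} {k k' : ℤ} {f : T.CH.R (X ⊗ X)}
    {f' : T.CH.R (X' ⊗ X')} (hf : f ∈ AtLeast T F X k) (hf' : f' ∈ AtLeast T F X' k') :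
    ep T.CH f f' ∈ AtLeast T F (X ⊗ X') (k + k') := by
  unfold AtLeast Through at hf
  induction hf using Submodule.span_induction with
  | zero => rw [zero_ep]; exact Submodule.zero_mem _
  | add x y _ _ hx hy => rw [add_ep]; exact Submodule.add_mem _ hx hy
  | smul q x _ hx => rw [smul_ep]; exact Submodule.smul_mem _ _ hx
  | mem x hx =>
    obtain ⟨t, n, a, b, ht, hP, ha, hb, rfl⟩ := hx
    unfold AtLeast Through at hf'
    induction hf' using Submodule.span_induction with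
    | zero => rw [ep_zero]; exact Submodule.zero_mem _
    | add x y _ _ hx hy => rw [ep_add]; exact Submodule.add_mem _ hx hy
    | smul q x _ hx => rw [ep_smul]; exact Submodule.smul_mem _ _ hx
    | mem x hx =>
      obtain ⟨t', n', a', b', ht', hP', ha', hb', rfl⟩ := hx
      rw [ep_comp_comp hC]
      refine atLeast_anti ?_ (atLeast_conj (n := n + n') ?_ ?_ (hprod t ht t' ht').1)
      · linarith
      · exact T.gr_congr (ep_mem T.CH ha ha') (by rw [T.dim_tensor]; ring)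
      · exact T.gr_congr (ep_mem T.CH hb hb') (by rw [T.dim_tensor]; ring)

include hC in
theorem ep_atMost (hprod : ProdClosed T F) {X X' : V} {k k' : ℤ} {f : T.CH.R (X ⊗ X)}
    {f' : T.CH.R (X' ⊗ X')} (hf : f ∈ AtMost T F X k) (hf' : f' ∈ AtMost T F X' k') :
    ep T.CH f f' ∈ AtMost T F (X ⊗ X') (k + k') := by
  unfold AtMost Through at hf
  induction hf using Submodule.span_induction with
  | zero => rw [zero_ep]; exact Submodule.zero_mem _
  | add x y _ _ hx hy => rw [add_ep]; exact Submodule.add_mem _ hx hy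
  | smul q x _ hx => rw [smul_ep]; exact Submodule.smul_mem _ _ hx
  | mem x hx =>
    obtain ⟨t, n, a, b, ht, hP, ha, hb, rfl⟩ := hx
    unfold AtMost Through at hf'
    induction hf' using Submodule.span_induction with
    | zero => rw [ep_zero]; exact Submodule.zero_mem _
    | add x y _ _ hx hy => rw [ep_add]; exact Submodule.add_mem _ hx hy
    | smul q x _ hx => rw [ep_smul]; exact Submodule.smul_mem _ _ hx
    | mem x hx =>
      obtain ⟨t', n', a', b', ht', hP', ha', hb', rfl⟩ := hx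
      rw [ep_comp_comp hC]
      refine atMost_mono ?_ (atMost_conj (n := n + n') ?_ ?_ (hprod t ht t' ht').2)
      · linarith
      · exact T.gr_congr (ep_mem T.CH ha ha') (by rw [T.dim_tensor]; ring)
      · exact T.gr_congr (ep_mem T.CH hb hb') (by rw [T.dim_tensor]; ring)

include hC in
theorem ep_sharp (hprod : ProdClosed T F) {X X' : V} {f : T.CH.R (X ⊗ X)}
    {f' : T.CH.R (X' ⊗ X')} (hf : f ∈ Sharp T F X) (hf' : f' ∈ Sharp T F X') :
    ep T.CH f f' ∈ Sharp T F (X ⊗ X') := by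
  unfold Sharp at hf
  induction hf using Submodule.iSup_induction' with
  | zero => rw [zero_ep]; exact Submodule.zero_mem _
  | add x y _ _ hx hy => rw [add_ep]; exact Submodule.add_mem _ hx hy
  | mem k x hx =>
    unfold Sharp at hf'
    induction hf' using Submodule.iSup_induction' with
    | zero => rw [ep_zero]; exact Submodule.zero_mem _
    | add x y _ _ hx hy => rw [ep_add]; exact Submodule.add_mem _ hx hy
    | mem k' x' hx' =>
      exact sharp_of (ep_atLeast hC hprod hx.1 hx'.1) (ep_atMost hC hprod hx.2 hx'.2)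

include hC in
/-- products of pure varieties are pure -/
theorem pure_tensor (hprod : ProdClosed T F) {X X' : V} (hX : Pure T F X) (hX' : Pure T F X') :
    Pure T F (X ⊗ X') := by
  unfold Pure
  rw [← diag_ep]
  exact ep_sharp hC hprod hX hX'

end Pool.Agent.Lib.MP_32dfd1_ag.Pur
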