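import Mathlib
import Pool.Agent.Lib.MP_32dfd1_ag.Pur.AbelAlg
import Pool.Agent.Lib.MP_32dfd1_ag.Pur.AbelTest
import Pool.Agent.Lib.MP_32dfd1_ag.Pur.Ideal

set_option autoImplicit false
set_option linter.unusedSectionVars false

/-!
# Abelian varieties are pure with respect to group tests
-/

namespace Pool.Agent.Lib.MP_32dfd1_ag.Pur.Abel

open CategoryTheory MonoidalCategory CartesianMonoidalCategory
  Pool.Agent.Lib.MP_32dfd1_ag.Cyc Pool.Agent.Lib.MP_32dfd1_ag.Par Pool.Agent.Lib.MP_32dfd1_ag.Sur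
open Polynomial (aeval C)
open scoped MonObj

universe u v w

variable {V : Type u} [Category.{v} V] [CartesianMonoidalCategory V]
  {T : CycleData.{u, v, w} V} [T.Textbook]

/-! ## Transposition for group tests -/

theorem gt_invol {R : RingData.{u, v, w} V} [R.Functorial] [R.Direct] [R.Formulas] {Y : V}
    {f : Y ⟶ Y} (h : f ≫ f = 𝟙 Y) : R.gt f = gr R f := gt_iso R (⟨f, f, h, h⟩ : Y ≅ Y)

/-- transposition as a linear map -/
def trL (R : RingData.{u, v, w} V) (X Y : V) : R.R (X ⊗ Y) →ₗ[ℚ] R.R (Y ⊗ X) :=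
  (R.pull (sw Y X).hom).toLinearMap

theorem trL_apply (R : RingData.{u, v, w} V) {X Y : V} (c : R.R (X ⊗ Y)) :
    trL R X Y c = tr R c := rfl

theorem tr_proj {s : GroupTest V} (h : s.IsGood T) : tr T.CH (s.proj T) = s.proj T := by
  unfold GroupTest.proj
  rw [← trL_apply, map_smul, map_sum]
  congr 1
  refine Finset.sum_congr rfl fun g _ => ?_
  rw [map_smul, trL_apply, tr_gt]
  congr 1
  refine (gt_invol ?_).symm
  rw [← h.act.mul, h.sq, h.act.one]

theorem tr_atLeast (hC : ∀ (X : V) (x y : T.CH.R X), x * y = y * x) {K : V → Prop} {X : V} {k : ℤ}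
    {f : T.CH.R (X ⊗ X)} (hf : f ∈ AtLeast T (groupTests T K) X k) :
    tr T.CH f ∈ AtMost T (groupTests T K) X (2 * T.dim X - k) := by
  unfold AtLeast Through at hf
  induction hf using Submodule.span_induction with
  | zero => rw [← trL_apply, map_zero]; exact Submodule.zero_mem _
  | add x y _ _ hx hy => rw [← trL_apply, map_add]; exact Submodule.add_mem _ hx hy
  | smul q x _ hx => rw [← trL_apply, map_smul]; exact Submodule.smul_mem _ _ hx
  | mem x hx =>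
    obtain ⟨t, n, a, b, ht, hP, ha, hb, rfl⟩ := hx
    have ht2 := ht
    obtain ⟨s, hs, hK, rfl⟩ := ht
    refine Submodule.subset_span ⟨s.test T, T.dim s.Y - T.dim X - n, tr T.CH b, tr T.CH a, ht2,
      ?_, ?_, ?_, ?_⟩
    · change 2 * T.dim s.Y - s.δ - 2 * (T.dim s.Y - T.dim X - n) ≤ 2 * T.dim X - k
      change k ≤ s.δ - 2 * n at hP
      linarith
    · exact T.gr_congr (tr_mem T.CH hb) (by change T.dim s.Y - n = _; ring)
    · exact T.gr_congr (tr_mem T.CH ha) (by change _ = T.dim s.Y - _; ring)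
    · rw [tr_comp T.CH hC, tr_comp T.CH hC]
      have : tr T.CH (s.test T).e = (s.test T).e := tr_proj hs
      rw [this, comp_assoc]

/-! ## Multiplication by integers -/

variable [BraidedCategory V] (A : AbVar T)

/-- inverse image by the multiplication by `n` -/
def gm (n : ℤ) : T.CH.R (A.A ⊗ A.A) := T.CH.gt ((𝟙 A.A : A.A ⟶ A.A) ^ n)

/-- direct image by the multiplication by `n` -/
def gp (n : ℤ) : T.CH.R (A.A ⊗ A.A) := gr T.CH ((𝟙 A.A : A.A ⟶ A.A) ^ n)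

theorem zpow_zpow (m n : ℤ) : ((𝟙 A.A : A.A ⟶ A.A) ^ m) ≫ ((𝟙 A.A : A.A ⟶ A.A) ^ n) =
    (𝟙 A.A : A.A ⟶ A.A) ^ (m * n) := by
  rw [GrpObj.comp_zpow, Category.comp_id, zpow_mul]

theorem gm_gm (m n : ℤ) : T.CH.comp (gm A m) (gm A n) = gm A (m * n) := by
  unfold gm
  rw [gt_comp_gt, zpow_zpow, mul_comm]

theorem gm_one : gm A 1 = T.CH.diag A.A := by
  unfold gm
  rw [zpow_one]
  exact gt_id T.CH A.A

theorem gm_mem (n : ℤ) : gm A n ∈ T.CH.gr (A.A ⊗ A.A) (T.dim A.A) := T.gt_mem _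

theorem gp_mem (n : ℤ) : gp A n ∈ T.CH.gr (A.A ⊗ A.A) (T.dim A.A) := by
  unfold gp
  rw [← tr_gt]
  exact tr_mem T.CH (T.gt_mem _)

theorem tr_gm (n : ℤ) : tr T.CH (gm A n) = gp A n := tr_gt T.CH _

theorem gp_neg : gp A (-1) = gm A (-1) := by
  unfold gp gm
  refine (gt_invol ?_).symm
  rw [zpow_zpow]
  simp

theorem gp_one : gp A 1 = gm A 1 := by
  unfold gp gm
  rw [zpow_one]
  rfl

/-- `[n]_* [n]^* = n ^ (2 g)` -/
theorem gm_gp {n : ℤ} (hn : n ≠ 0) :
    T.CH.comp (gm A n) (gp A n) = ((n : ℚ) ^ (2 * A.g)) • T.CH.diag A.A := by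
  have h : ∀ f : A.A ⟶ A.A, T.CH.comp (T.CH.gt f) (gr T.CH f) =
      T.CH.push (lift (𝟙 A.A) (𝟙 A.A)) (T.CH.push f 1) := by
    intro f
    unfold RingData.gt
    rw [span_comp, map_one (T.CH.pull _), one_mul, id_whiskerRight, T.CH.pull_id]
    unfold gr
    rw [← T.CH.push_comp, ← T.CH.push_comp]
    congr 2
    ext <;> simp
  unfold gm gp
  rw [h, A.degree n hn, map_smul]
  rfl

/-! ## The relation -/

theorem prod_zpow (N : ℕ) (v : Fin N → ℤ) (ε : Fin N → ℤˣ) :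
    ∏ i, ((𝟙 A.A : A.A ⟶ A.A) ^ (v i)) ^ ((ε i : ℤˣ) : ℤ) =
      (𝟙 A.A : A.A ⟶ A.A) ^ (∑ i, ((ε i : ℤˣ) : ℤ) • v i) := by
  have := map_sum (zmultiplesHom _ (Additive.ofMul (𝟙 A.A : A.A ⟶ A.A)))
    (fun i => ((ε i : ℤˣ) : ℤ) • v i) Finset.univ
  simp only [zmultiplesHom_apply] at this
  have h3 := congrArg Additive.toMul this
  rw [toMul_zsmul, toMul_ofMul, toMul_sum] at h3
  rw [h3]
  refine Finset.prod_congr rfl fun i _ => ?_
  rw [toMul_zsmul, toMul_ofMul, smul_eq_mul, mul_comm, zpow_mul]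

/-- The general sign test. -/
def genTest (N : ℕ) (χ : (Fin N → ℤˣ) →* ℤˣ) (δ : ℤ) : GroupTest V where
  Y := (A.pow N).A
  G := Fin N → ℤˣ
  a := A.sgn N
  χ := χ
  δ := δ

theorem genTest_comp (N : ℕ) (χ : (Fin N → ℤˣ) →* ℤˣ) (δ : ℤ) (v : Fin N → ℤ) :
    T.CH.comp (T.CH.comp (T.CH.gt (∏ i, A.pr N i)) ((genTest A N χ δ).proj T))
      (T.CH.gt (A.tup N fun i => (𝟙 A.A : A.A ⟶ A.A) ^ (v i))) =
    ((Fintype.card (Fin N → ℤˣ) : ℚ))⁻¹ • ∑ ε : Fin N → ℤˣ, (((χ ε : ℤˣ) : ℤ) : ℚ) •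
      gm A (∑ i, ((ε i : ℤˣ) : ℤ) • v i) := by
  unfold GroupTest.proj
  change T.CH.comp (X := A.A) (Y := (A.pow N).A) (Z := A.A)
    (T.CH.comp (X := A.A) (Y := (A.pow N).A) (Z := (A.pow N).A) (T.CH.gt (∏ i, A.pr N i))
    (((Fintype.card (Fin N → ℤˣ) : ℚ))⁻¹ • ∑ ε : Fin N → ℤˣ, (((χ ε : ℤˣ) : ℤ) : ℚ) •
      T.CH.gt (A.sgn N ε))) (T.CH.gt (A.tup N fun i => (𝟙 A.A : A.A ⟶ A.A) ^ (v i))) = _
  rw [comp_smul, smul_comp, comp_sum, sum_comp]
  congr 1
  refine Finset.sum_congr rfl fun ε _ => ?_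
  rw [comp_smul, smul_comp, gt_comp_gt, gt_comp_gt, A.tup_sgn, prod_zpow]
  rfl

theorem genTest_mem {K : V → Prop} (N : ℕ) (hK : K (A.pow N).A) (χ : (Fin N → ℤˣ) →* ℤˣ) (δ : ℤ)
    (h : (genTest A N χ δ).IsGood T) (v : Fin N → ℤ) :
    ∑ ε : Fin N → ℤˣ, (((χ ε : ℤˣ) : ℤ) : ℚ) •
      gm A (∑ i, ((ε i : ℤˣ) : ℤ) • v i) ∈ AtLeast T (groupTests T K) A.A δ := by
  have h0 : ((Fintype.card (Fin N → ℤˣ) : ℕ) : ℚ) ≠ 0 := by exact_mod_cast Fintype.card_ne_zero
  have h1 : T.CH.comp (T.CH.comp (T.CH.gt (∏ i, A.pr N i)) ((genTest A N χ δ).proj T))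
      (T.CH.gt (A.tup N fun i => (𝟙 A.A : A.A ⟶ A.A) ^ (v i))) ∈
      AtLeast T (groupTests T K) A.A δ := by
    refine Submodule.subset_span ⟨(genTest A N χ δ).test T, 0, T.CH.gt (∏ i, A.pr N i),
      T.CH.gt (A.tup N fun i => (𝟙 A.A : A.A ⟶ A.A) ^ (v i)), ⟨_, h, hK, rfl⟩, ?_, ?_, ?_, rfl⟩
    · change δ ≤ δ - 2 * 0
      linarith
    · exact T.gr_congr (T.gt_mem _) (by ring)
    · exact T.gr_congr (T.gt_mem _) (by change T.dim (A.pow N).A = T.dim (A.pow N).A - 0; ring)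
  rw [genTest_comp] at h1
  have h2 := Submodule.smul_mem _ ((Fintype.card (Fin N → ℤˣ) : ℕ) : ℚ) h1
  rwa [smul_smul, mul_inv_cancel₀ h0, one_smul] at h2

/-- the part of parity `s` of the multiplication by `n` -/
def ef (s n : ℤ) : T.CH.R (A.A ⊗ A.A) := (1 / 2 : ℚ) • (gm A n + (s : ℚ) • gm A (-n))

theorem rel_cd {K : V → Prop} (n : ℕ) (hK : K (A.pow (n + 1)).A) (x : ℤ) :
    cd^[n] (gm A) x - cd^[n] (gm A) (-x) ∈ AtLeast T (groupTests T K) A.A (n + 1 : ℕ) := by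
  have h := genTest_mem A (n + 1) hK (prodChar (n + 1)) (n + 1 : ℕ) (signTest_isGood A (n + 1))
    (Fin.cons x fun _ => 1)
  have h2 : ∑ ε : Fin (n + 1) → ℤˣ, (((prodChar (n + 1) ε : ℤˣ) : ℤ) : ℚ) •
      gm A (∑ i, ((ε i : ℤˣ) : ℤ) • (Fin.cons x fun _ => 1 : Fin (n + 1) → ℤ) i) =
      cd^[n] (gm A) x - cd^[n] (gm A) (-x) := by
    rw [← Fintype.sum_equiv (Fin.consEquiv fun _ : Fin (n + 1) => ℤˣ) _ _ (fun g => rfl),
      Fintype.sum_prod_type]
    have huniv : (Finset.univ : Finset ℤˣ) = {1, -1} := rfl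
    rw [huniv, Finset.sum_pair (by decide), ← sum_sign_eq n (gm A) x, ← sum_sign_eq n (gm A) (-x),
      sub_eq_add_neg, ← Finset.sum_neg_distrib]
    congr 1
    · refine Finset.sum_congr rfl fun ε _ => ?_
      change (((∏ i, (Fin.cons 1 ε : Fin (n + 1) → ℤˣ) i : ℤˣ) : ℤ) : ℚ) • _ = _
      rw [Fin.prod_univ_succ]
      change _ • gm A (∑ i, (((Fin.cons 1 ε : Fin (n + 1) → ℤˣ) i : ℤˣ) : ℤ) •
        (Fin.cons x fun _ => 1 : Fin (n + 1) → ℤ) i) = _
      rw [Fin.sum_univ_succ]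
      simp only [Fin.cons_zero, Fin.cons_succ, _root_.one_mul, Units.val_one, one_smul]
      rw [Int.cast_smul_eq_zsmul]
    · refine Finset.sum_congr rfl fun ε _ => ?_
      change (((∏ i, (Fin.cons (-1) ε : Fin (n + 1) → ℤˣ) i : ℤˣ) : ℤ) : ℚ) • _ = _
      rw [Fin.prod_univ_succ]
      change _ • gm A (∑ i, (((Fin.cons (-1) ε : Fin (n + 1) → ℤˣ) i : ℤˣ) : ℤ) •
        (Fin.cons x fun _ => 1 : Fin (n + 1) → ℤ) i) = _
      rw [Fin.sum_univ_succ]
      simp only [Fin.cons_zero, Fin.cons_succ, neg_one_mul, Units.val_neg, Units.val_one,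
        neg_smul, one_smul, Int.cast_neg]
      rw [Int.cast_smul_eq_zsmul]
  rwa [h2] at h

theorem ef_cd {K : V → Prop} (n : ℕ) (hK : K (A.pow (n + 1)).A) (x : ℤ) :
    cd^[n] (ef A ((-1) ^ (n + 1))) x ∈ AtLeast T (groupTests T K) A.A (n + 1 : ℕ) := by
  have h := rel_cd A n hK x
  have h1 : cd^[n] (ef A ((-1) ^ (n + 1))) x =
      (1 / 2 : ℚ) • (cd^[n] (gm A) x - cd^[n] (gm A) (-x)) := by
    have e : ef A ((-1) ^ (n + 1)) = fun y => (1 / 2 : ℚ) • ((fun z => gm A z +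
      (fun t => (((-1) ^ (n + 1) : ℤ) : ℚ) • (fun r => gm A (-r)) t) z) y) := rfl
    rw [e, cd_smul (1 / 2 : ℚ) (fun z => gm A z +
      (fun t => (((-1) ^ (n + 1) : ℤ) : ℚ) • (fun r => gm A (-r)) t) z),
      cd_add (fun z => gm A z), cd_smul _ (fun r => gm A (-r)), cd_neg, sub_eq_add_neg]
    congr 2
    rw [← Int.cast_smul_eq_zsmul ℚ, smul_smul, ← Int.cast_mul, ← pow_add]
    have : (-1 : ℤ) ^ (n + 1 + n) = -1 := by
      rw [show n + 1 + n = 2 * n + 1 by ring, pow_succ, pow_mul]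
      simp
    rw [this]
    simp
  rw [h1]
  exact Submodule.smul_mem _ _ h

/-- right multiplication by `Γ_2` -/
def MR : Module.End ℚ (T.CH.R (A.A ⊗ A.A)) := compR T.CH (gm A 2)

/-- left multiplication by `Γ_2` -/
def ML : Module.End ℚ (T.CH.R (A.A ⊗ A.A)) := compL T.CH (gm A 2)

/-- left multiplication by `[2]_*` -/
def NL : Module.End ℚ (T.CH.R (A.A ⊗ A.A)) := compL T.CH (gp A 2)

theorem MR_ef (s n : ℤ) : MR A (ef A s n) = ef A s (2 * n) := by
  unfold ef MR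
  rw [map_smul, map_add, map_smul, compR_apply, compR_apply, gm_gm, gm_gm]
  ring_nf

theorem ML_ef (s n : ℤ) : ML A (ef A s n) = ef A s (2 * n) := by
  unfold ef ML
  rw [map_smul, map_add, map_smul, compL_apply, compL_apply, gm_gm, gm_gm]
  ring_nf

theorem MR_pow (s : ℤ) (l : ℕ) : (MR A ^ l) (ef A s 1) = ef A s (2 ^ l) := by
  induction l with
  | zero => simp
  | succ l ih => rw [pow_succ', Module.End.mul_apply, ih, MR_ef, pow_succ']

theorem two_ne : ((2 : ℚ) ^ (2 * A.g)) ≠ 0 := by positivity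

theorem MR_mem {F : Set (Test T)} {k : ℤ} {z : T.CH.R (A.A ⊗ A.A)} (hz : z ∈ AtLeast T F A.A k) :
    MR A z ∈ AtLeast T F A.A k := atLeast_right (gm_mem A 2) hz

theorem MR_cancel {F : Set (Test T)} {k : ℤ} {z : T.CH.R (A.A ⊗ A.A)}
    (hC : ∀ (X : V) (x y : T.CH.R X), x * y = y * x)
    (hz : MR A z ∈ AtLeast T F A.A k) : z ∈ AtLeast T F A.A k := by
  have h := atLeast_right (gp_mem A 2) hz
  change T.CH.comp (T.CH.comp z (gm A 2)) (gp A 2) ∈ _ at h
  rw [comp_assoc, gm_gp A (by norm_num), comp_smul, comp_diag_right T.CH hC] at h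
  have h2 := Submodule.smul_mem _ (((2 : ℚ) ^ (2 * A.g))⁻¹) h
  have h3 := two_ne A
  rw [smul_smul] at h2
  have e : (((2 : ℚ) ^ (2 * A.g))⁻¹ * (((2 : ℤ) : ℚ)) ^ (2 * A.g)) = 1 := by
    push_cast
    exact inv_mul_cancel₀ h3
  rwa [e, one_smul] at h2

variable {A} in
/-- the low side -/
theorem low (hC : ∀ (X : V) (x y : T.CH.R X), x * y = y * x) {K : V → Prop}
    (hK : ∀ N, K (A.pow N).A) (n : ℕ) :
    aeval (MR A) (qp n) (ef A ((-1) ^ (n + 1)) 1) ∈
      AtLeast T (groupTests T K) A.A (n + 1 : ℕ) := by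
  have h := aeval_qp_mem (AtLeast T (groupTests T K) A.A (n + 1 : ℕ)) (n := n)
    (F := ef A ((-1) ^ (n + 1))) (ef_cd A n (hK (n + 1))) (MR A) (ef A ((-1) ^ (n + 1)) 1)
    (fun l => by
      rw [MR_pow, pow_succ' (2 : ℤ) l]
      norm_num)
  have h2 : aeval (MR A) (qp n) (MR A (ef A ((-1) ^ (n + 1)) 1)) =
      MR A (aeval (MR A) (qp n) (ef A ((-1) ^ (n + 1)) 1)) := by
    have h3 : ∀ w, MR A w = aeval (MR A) (Polynomial.X : Polynomial ℚ) w := by
      intro w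
      rw [Polynomial.aeval_X]
    rw [h3, h3, aeval_comm, aeval_comm, mul_comm]
  rw [h2] at h
  exact MR_cancel A hC h

theorem ef_one_one {K : V → Prop} (hK : ∀ N, K (A.pow N).A) :
    ef A 1 1 ∈ AtLeast T (groupTests T K) A.A 0 := by
  have h := genTest_mem A 1 (hK 1) 1 0 (evenTest_isGood A 1) (fun _ => 1)
  have h2 : ∑ ε : Fin 1 → ℤˣ, (((((1 : (Fin 1 → ℤˣ) →* ℤˣ) ε : ℤˣ) : ℤ) : ℚ)) •
      gm A (∑ i, ((ε i : ℤˣ) : ℤ) • (fun _ => 1 : Fin 1 → ℤ) i) = (2 : ℚ) • ef A 1 1 := by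
    rw [← Fintype.sum_equiv (Equiv.funUnique (Fin 1) ℤˣ).symm _ _ (fun g => rfl)]
    have huniv : (Finset.univ : Finset ℤˣ) = {1, -1} := rfl
    rw [huniv, Finset.sum_pair (by decide)]
    unfold ef
    rw [smul_smul]
    simp
  rw [h2] at h
  have h3 := Submodule.smul_mem _ (1 / 2 : ℚ) h
  rw [smul_smul] at h3
  norm_num at h3
  exact h3

theorem tr_ef (s : ℤ) : tr T.CH (ef A s 1) = ef A s 1 := by
  unfold ef
  rw [← trL_apply, map_smul, map_add, map_smul, trL_apply, trL_apply, tr_gm, tr_gm, gp_one, gp_neg]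

theorem tr_aeval (hC : ∀ (X : V) (x y : T.CH.R X), x * y = y * x) (p : Polynomial ℚ)
    (z : T.CH.R (A.A ⊗ A.A)) :
    tr T.CH (aeval (MR A) p z) = aeval (NL A) p (tr T.CH z) := by
  have h : ∀ l : ℕ, tr T.CH ((MR A ^ l) z) = (NL A ^ l) (tr T.CH z) := by
    intro l
    induction l with
    | zero => rfl
    | succ l ih =>
      rw [pow_succ', Module.End.mul_apply, pow_succ', Module.End.mul_apply, ← ih]
      change tr T.CH (T.CH.comp _ (gm A 2)) = T.CH.comp (gp A 2) _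
      rw [tr_comp T.CH hC, tr_gm]
  rw [Polynomial.aeval_eq_sum_range, Polynomial.aeval_eq_sum_range, LinearMap.sum_apply,
    LinearMap.sum_apply, ← trL_apply, map_sum]
  refine Finset.sum_congr rfl fun l _ => ?_
  rw [LinearMap.smul_apply, LinearMap.smul_apply, map_smul, trL_apply, h]

theorem ML_NL (z : T.CH.R (A.A ⊗ A.A)) : ML A (NL A z) = ((2 : ℚ) ^ (2 * A.g)) • z := by
  change T.CH.comp (gm A 2) (T.CH.comp (gp A 2) z) = _
  rw [← comp_assoc, gm_gp A (by norm_num), smul_comp, RingData.comp_diag]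
  norm_num

theorem ML_MR (z : T.CH.R (A.A ⊗ A.A)) : MR A (ML A z) = ML A (MR A z) := by
  change T.CH.comp (T.CH.comp (gm A 2) z) (gm A 2) = T.CH.comp (gm A 2) (T.CH.comp z (gm A 2))
  rw [comp_assoc]

theorem aeval_ML_MR (s : ℤ) (p : Polynomial ℚ) :
    aeval (MR A) p (ef A s 1) = aeval (ML A) p (ef A s 1) :=
  aeval_eq (MR A) (ML A) (ML_MR A) _ (by rw [MR_ef, ML_ef]) p

theorem ML_pow_mem (hC : ∀ (X : V) (x y : T.CH.R X), x * y = y * x) {F : Set (Test T)} {k : ℤ}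
    {z : T.CH.R (A.A ⊗ A.A)} (hz : z ∈ AtMost T F A.A k) (l : ℕ) :
    (ML A ^ l) z ∈ AtMost T F A.A k := by
  induction l with
  | zero => simpa using hz
  | succ l ih =>
    rw [pow_succ', Module.End.mul_apply]
    exact atMost_left hC (gm_mem A 2) ih

variable {A} in
/-- the high side -/
theorem high (hC : ∀ (X : V) (x y : T.CH.R X), x * y = y * x) {K : V → Prop}
    (hK : ∀ N, K (A.pow N).A) (n : ℕ) (hn : n ≤ 2 * A.g) {q : Polynomial ℚ}
    (hq : ∏ j ∈ Finset.range n, (Polynomial.X - C ((2 : ℚ) ^ (2 * A.g - j))) ∣ q) :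
    aeval (MR A) q (ef A ((-1) ^ (n + 1)) 1) ∈
      AtMost T (groupTests T K) A.A (2 * A.g - (n + 1 : ℕ)) := by
  have h1 := tr_atLeast hC (low hC hK n)
  rw [tr_aeval A hC, tr_ef, A.dim_eq] at h1
  have h2 := ML_pow_mem A hC h1 n
  rw [aeval_inv (ML A) (NL A) (2 * A.g) (ML_NL A)] at h2
  rw [aeval_ML_MR]
  refine aeval_mem_of_dvd _ (ML A) (fun z hz => atMost_left hC (gm_mem A 2) hz) ?_ h2
  refine dvd_trans ?_ hq
  have h3 : ∀ j ∈ Finset.range n, (C ((2 : ℚ) ^ (2 * A.g)) - C ((2 : ℚ) ^ j) * Polynomial.X) =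
      C (-(2 : ℚ) ^ j) * (Polynomial.X - C ((2 : ℚ) ^ (2 * A.g - j))) := by
    intro j hj
    rw [Finset.mem_range] at hj
    have : (2 : ℚ) ^ (2 * A.g) = 2 ^ j * 2 ^ (2 * A.g - j) := by
      rw [← pow_add]
      congr 1
      omega
    rw [this, map_mul, map_neg]
    ring
  rw [Finset.prod_congr rfl h3, Finset.prod_mul_distrib, ← map_prod]
  have h4 : (∏ j ∈ Finset.range n, (-(2 : ℚ) ^ j)) ≠ 0 := by
    refine Finset.prod_ne_zero_iff.2 fun j _ => ?_
    exact neg_ne_zero.2 (by positivity)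
  exact (((Polynomial.isUnit_C).2 h4.isUnit).mul_left_dvd).2 (dvd_refl _)

theorem diag_eq : T.CH.diag A.A = ef A 1 1 + ef A (-1) 1 := by
  unfold ef
  rw [← gm_one, ← smul_add]
  have : gm A 1 + ((1 : ℤ) : ℚ) • gm A (-1) + (gm A 1 + ((-1 : ℤ) : ℚ) • gm A (-1)) =
      (2 : ℚ) • gm A 1 := by
    rw [two_smul]
    push_cast
    rw [one_smul, neg_smul, one_smul]
    abel
  rw [this, smul_smul]
  norm_num

theorem erase_dvd {s t : Finset ℕ} (h : s ⊆ t) :
    ∏ j ∈ s, (Polynomial.X - C ((2 : ℚ) ^ j)) ∣ ∏ j ∈ t, (Polynomial.X - C ((2 : ℚ) ^ j)) :=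
  Finset.prod_dvd_prod_of_subset _ _ _ h

theorem high_prod {d n : ℕ} (hn : n ≤ d) :
    ∏ j ∈ Finset.range n, (Polynomial.X - C ((2 : ℚ) ^ (d - j))) =
      ∏ j ∈ Finset.Ioc (d - n) d, (Polynomial.X - C ((2 : ℚ) ^ j)) := by
  refine Finset.prod_bij' (fun j _ => d - j) (fun j _ => d - j) ?_ ?_ ?_ ?_ ?_
  · intro j hj
    rw [Finset.mem_range] at hj
    rw [Finset.mem_Ioc]
    omega
  · intro j hj
    rw [Finset.mem_Ioc] at hj
    rw [Finset.mem_range]
    omega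
  · intro j hj
    rw [Finset.mem_range] at hj
    omega
  · intro j hj
    rw [Finset.mem_Ioc] at hj
    omega
  · intro j _
    rfl

/-- the parts of even and odd degree are sums of sharp correspondences -/
theorem ef_sharp (hC : ∀ (X : V) (x y : T.CH.R X), x * y = y * x) {K : V → Prop}
    (hK : ∀ N, K (A.pow N).A) (s : ℕ) : ef A ((-1) ^ s) 1 ∈ Sharp T (groupTests T K) A.A := by
  have hs : ∀ n : ℕ, Even (n + s) → (-1 : ℤ) ^ s = (-1) ^ n := by
    intro n hn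
    rcases Nat.even_or_odd s with h | h
    · have h' : Even n := (Nat.even_add.1 hn).2 h
      rw [h.neg_one_pow, h'.neg_one_pow]
    · have h' : Odd n := by
        rw [← Nat.not_even_iff_odd]
        intro h'
        exact (Nat.not_even_iff_odd.2 h) ((Nat.even_add.1 hn).1 h')
      rw [h.neg_one_pow, h'.neg_one_pow]
  -- elements with nodes removed
  have hlow : ∀ (k : ℕ) (q : Polynomial ℚ), Even (k + s) →
      (∀ n, k = n + 1 → qp n ∣ q) →
      aeval (MR A) q (ef A ((-1) ^ s) 1) ∈ AtLeast T (groupTests T K) A.A k := by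
    intro k q hk hq
    cases k with
    | zero =>
      have h0 : (-1 : ℤ) ^ s = 1 := by rw [hs 0 hk]; simp
      rw [h0]
      exact aeval_mem _ (MR A) (fun z hz => MR_mem A hz) q (ef_one_one A hK)
    | succ n =>
      rw [hs (n + 1) hk]
      exact aeval_mem_of_dvd _ (MR A) (fun z hz => MR_mem A hz) (hq n rfl) (low hC hK n)
  have hhigh : ∀ (k : ℕ) (q : Polynomial ℚ), Even (k + s) → k ≤ 2 * A.g + 1 →
      (∀ n, k = n + 1 → ∏ j ∈ Finset.range n, (Polynomial.X - C ((2 : ℚ) ^ (2 * A.g - j))) ∣ q) →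
      aeval (MR A) q (ef A ((-1) ^ s) 1) ∈ AtMost T (groupTests T K) A.A (2 * A.g - k) := by
    intro k q hk hk' hq
    cases k with
    | zero =>
      have h0 : (-1 : ℤ) ^ s = 1 := by rw [hs 0 hk]; simp
      rw [h0]
      have h1 := tr_atLeast hC (ef_one_one A hK)
      rw [tr_ef, A.dim_eq] at h1
      rw [aeval_ML_MR]
      have h2 := aeval_mem _ (ML A) (fun z hz => atMost_left hC (gm_mem A 2) hz) q h1
      simpa using h2
    | succ n =>
      rw [hs (n + 1) hk]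
      exact high hC hK n (by omega) (hq n rfl)
  have hsum := congrArg (fun p => aeval (MR A) p (ef A ((-1) ^ s) 1))
    (lagrange_sum (Finset.range (2 * A.g + 1)) ⟨0, Finset.mem_range.2 (by omega)⟩)
  beta_reduce at hsum
  rw [map_one, Module.End.one_apply, map_sum, LinearMap.sum_apply] at hsum
  rw [← hsum]
  refine Submodule.sum_mem _ fun w hw => ?_
  rw [Finset.mem_range] at hw
  rcases Nat.even_or_odd (w + s) with hws | hws
  · refine sharp_of (k := (w : ℤ)) (hlow w _ hws fun n hn => ?_) ?_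
    · refine Dvd.dvd.mul_left (erase_dvd ?_) _
      intro j hj
      rw [Finset.mem_range] at hj
      rw [Finset.mem_erase, Finset.mem_range]
      omega
    · have h := hhigh (2 * A.g - w) (C ((∏ j ∈ (Finset.range (2 * A.g + 1)).erase w,
        ((2 : ℚ) ^ w - 2 ^ j))⁻¹) * ∏ j ∈ (Finset.range (2 * A.g + 1)).erase w,
          (Polynomial.X - C ((2 : ℚ) ^ j))) (by
          rw [Nat.even_iff] at hws ⊢
          omega) (by omega) (fun n hn => by
            rw [high_prod (by omega)]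
            refine Dvd.dvd.mul_left (erase_dvd ?_) _
            intro j hj
            rw [Finset.mem_Ioc] at hj
            rw [Finset.mem_erase, Finset.mem_range]
            omega)
      have e : (2 * A.g - ((2 * A.g - w : ℕ) : ℤ)) = w := by omega
      rwa [e] at h
  · refine sharp_of (k := ((w + 1 : ℕ) : ℤ)) (hlow (w + 1) _ ?_ fun n hn => ?_) ?_
    · rw [Nat.even_iff]
      rw [Nat.odd_iff] at hws
      omega
    · refine Dvd.dvd.mul_left (erase_dvd ?_) _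
      intro j hj
      rw [Finset.mem_range] at hj
      rw [Finset.mem_erase, Finset.mem_range]
      omega
    · have h := hhigh (2 * A.g - w + 1) (C ((∏ j ∈ (Finset.range (2 * A.g + 1)).erase w,
        ((2 : ℚ) ^ w - 2 ^ j))⁻¹) * ∏ j ∈ (Finset.range (2 * A.g + 1)).erase w,
          (Polynomial.X - C ((2 : ℚ) ^ j))) (by
          rw [Nat.even_iff]
          rw [Nat.odd_iff] at hws
          omega) (by omega) (fun n hn => by
            rw [high_prod (by omega)]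
            refine Dvd.dvd.mul_left (erase_dvd ?_) _
            intro j hj
            rw [Finset.mem_Ioc] at hj
            rw [Finset.mem_erase, Finset.mem_range]
            omega)
      exact atMost_mono (by omega) h

/-- Abelian varieties are pure. -/
theorem abelian_pure (hC : ∀ (X : V) (x y : T.CH.R X), x * y = y * x) {K : V → Prop}
    (hK : ∀ N, K (A.pow N).A) : Pure T (groupTests T K) A.A := by
  unfold Pure
  rw [diag_eq]
  have h0 := ef_sharp A hC hK 0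
  have h1 := ef_sharp A hC hK 1
  rw [pow_zero] at h0
  rw [pow_one] at h1
  exact Submodule.add_mem _ h0 h1

end Pool.Agent.Lib.MP_32dfd1_ag.Pur.Abel
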