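import Mathlib
import Pool.Agent.Lib.MP_32dfd1_ag.Pur.Ideal

set_option autoImplicit false
set_option linter.unusedSectionVars false

/-!
# Group tests: projectors and products
-/

namespace Pool.Agent.Lib.MP_32dfd1_ag.Pur

open CategoryTheory MonoidalCategory CartesianMonoidalCategory Pool.Agent.Lib.MP_32dfd1_ag.Cyc
  Pool.Agent.Lib.MP_32dfd1_ag.Par Pool.Agent.Lib.MP_32dfd1_ag.Sur

universe u v w

variable {V : Type u} [Category.{v} V] [CartesianMonoidalCategory V]

/-- a character with values in `ℚ` -/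
def val {G : Type} [Group G] (χ : G →* ℤˣ) (g : G) : ℚ := (((χ g : ℤˣ) : ℤ) : ℚ)

theorem val_mul {G : Type} [Group G] (χ : G →* ℤˣ) (g h : G) :
    val χ (g * h) = val χ g * val χ h := by
  simp [val]

theorem val_sq {G : Type} [Group G] (χ : G →* ℤˣ) (g : G) : val χ g * val χ g = 1 := by
  unfold val
  rw [← Int.cast_mul, ← Units.val_mul, Int.units_mul_self]
  simp

theorem val_one {G : Type} [Group G] (g : G) : val (1 : G →* ℤˣ) g = 1 := by
  simp [val]

theorem val_one_prod {G G' : Type} [Group G] [Group G'] (g : G × G') :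
    val (((1 : G →* ℤˣ).comp (MonoidHom.fst G G')) *
      ((1 : G' →* ℤˣ).comp (MonoidHom.snd G G'))) g = 1 := by
  simp [val]

/-- the product of two group tests -/
def GroupTest.prod (t t' : GroupTest V) : GroupTest V where
  Y := t.Y ⊗ t'.Y
  G := t.G × t'.G
  a g := t.a g.1 ⊗ₘ t'.a g.2
  χ := (t.χ.comp (MonoidHom.fst _ _)) * (t'.χ.comp (MonoidHom.snd _ _))
  δ := t.δ + t'.δ

variable {T : CycleData.{u, v, w} V} [T.Textbook] {t t' : GroupTest V}

section Avg

variable {Y Y' : V} {G G' : Type} [Group G] [Fintype G] [Group G'] [Fintype G']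
  {a : G → (Y ⟶ Y)} {a' : G' → (Y' ⟶ Y')}

/-- `∑ χ(g) g^*` on cohomology -/
noncomputable def avg (T : CycleData.{u, v, w} V) {Y : V} {G : Type} [Group G] [Fintype G]
    (a : G → (Y ⟶ Y)) (χ : G →* ℤˣ) (x : T.H.R Y) : T.H.R Y :=
  ∑ g, val χ g • T.H.pull (a g) x

theorem avg_add (χ : G →* ℤˣ) (x y : T.H.R Y) :
    avg T a χ (x + y) = avg T a χ x + avg T a χ y := by
  unfold avg
  rw [← Finset.sum_add_distrib]
  refine Finset.sum_congr rfl fun g _ => ?_
  rw [map_add, smul_add]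

theorem avg_smul (χ : G →* ℤˣ) (q : ℚ) (x : T.H.R Y) :
    avg T a χ (q • x) = q • avg T a χ x := by
  unfold avg
  rw [Finset.smul_sum]
  refine Finset.sum_congr rfl fun g _ => ?_
  rw [map_smul, smul_comm]

theorem avg_zero (χ : G →* ℤˣ) : avg T a χ 0 = 0 := by
  unfold avg
  simp

theorem avg_mem (χ : G →* ℤˣ) {j : ℤ} {x : T.H.R Y} (hx : x ∈ T.H.gr Y j) :
    avg T a χ x ∈ T.H.gr Y j :=
  Submodule.sum_mem _ fun _ _ => Submodule.smul_mem _ _ (T.H.pull_mem _ hx)

theorem avg_eigen (ha : Action Y G a) (χ : G →* ℤˣ) (x : T.H.R Y) (h : G) :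
    T.H.pull (a h) (avg T a χ x) = val χ h • avg T a χ x := by
  unfold avg
  rw [map_sum, Finset.smul_sum]
  refine Fintype.sum_equiv (Equiv.mulRight h) _ _ fun g => ?_
  rw [map_smul, ← T.H.pull_comp, ← ha.mul, smul_smul, Equiv.coe_mulRight, val_mul,
    mul_comm (val χ g), ← mul_assoc, val_sq, one_mul]

theorem avg_fix (χ : G →* ℤˣ) {x : T.H.R Y} (hx : ∀ g, T.H.pull (a g) x = val χ g • x) :
    avg T a χ x = (Fintype.card G : ℚ) • x := by
  unfold avg
  rw [Finset.sum_congr rfl fun g _ => by rw [hx g, smul_smul, val_sq, one_smul]]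
  rw [Finset.sum_const, Finset.card_univ, Nat.cast_smul_eq_nsmul]

theorem eq_zero_of_avg (χ : G →* ℤˣ) {x : T.H.R Y} (hx : ∀ g, T.H.pull (a g) x = val χ g • x)
    (h : avg T a χ x = 0) : x = 0 := by
  rw [avg_fix χ hx] at h
  exact (smul_eq_zero.1 h).resolve_left (by exact_mod_cast Fintype.card_ne_zero)

theorem avg_prod (χ : G →* ℤˣ) (χ' : G' →* ℤˣ) (x : T.H.R Y) (y : T.H.R Y') :
    avg T (fun g : G × G' => a g.1 ⊗ₘ a' g.2)
      ((χ.comp (MonoidHom.fst _ _)) * (χ'.comp (MonoidHom.snd _ _)))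
      (T.H.pull (fst Y Y') x * T.H.pull (snd Y Y') y) =
    T.H.pull (fst Y Y') (avg T a χ x) * T.H.pull (snd Y Y') (avg T a' χ' y) := by
  unfold avg
  rw [map_sum, map_sum, Finset.sum_mul_sum, Fintype.sum_prod_type]
  refine Finset.sum_congr rfl fun g _ => Finset.sum_congr rfl fun g' _ => ?_
  rw [map_mul (T.H.pull _), ← T.H.pull_comp, ← T.H.pull_comp, tensorHom_fst, tensorHom_snd,
    T.H.pull_comp, T.H.pull_comp, map_smul, map_smul, smul_mul_smul_comm]
  congr 1
  simp [val]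

end Avg

/-- a linear condition which is verified on exterior products -/
theorem avg_prod_zero {Y Y' : V} {G G' : Type} [Group G] [Fintype G] [Group G'] [Fintype G']
    {a : G → (Y ⟶ Y)} {a' : G' → (Y' ⟶ Y')} (χ : G →* ℤˣ) (χ' : G' →* ℤˣ) (j : ℤ)
    (h : ∀ (p q : ℤ) (x : T.H.R Y) (y : T.H.R Y'), p + q = j → x ∈ T.H.gr Y p →
      y ∈ T.H.gr Y' q → avg T a χ x = 0 ∨ avg T a' χ' y = 0)
    {x : T.H.R (Y ⊗ Y')} (hx : x ∈ T.H.gr (Y ⊗ Y') j) :
    avg T (fun g : G × G' => a g.1 ⊗ₘ a' g.2)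
      ((χ.comp (MonoidHom.fst _ _)) * (χ'.comp (MonoidHom.snd _ _))) x = 0 := by
  have h1 := T.kunneth Y Y' j hx
  clear hx
  induction h1 using Submodule.span_induction with
  | zero => exact avg_zero _
  | add x y _ _ hx hy => rw [avg_add, hx, hy, add_zero]
  | smul q x _ hx => rw [avg_smul, hx, smul_zero]
  | mem x hx' =>
    obtain ⟨p, q, x, y, hpq, hx, hy, rfl⟩ := hx'
    rw [avg_prod]
    rcases h p q x y hpq hx hy with h | h
    · rw [h, map_zero, zero_mul]
    · rw [h, map_zero, mul_zero]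

/-! ## The projector -/

theorem GroupTest.proj_mem (t : GroupTest V) : t.proj T ∈ T.CH.gr (t.Y ⊗ t.Y) (T.dim t.Y) := by
  unfold GroupTest.proj
  exact Submodule.smul_mem _ _ (Submodule.sum_mem _ fun g _ => Submodule.smul_mem _ _ (T.gt_mem _))

theorem GroupTest.actH_proj (t : GroupTest V) (x : T.H.R t.Y) :
    T.H.act (T.cl _ (t.proj T)) x = (Fintype.card t.G : ℚ)⁻¹ • avg T t.a t.χ x := by
  unfold GroupTest.proj avg val
  rw [map_smul, RingData.smul_act, map_sum, RingData.sum_act]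
  congr 1
  refine Finset.sum_congr rfl fun g _ => ?_
  rw [map_smul, RingData.smul_act, T.cl_gt, RingData.act_gt]

theorem GroupTest.act_proj (t : GroupTest V) (z : T.CH.R t.Y) :
    T.CH.act (t.proj T) z = (Fintype.card t.G : ℚ)⁻¹ • ∑ g, val t.χ g • T.CH.pull (t.a g) z := by
  unfold GroupTest.proj val
  rw [RingData.smul_act, RingData.sum_act]
  congr 1
  refine Finset.sum_congr rfl fun g _ => ?_
  rw [RingData.smul_act, RingData.act_gt]

/-- the projector acts on cohomology by `(1/|G|) ∑ χ(g) g^*` and has image in the `χ`-part -/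
theorem GroupTest.IsGood.proj_eigen (h : t.IsGood T) (g : t.G) (x : T.H.R t.Y) :
    T.H.pull (t.a g) (T.H.act (T.cl _ (t.proj T)) x) =
      (((t.χ g : ℤˣ) : ℤ) : ℚ) • T.H.act (T.cl _ (t.proj T)) x := by
  rw [t.actH_proj, map_smul, avg_eigen h.act, smul_comm]
  rfl

/-- a class in the `χ`-part is fixed by the projector -/
theorem GroupTest.proj_fix (t : GroupTest V) (x : T.H.R t.Y)
    (hx : ∀ g, T.H.pull (t.a g) x = (((t.χ g : ℤˣ) : ℤ) : ℚ) • x) :
    T.H.act (T.cl _ (t.proj T)) x = x := by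
  have h1 : (Fintype.card t.G : ℚ) ≠ 0 := by exact_mod_cast Fintype.card_ne_zero
  rw [t.actH_proj, avg_fix t.χ hx, smul_smul, inv_mul_cancel₀ h1, one_smul]

theorem GroupTest.IsGood.avg_bound (h : t.IsGood T) {j : ℤ}
    (hj : j < t.δ ∨ 2 * T.dim t.Y - t.δ < j) {x : T.H.R t.Y} (hx : x ∈ T.H.gr t.Y j) :
    avg T t.a t.χ x = 0 :=
  h.bound j hj _ (avg_mem t.χ hx) (avg_eigen h.act t.χ x)

theorem GroupTest.IsGood.avg_even (h : t.IsGood T) {j : ℤ} (hj : Odd j) {x : T.H.R t.Y}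
    (hx : x ∈ T.H.gr t.Y j) : avg T t.a 1 x = 0 := by
  refine h.even j hj _ (avg_mem 1 hx) fun g => ?_
  rw [avg_eigen h.act, val_one, one_smul]

theorem GroupTest.IsGood.coh (h : t.IsGood T) : (t.test T).Coh := by
  refine ⟨t.proj_mem, fun j hj x hx => ?_⟩
  change T.H.act (T.cl _ (t.proj T)) x = 0
  rw [t.actH_proj, h.avg_bound hj hx, smul_zero]

theorem coh_groupTests {K : V → Prop} : ∀ t ∈ groupTests T K, t.Coh := by
  rintro _ ⟨s, hs, _, rfl⟩
  exact hs.coh

/-! ## Products -/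

theorem GroupTest.proj_prod (t t' : GroupTest V) :
    (t.prod t').proj T = ep T.CH (t.proj T) (t'.proj T) := by
  unfold GroupTest.proj
  rw [ep_smul, smul_ep, ep_sum, smul_smul]
  change ((Fintype.card (t.G × t'.G) : ℚ))⁻¹ • ∑ g : t.G × t'.G,
    (((t.χ g.1 * t'.χ g.2 : ℤˣ) : ℤ) : ℚ) • T.CH.gt (t.a g.1 ⊗ₘ t'.a g.2) = _
  rw [Fintype.sum_prod_type, Fintype.card_prod]
  congr 1
  · push_cast
    rw [mul_inv, mul_comm]
  · refine Finset.sum_congr rfl fun g _ => Finset.sum_congr rfl fun g' _ => ?_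
    rw [ep_smul, smul_ep, smul_smul, ep_gt, mul_comm, Units.val_mul, Int.cast_mul]

theorem GroupTest.IsGood.prod (h : t.IsGood T) (h' : t'.IsGood T) : (t.prod t').IsGood T := by
  have hact : Action (t.prod t').Y (t.prod t').G (t.prod t').a := by
    refine ⟨?_, fun g g' => ?_⟩
    · change t.a 1 ⊗ₘ t'.a 1 = 𝟙 _
      rw [h.act.one, h'.act.one, id_tensorHom_id]
    · change t.a (g.1 * g'.1) ⊗ₘ t'.a (g.2 * g'.2) = (t.a g'.1 ⊗ₘ t'.a g'.2) ≫ (t.a g.1 ⊗ₘ t'.a g.2)
      rw [h.act.mul, h'.act.mul, tensorHom_comp_tensorHom]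
  refine ⟨fun g => Prod.ext (h.sq g.1) (h'.sq g.2), hact, fun j hj x hx hinv => ?_,
    fun j hj x hx hinv => ?_⟩
  · refine eq_zero_of_avg (a := (t.prod t').a)
      (((1 : t.G →* ℤˣ).comp (MonoidHom.fst _ _)) * ((1 : t'.G →* ℤˣ).comp (MonoidHom.snd _ _)))
      (fun g => ?_) (avg_prod_zero (a := t.a) (a' := t'.a) 1 1 j ?_ hx)
    · rw [hinv g]
      exact (one_smul ℚ x).symm.trans (congrArg (· • x) (val_one_prod g).symm)
    · intro p q x y hpq hx hy
      rcases Int.even_or_odd p with hp | hp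
      · refine Or.inr (h'.avg_even ?_ hy)
        rw [← hpq] at hj
        exact (Int.odd_add.mp hj).not.mp (by rwa [Int.not_odd_iff_even]) |> fun h => by
          rwa [Int.not_even_iff_odd] at h
      · exact Or.inl (h.avg_even hp hx)
  · refine eq_zero_of_avg (a := (t.prod t').a) (t.prod t').χ hinv
      (avg_prod_zero (a := t.a) (a' := t'.a) t.χ t'.χ j ?_ hx)
    intro p q x y hpq hx hy
    have hj' : j < t.δ + t'.δ ∨ 2 * (T.dim t.Y + T.dim t'.Y) - (t.δ + t'.δ) < j := by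
      have h2 : T.dim (t.prod t').Y = T.dim t.Y + T.dim t'.Y := T.dim_tensor _ _
      rw [h2] at hj
      exact hj
    by_cases hp : p < t.δ ∨ 2 * T.dim t.Y - t.δ < p
    · exact Or.inl (h.avg_bound hp hx)
    · refine Or.inr (h'.avg_bound ?_ hy)
      push Not at hp
      rcases hj' with hj' | hj'
      · left; omega
      · right; omega

theorem mem_groupTests {K : V → Prop} {t : GroupTest V} (h : t.IsGood T) (hK : K t.Y) :
    t.test T ∈ groupTests T K := ⟨t, h, hK, rfl⟩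

/-- the projector of a test of the family is in `AtLeast` and in `AtMost` -/
theorem test_mem (hC : ∀ (X : V) (x y : T.CH.R X), x * y = y * x) {F : Set (Test T)} {t : Test T}
    (ht : t ∈ F) : t.e ∈ AtLeast T F t.Y t.lo ∧ t.e ∈ AtMost T F t.Y t.hi := by
  have h1 : t.e = T.CH.comp (T.CH.comp (T.CH.diag t.Y) t.e) (T.CH.diag t.Y) := by
    rw [RingData.comp_diag, comp_diag_right T.CH hC]
  constructor
  · exact Submodule.subset_span ⟨t, 0, _, _, ht, by simp, diag_mem' _, diag_mem'' _, h1⟩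
  · exact Submodule.subset_span ⟨t, 0, _, _, ht, by simp, diag_mem' _, diag_mem'' _, h1⟩

theorem prodClosed_groupTests (hC : ∀ (X : V) (x y : T.CH.R X), x * y = y * x) {K : V → Prop}
    (hK : ∀ X Y : V, K X → K Y → K (X ⊗ Y)) : ProdClosed T (groupTests T K) := by
  rintro _ ⟨s, hs, hKs, rfl⟩ _ ⟨s', hs', hKs', rfl⟩
  have h1 := test_mem hC (mem_groupTests (K := K) (hs.prod hs') (hK _ _ hKs hKs'))
  have h2 : ((s.prod s').test T).e = ep T.CH (s.test T).e (s'.test T).e := s.proj_prod s'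
  have h3 : ((s.prod s').test T).hi = (s.test T).hi + (s'.test T).hi := by
    change 2 * T.dim (s.Y ⊗ s'.Y) - (s.δ + s'.δ) = _
    rw [T.dim_tensor]
    change _ = (2 * T.dim s.Y - s.δ) + (2 * T.dim s'.Y - s'.δ)
    ring
  rw [h2, h3] at h1
  exact h1

end Pool.Agent.Lib.MP_32dfd1_ag.Pur
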