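import Mathlib
import Pool.Agent.Lib.MP_32dfd1_ag.Pur.Short

set_option autoImplicit false

/-!
# The tensor category generated by a class of varieties (definitions)
-/

namespace Pool.Agent.Lib.MP_32dfd1_ag.Pur

open CategoryTheory MonoidalCategory CartesianMonoidalCategory Pool.Agent.Lib.MP_32dfd1_ag.Cyc

universe u v w

variable {V : Type u} [Category.{v} V] [CartesianMonoidalCategory V]

/-- Finite products of varieties of the class `K`. -/
inductive ProductOf (K : V → Prop) : V → Prop
  | unit : ProductOf K (𝟙_ V)
  | of (X : V) : K X → ProductOf K X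
  | tensor (X Y : V) : ProductOf K X → ProductOf K Y → ProductOf K (X ⊗ Y)

/-- The diagonal of `X` is a sum of compositions `b i ∘ a i` of correspondences `a i` from `X`
to finite products `P i` of varieties of the class `K`, of degree `n i`, and `b i` from `P i` to
`X`, of degree `- n i`.  In other words the Chow motive of `X` is a direct summand of a sum
of Tate twists of motives of products of varieties in `K`. -/
def Hull (T : CycleData.{u, v, w} V) (K : V → Prop) (X : V) : Prop :=
  ∃ (I : Type) (_ : Fintype I) (P : I → V) (n : I → ℤ)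
    (a : ∀ i, T.CH.R (X ⊗ P i)) (b : ∀ i, T.CH.R (P i ⊗ X)),
    (∀ i, ProductOf K (P i)) ∧
    (∀ i, T.CH.InDeg (a i) (T.dim X + n i)) ∧
    (∀ i, T.CH.InDeg (b i) (T.dim (P i) - n i)) ∧
    ∑ i, T.CH.comp (a i) (b i) = T.CH.diag X

end Pool.Agent.Lib.MP_32dfd1_ag.Pur
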