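import Mathlib
import Pool.Agent.Lib.MP_32dfd1_ag.Pur.Short

set_option autoImplicit false

/-!
# Murre decompositions, homologically trivial correspondences (definitions)
-/

namespace Pool.Agent.Lib.MP_32dfd1_ag.Pur

open CategoryTheory MonoidalCategory CartesianMonoidalCategory Pool.Agent.Lib.MP_32dfd1_ag.Cyc

universe u v w

variable {V : Type u} [Category.{v} V] [CartesianMonoidalCategory V]

/-- The conjectures of Murre for `X` with a filtration of length one: orthogonal projectors `π j`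
which lift the Kunneth components of the diagonal, `π j` acts as zero on `CH^m(X)` for
`j ≠ 2m, 2m - 1`, and `π (2m - 1)` projects `CH^m(X)` onto the homologically trivial cycle
classes. -/
structure MurreDec (T : CycleData.{u, v, w} V) (X : V) (π : ℤ → T.CH.R (X ⊗ X)) : Prop where
  mem : ∀ j, T.CH.InDeg (π j) (T.dim X)
  idem : ∀ j, T.CH.comp (π j) (π j) = π j
  orth : ∀ j k, j ≠ k → T.CH.IsZero (T.CH.comp (π j) (π k))
  sum : ∑ j ∈ Finset.Icc 0 (2 * T.dim X), π j = T.CH.diag X
  coh_self : ∀ j, ∀ x, T.H.InDeg x j → T.actCoh (π j) x = x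
  coh_ne : ∀ j i, i ≠ j → ∀ x, T.H.InDeg x i → T.H.IsZero (T.actCoh (π j) x)
  chow : ∀ j m : ℤ, j ≠ 2 * m → j ≠ 2 * m - 1 → ∀ z, T.CH.InDeg z m → T.CH.IsZero (T.CH.act (π j) z)
  hom : ∀ (m : ℤ) (z : T.CH.R X), T.HomTrivial X m z → T.CH.act (π (2 * m - 1)) z = z

/-- All varieties of the class `K` have Murre decompositions. -/
def FullMurreOn (T : CycleData.{u, v, w} V) (K : V → Prop) : Prop :=
  ∀ X : V, K X → ∃ π, MurreDec T X π

/-- Homologically trivial correspondences act as zero on homologically trivial cycles. -/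
def HomCorrOn (T : CycleData.{u, v, w} V) (K : V → Prop) : Prop :=
  ∀ X Y : V, K X → K Y → ∀ (r m : ℤ) (c : T.CH.R (X ⊗ Y)) (z : T.CH.R X),
    T.HomTrivial (X ⊗ Y) r c → T.HomTrivial X m z → T.CH.IsZero (T.CH.act c z)

end Pool.Agent.Lib.MP_32dfd1_ag.Pur
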