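import Mathlib
import Pool.Agent.Lib.MP_32dfd1_ag.Pur.Ideal
import Pool.Agent.Lib.MP_32dfd1_ag.Sur.Main

set_option autoImplicit false
set_option linter.unusedSectionVars false

/-!
# The one-step conjecture for pure varieties
-/

namespace Pool.Agent.Lib.MP_32dfd1_ag.Pur

open CategoryTheory MonoidalCategory CartesianMonoidalCategory Pool.Agent.Lib.MP_32dfd1_ag.Cyc
  Pool.Agent.Lib.MP_32dfd1_ag.Par Pool.Agent.Lib.MP_32dfd1_ag.Sur

universe u v w

variable {V : Type u} [Category.{v} V] [CartesianMonoidalCategory V]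
  {T : CycleData.{u, v, w} V} [T.Textbook] {F : Set (Test T)}

theorem atLeast_act (hV : ∀ t ∈ F, t.Van) {X : V} {m k : ℤ} (h : 2 * m - 1 < k)
    {f : T.CH.R (X ⊗ X)} (hf : f ∈ AtLeast T F X k) {z : T.CH.R X} (hz : T.HomTrivial X m z) :
    T.CH.act f z = 0 :=
  through_act hV hz (fun _ _ h' => Or.inl (by linarith)) hf

theorem atMost_act (hV : ∀ t ∈ F, t.Van) {X : V} {m k : ℤ} (h : k < 2 * m - 1)
    {f : T.CH.R (X ⊗ X)} (hf : f ∈ AtMost T F X k) {z : T.CH.R X} (hz : T.HomTrivial X m z) :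
    T.CH.act f z = 0 :=
  through_act hV hz (fun _ _ h' => Or.inr (by linarith)) hf

theorem atLeast_coh (hF : ∀ t ∈ F, t.Coh) {X : V} {j k : ℤ} (h : j < k)
    {f : T.CH.R (X ⊗ X)} (hf : f ∈ AtLeast T F X k) {x : T.H.R X} (hx : x ∈ T.H.gr X j) :
    T.H.act (T.cl _ f) x = 0 :=
  through_coh hF hx (fun _ _ h' => Or.inl (by linarith)) hf

theorem atMost_coh (hF : ∀ t ∈ F, t.Coh) {X : V} {j k : ℤ} (h : k < j)
    {f : T.CH.R (X ⊗ X)} (hf : f ∈ AtMost T F X k) {x : T.H.R X} (hx : x ∈ T.H.gr X j) :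
    T.H.act (T.cl _ f) x = 0 :=
  through_coh hF hx (fun _ _ h' => Or.inr (by linarith)) hf

theorem sharp_coh (hF : ∀ t ∈ F, t.Coh) {X : V} {j k : ℤ} (h : j ≠ k)
    {f : T.CH.R (X ⊗ X)} (hf : f ∈ AtLeast T F X k ⊓ AtMost T F X k) {x : T.H.R X}
    (hx : x ∈ T.H.gr X j) : T.H.act (T.cl _ f) x = 0 := by
  rcases lt_or_gt_of_ne h with h | h
  · exact atLeast_coh hF h hf.1 hx
  · exact atMost_coh hF h hf.2 hx

/-- the component of weight `2m - 1` of a sharp correspondence -/
theorem exists_component (hV : ∀ t ∈ F, t.Van) {X : V} {f : T.CH.R (X ⊗ X)}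
    (hf : f ∈ Sharp T F X) (m : ℤ) :
    ∃ t ∈ AtLeast T F X (2 * m - 1) ⊓ AtMost T F X (2 * m - 1),
      ∀ z, T.HomTrivial X m z → T.CH.act t z = T.CH.act f z := by
  unfold Sharp at hf
  induction hf using Submodule.iSup_induction' with
  | zero => exact ⟨0, Submodule.zero_mem _, fun z _ => rfl⟩
  | add x y _ _ hx hy =>
    obtain ⟨t, ht, h⟩ := hx
    obtain ⟨t', ht', h'⟩ := hy
    refine ⟨t + t', Submodule.add_mem _ ht ht', fun z hz => ?_⟩
    rw [add_act, add_act, h z hz, h' z hz]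
  | mem k f hf =>
    by_cases hk : k = 2 * m - 1
    · subst hk
      exact ⟨f, hf, fun z _ => rfl⟩
    · refine ⟨0, Submodule.zero_mem _, fun z hz => ?_⟩
      rw [RingData.zero_act]
      rcases lt_or_gt_of_ne hk with h | h
      · exact (atMost_act hV h hf.2 hz).symm
      · exact (atLeast_act hV h hf.1 hz).symm

theorem exists_component' (hV : ∀ t ∈ F, t.Van) {X : V} (hX : Pure T F X) (m : ℤ) :
    ∃ t ∈ AtLeast T F X (2 * m - 1) ⊓ AtMost T F X (2 * m - 1),
      ∀ z, T.HomTrivial X m z → T.CH.act t z = z := by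
  obtain ⟨t, ht, h⟩ := exists_component hV hX m
  exact ⟨t, ht, fun z hz => by rw [h z hz, RingData.act_diag]⟩

/-- pure varieties satisfy the conjecture of Murre -/
theorem murre_pure (hF : ∀ t ∈ F, t.Coh) (hV : ∀ t ∈ F, t.Van) : MurreOn T (Pure T F) := by
  intro X hX m
  obtain ⟨t, ht, h⟩ := exists_component' hV hX m
  exact ⟨t, through_gr hF ht.1, h, fun j hj x hx => sharp_coh hF hj ht hx⟩

variable (hC : ∀ (X : V) (x y : T.CH.R X), x * y = y * x)

include hC in
/-- exterior products of homologically trivial cycles on pure varieties are zero -/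
theorem exteriorVanish_pure (hV : ∀ t ∈ F, t.Van) (hprod : ProdClosed T F) :
    ExteriorVanishOn T (Pure T F) := by
  intro X Y hX hY a b z z' hz hz'
  obtain ⟨t, ht, h⟩ := exists_component' hV hX a
  obtain ⟨t', ht', h'⟩ := exists_component' hV hY b
  have h1 := act_ep T.CH hC t t' z z'
  rw [h z hz, h' z' hz'] at h1
  refine Eq.trans h1.symm (atMost_act hV ?_ (ep_atMost hC hprod ht.2 ht'.2) (m := a + b) ?_)
  · linarith
  · refine ⟨T.CH.mul_mem (T.CH.pull_mem _ hz.1) (T.CH.pull_mem _ hz'.1), ?_⟩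
    rw [map_mul, T.cl_pull, hz.2, map_zero, zero_mul]

/-- products of homologically trivial cycles on one variety -/
theorem mul_eq_zero_of_exterior {K : V → Prop} (h : ExteriorVanishOn T K) {X : V} (hX : K X)
    {a b : ℤ} {z z' : T.CH.R X} (hz : T.HomTrivial X a z) (hz' : T.HomTrivial X b z') :
    z * z' = 0 := by
  have h1 := h X X hX hX a b z z' hz hz'
  have h2 := congrArg (T.CH.pull (lift (𝟙 X) (𝟙 X))) h1
  unfold RingData.pull' at h2
  rw [map_zero, map_mul, ← T.CH.pull_comp, ← T.CH.pull_comp, lift_fst, lift_snd, T.CH.pull_id,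
    T.CH.pull_id] at h2
  exact h2

/-- homologically trivial correspondences act as zero on homologically trivial cycles -/
theorem act_eq_zero_of_exterior {K : V → Prop} (hK : ∀ X Y : V, K X → K Y → K (X ⊗ Y))
    (h : ExteriorVanishOn T K) {X Y : V} (hX : K X) (hY : K Y)
    {r m : ℤ} {c : T.CH.R (X ⊗ Y)} {z : T.CH.R X}
    (hc : T.HomTrivial (X ⊗ Y) r c) (hz : T.HomTrivial X m z) : T.CH.act c z = 0 := by
  unfold RingData.act
  rw [mul_eq_zero_of_exterior h (hK X Y hX hY) (T.homTrivial_pull (fst X Y) hz) hc, map_zero]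

theorem oneStep_of_exterior {K : V → Prop} (hK : ∀ X Y : V, K X → K Y → K (X ⊗ Y))
    (h : ExteriorVanishOn T K) (hM : MurreOn T K) : OneStepOn T K := by
  intro X Y hX hY m r c _ hc hact z hz
  obtain ⟨t, ht, h1, h2⟩ := hM X hX m
  have hd : T.HomTrivial (X ⊗ Y) (T.dim X + r) (T.CH.comp t c) := by
    refine ⟨T.gr_congr (T.comp_mem ht hc) (by ring), ?_⟩
    refine cl_eq_zero _ fun j x hx => ?_
    rw [T.cl_comp, RingData.act_comp]
    by_cases hj : j = 2 * m - 1
    · subst hj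
      exact hact _ (T.grH_congr (T.actH_mem (T.cl_mem _ _ _ ht) hx) (by ring))
    · rw [h2 j hj x hx, RingData.act_zero]
  have h3 := act_eq_zero_of_exterior hK h hX hY hd hz
  rw [RingData.act_comp, h1 z hz] at h3
  exact h3

/-- the converse -/
theorem q1_of_oneStep {K : V → Prop} (h : OneStepOn T K) : Q1On T K := by
  intro X hX m hm hH z hz
  have h1 := h X X hX hX m 0 (T.CH.diag X) hm (T.gr_congr (T.diag_mem X) (by ring)) (by
    intro x hx
    change x ∈ T.H.gr X (2 * m - 1) at hx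
    rw [hH, Submodule.mem_bot] at hx
    rw [hx]
    exact RingData.act_zero _ _) z hz
  rwa [RingData.act_diag] at h1

include hC in
/-- the one-step conjecture for pure varieties -/
theorem oneStep_pure (hF : ∀ t ∈ F, t.Coh) (hV : ∀ t ∈ F, t.Van) (hprod : ProdClosed T F) :
    OneStepOn T (Pure T F) :=
  oneStep_of_exterior (fun _ _ hX hY => pure_tensor hC hprod hX hY)
    (exteriorVanish_pure hC hV hprod) (murre_pure hF hV)

/-- restriction to a smaller class -/
theorem oneStep_mono {K K' : V → Prop} (hK : ∀ X, K X → K' X) (h : OneStepOn T K') :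
    OneStepOn T K :=
  fun X Y hX hY => h X Y (hK X hX) (hK Y hY)

end Pool.Agent.Lib.MP_32dfd1_ag.Pur
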