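import Mathlib
import Pool.Agent.Lib.MP_32dfd1_ag.Pur.Main

set_option autoImplicit false
set_option linter.unusedSectionVars false

/-!
# The ring of correspondences from a variety to itself
-/

namespace Pool.Agent.Lib.MP_32dfd1_ag.Pur

open CategoryTheory MonoidalCategory CartesianMonoidalCategory Pool.Agent.Lib.MP_32dfd1_ag.Cyc
  Pool.Agent.Lib.MP_32dfd1_ag.Par Pool.Agent.Lib.MP_32dfd1_ag.Sur

universe u v w

variable {V : Type u} [Category.{v} V] [CartesianMonoidalCategory V]

section

variable (R : RingData.{u, v, w} V) [R.Functorial] [R.Direct] [R.Formulas]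

/-- the diagonal is a right unit -/
theorem comp_diag' {X Y : V} (c : R.R (X ⊗ Y)) : R.comp c (R.diag Y) = c := by
  unfold RingData.comp RingData.diag
  have h0 : snd X Y ▷ Y = (α_ X Y Y).hom ≫ snd X (Y ⊗ Y) := by ext <;> simp
  have h1 : R.pull (snd X Y ▷ Y) (R.push (lift (𝟙 Y) (𝟙 Y)) 1) =
      R.push (lift (𝟙 (X ⊗ Y)) (snd X Y)) 1 := by
    rw [h0, R.pull_comp, base_change_right, map_one]
    have h2 := RingData.pull_push_iso R (Iso.refl (X ⊗ Y)) (α_ X Y Y) (lift (𝟙 (X ⊗ Y)) (snd X Y))
      (X ◁ lift (𝟙 Y) (𝟙 Y)) (by ext <;> simp) (1 : R.R (X ⊗ Y))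
    rw [h2, map_one]
  have h3 : R.pull (lift (𝟙 (X ⊗ Y)) (snd X Y)) (R.pull (fst (X ⊗ Y) Y) c) = c := by
    rw [← R.pull_comp, lift_fst, R.pull_id]
  rw [h1, ← R.proj_left, ← R.push_comp, mul_one, h3]
  have h4 : lift (𝟙 (X ⊗ Y)) (snd X Y) ≫ fst X Y ▷ Y = 𝟙 _ := by ext <;> simp
  rw [h4, R.push_id]

/-- the correspondences from `X` to `X` -/
def Corr (R : RingData.{u, v, w} V) (X : V) : Type w := R.R (X ⊗ X)

instance (X : V) : AddCommGroup (Corr R X) := inferInstanceAs (AddCommGroup (R.R (X ⊗ X)))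

noncomputable instance corrRing (X : V) : Ring (Corr R X) :=
  { (inferInstance : AddCommGroup (Corr R X)) with
    mul := fun a b => R.comp (X := X) (Y := X) (Z := X) a b
    one := R.diag X
    mul_assoc := fun a b c => comp_assoc R a b c
    one_mul := fun a => RingData.comp_diag R a
    mul_one := fun a => comp_diag' R a
    left_distrib := fun a b c => comp_add R a b c
    right_distrib := fun a b c => add_comp R a b c
    zero_mul := fun a => (compR R a).map_zero
    mul_zero := fun a => (compL R a).map_zero }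

/-- a correspondence as an element of the ring -/
def toCorr {X : V} (c : R.R (X ⊗ X)) : Corr R X := c

/-- an element of the ring as a correspondence -/
def ofCorr {X : V} (c : Corr R X) : R.R (X ⊗ X) := c

theorem ofCorr_mul {X : V} (a b : Corr R X) : ofCorr R (a * b) = R.comp (ofCorr R a) (ofCorr R b) :=
  rfl

theorem ofCorr_one {X : V} : ofCorr R (1 : Corr R X) = R.diag X := rfl

theorem ofCorr_add {X : V} (a b : Corr R X) : ofCorr R (a + b) = ofCorr R a + ofCorr R b := rfl

theorem ofCorr_sub {X : V} (a b : Corr R X) : ofCorr R (a - b) = ofCorr R a - ofCorr R b := rfl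

theorem ofCorr_zero {X : V} : ofCorr R (0 : Corr R X) = 0 := rfl

/-- `ofCorr` as an additive map -/
def ofCorrHom (X : V) : Corr R X →+ R.R (X ⊗ X) where
  toFun := ofCorr R
  map_zero' := rfl
  map_add' _ _ := rfl

theorem ofCorr_sum {X : V} {I : Type*} (s : Finset I) (f : I → Corr R X) :
    ofCorr R (∑ i ∈ s, f i) = ∑ i ∈ s, ofCorr R (f i) := map_sum (ofCorrHom R X) f s

end

variable (T : CycleData.{u, v, w} V) [T.Textbook]

/-- the ring of correspondences of degree zero -/
def degZero (X : V) : Subring (Corr T.CH X) where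
  carrier := {c | ofCorr T.CH c ∈ T.CH.gr (X ⊗ X) (T.dim X)}
  mul_mem' {a b} ha hb := by
    change T.CH.comp (ofCorr T.CH a) (ofCorr T.CH b) ∈ _
    exact T.gr_congr (T.comp_mem ha hb) (by ring)
  one_mem' := T.diag_mem X
  add_mem' ha hb := Submodule.add_mem _ ha hb
  zero_mem' := Submodule.zero_mem _
  neg_mem' ha := Submodule.neg_mem _ ha

/-- the cycle class map on correspondences -/
noncomputable def clCorr (X : V) : degZero T X →+* Corr T.H X where
  toFun c := toCorr T.H (T.cl (X ⊗ X) (ofCorr T.CH c.1))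
  map_one' := T.cl_diag X
  map_mul' a b := T.cl_comp (ofCorr T.CH a.1) (ofCorr T.CH b.1)
  map_zero' := map_zero (T.cl (X ⊗ X))
  map_add' a b := map_add (T.cl (X ⊗ X)) (ofCorr T.CH a.1) (ofCorr T.CH b.1)

end Pool.Agent.Lib.MP_32dfd1_ag.Pur
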