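import Mathlib
import Pool.Agent.Lib.MP_32dfd1_ag.Pur.Ring
import Pool.Agent.Lib.MP_32dfd1_ag.Pur.MurreDefs

set_option autoImplicit false
set_option linter.unusedSectionVars false

/-!
# Murre decompositions of pure varieties
-/

namespace Pool.Agent.Lib.MP_32dfd1_ag.Pur

open CategoryTheory MonoidalCategory CartesianMonoidalCategory Pool.Agent.Lib.MP_32dfd1_ag.Cyc
  Pool.Agent.Lib.MP_32dfd1_ag.Par Pool.Agent.Lib.MP_32dfd1_ag.Sur

universe u v w

variable {V : Type u} [Category.{v} V] [CartesianMonoidalCategory V]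

variable {T : CycleData.{u, v, w} V} [T.Textbook]

theorem homCorr_of_exterior {K : V → Prop} (hK : ∀ X Y : V, K X → K Y → K (X ⊗ Y))
    (h : ExteriorVanishOn T K) : HomCorrOn T K :=
  fun _ _ hX hY _ _ _ _ hc hz => act_eq_zero_of_exterior hK h hX hY hc hz

theorem comp_eq_zero_of_exterior {K : V → Prop} (hK : ∀ X Y : V, K X → K Y → K (X ⊗ Y))
    (h : ExteriorVanishOn T K) {X Y Z : V} (hX : K X) (hY : K Y) (hZ : K Z)
    {r s : ℤ} {c : T.CH.R (X ⊗ Y)} {d : T.CH.R (Y ⊗ Z)}
    (hc : T.HomTrivial (X ⊗ Y) r c) (hd : T.HomTrivial (Y ⊗ Z) s d) : T.CH.comp c d = 0 := by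
  unfold RingData.comp
  rw [mul_eq_zero_of_exterior h (hK _ _ (hK X Y hX hY) hZ) (T.homTrivial_pull _ hc)
    (T.homTrivial_pull _ hd), map_zero]

theorem murreOn_of_full {K : V → Prop} (h : FullMurreOn T K) : MurreOn T K := by
  intro X hX m
  obtain ⟨π, hπ⟩ := h X hX
  exact ⟨π (2 * m - 1), hπ.mem _, fun z hz => hπ.hom m z hz, fun j hj x hx => hπ.coh_ne _ j hj x hx⟩

theorem oneStep_of_homCorr {K : V → Prop} (h : HomCorrOn T K) (hM : MurreOn T K) :
    OneStepOn T K := by
  intro X Y hX hY m r c _ hc hact z hz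
  obtain ⟨t, ht, h1, h2⟩ := hM X hX m
  have hd : T.HomTrivial (X ⊗ Y) (T.dim X + r) (T.CH.comp t c) := by
    refine ⟨T.gr_congr (T.comp_mem ht hc) (by ring), ?_⟩
    refine cl_eq_zero _ fun j x hx => ?_
    rw [T.cl_comp, RingData.act_comp]
    by_cases hj : j = 2 * m - 1
    · subst hj
      exact hact _ (T.grH_congr (T.actH_mem (T.cl_mem _ _ _ ht) hx) (by ring))
    · rw [h2 j hj x hx, RingData.act_zero]
  have h3 := h X Y hX hY _ m _ z hd hz
  rw [RingData.act_comp, h1 z hz] at h3
  exact h3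

variable {F : Set (Test T)}

/-- pure varieties have Murre decompositions -/
theorem fullMurre_pure (hC : ∀ (X : V) (x y : T.CH.R X), x * y = y * x)
    (hF : ∀ t ∈ F, t.Coh) (hV : ∀ t ∈ F, t.Van) (hprod : ProdClosed T F) :
    FullMurreOn T (Pure T F) := by
  classical
  intro X hX
  have hK : ∀ X Y : V, Pure T F X → Pure T F Y → Pure T F (X ⊗ Y) :=
    fun _ _ hX hY => pure_tensor hC hprod hX hY
  have hext := exteriorVanish_pure hC hV hprod
  -- the sharp components
  obtain ⟨f, hf, hsum⟩ := (Submodule.mem_iSup_iff_exists_finsupp _ _).1 hX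
  let s : Finset ℤ := f.support ∪ Finset.Icc 0 (2 * T.dim X)
  have hsum' : ∑ j ∈ s, f j = T.CH.diag X := by
    rw [← hsum, Finsupp.sum]
    symm
    refine Finset.sum_subset Finset.subset_union_left fun j _ hj => ?_
    rwa [Finsupp.notMem_support_iff] at hj
  have hmem : ∀ j, f j ∈ T.CH.gr (X ⊗ X) (T.dim X) := fun j => through_gr hF (hf j).1
  have hcoh : ∀ j i, i ≠ j → ∀ x ∈ T.H.gr X i, T.H.act (T.cl _ (f j)) x = 0 :=
    fun j i hij x hx => sharp_coh hF hij (hf j) hx
  have hcoh' : ∀ j, ∀ x ∈ T.H.gr X j, T.H.act (T.cl _ (f j)) x = x := by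
    intro j x hx
    have h1 := T.H.act_diag x
    rw [← T.cl_diag, ← hsum', map_sum, RingData.sum_act] at h1
    by_cases hj : j ∈ s
    · rw [Finset.sum_eq_single j] at h1
      · exact h1
      · intro k _ hk
        exact hcoh k j (Ne.symm hk) x hx
      · intro h
        exact absurd hj h
    · have h2 : x = 0 := by
        rw [← h1]
        refine Finset.sum_eq_zero fun k hk => hcoh k j ?_ x hx
        rintro rfl
        exact hj hk
      rw [h2, RingData.act_zero]
  have hchow : ∀ (j m : ℤ), j ≠ 2 * m - 1 → ∀ z, T.HomTrivial X m z →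
      T.CH.act (f j) z = 0 := by
    intro j m hj z hz
    rcases lt_or_gt_of_ne hj with h | h
    · exact atMost_act hV h (hf j).2 hz
    · exact atLeast_act hV h (hf j).1 hz
  have hchow' : ∀ (m : ℤ), ∀ z, T.HomTrivial X m z → T.CH.act (f (2 * m - 1)) z = z := by
    intro m z hz
    have h1 := T.CH.act_diag z
    rw [← hsum', RingData.sum_act] at h1
    by_cases hj : 2 * m - 1 ∈ s
    · rw [Finset.sum_eq_single (2 * m - 1)] at h1
      · exact h1
      · intro k _ hk
        exact hchow k m hk z hz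
      · intro h
        exact absurd hj h
    · have h2 : z = 0 := by
        rw [← h1]
        refine Finset.sum_eq_zero fun k hk => hchow k m ?_ z hz
        rintro rfl
        exact hj hk
      rw [h2, RingData.act_zero]
  -- the images in cohomology
  let c : s → degZero T X := fun j => ⟨toCorr T.CH (f j), hmem j⟩
  have hcl : ∀ j : s, clCorr T X (c j) = toCorr T.H (T.cl _ (f j)) := fun _ => rfl
  have he : CompleteOrthogonalIdempotents fun j : s => clCorr T X (c j) := by
    rw [CompleteOrthogonalIdempotents.iff_ortho_complete]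
    constructor
    · intro i j hij
      change T.H.comp (T.cl _ (f i)) (T.cl _ (f j)) = 0
      have hij' : (i : ℤ) ≠ j := fun h => hij (Subtype.ext h)
      refine cl_eq_zero _ fun k x hx => ?_
      rw [RingData.act_comp]
      by_cases hk : k = i
      · subst hk
        refine hcoh j i hij' _ ?_
        exact T.grH_congr (T.actH_mem (T.cl_mem _ _ _ (hmem i)) hx) (by ring)
      · rw [hcoh i k hk x hx, RingData.act_zero]
    · rw [← map_sum]
      have h1 : ∑ j, c j = 1 := by
        refine Subtype.ext ?_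
        have h2 : ((∑ j, c j : degZero T X) : Corr T.CH X) = ∑ j, (c j : Corr T.CH X) :=
          map_sum (degZero T X).subtype c Finset.univ
        rw [h2]
        have h3 : ofCorr T.CH (∑ j, (c j : Corr T.CH X)) = T.CH.diag X := by
          rw [ofCorr_sum, ← hsum', ← Finset.sum_coe_sort s]
          rfl
        exact h3
      rw [h1, map_one]
  have hker : ∀ x ∈ RingHom.ker (clCorr T X), x * x = 0 := by
    intro x hx
    have h1 : T.HomTrivial (X ⊗ X) (T.dim X) (ofCorr T.CH x.1) := ⟨x.2, hx⟩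
    refine Subtype.ext ?_
    exact comp_eq_zero_of_exterior hK hext hX hX hX h1 h1
  obtain ⟨e, he1, he2⟩ := CompleteOrthogonalIdempotents.lift_of_isNilpotent_ker (clCorr T X)
    (fun x hx => ⟨2, by rw [pow_two]; exact hker x hx⟩) he (fun j => ⟨c j, rfl⟩)
  have he3 : ∀ j : s, T.cl _ (ofCorr T.CH (e j).1) = T.cl _ (f j) := fun j => congrFun he2 j
  have he4 : ∀ j : s, T.HomTrivial (X ⊗ X) (T.dim X) (ofCorr T.CH (e j).1 - f j) := by
    intro j
    refine ⟨Submodule.sub_mem _ (e j).2 (hmem j), ?_⟩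
    rw [map_sub, he3, sub_self]
  let π : ℤ → T.CH.R (X ⊗ X) := fun j => if h : j ∈ s then ofCorr T.CH (e ⟨j, h⟩).1 else 0
  have hπ : ∀ (j : ℤ) (h : j ∈ s), π j = ofCorr T.CH (e ⟨j, h⟩).1 := fun j h => by
    simp only [π]; rw [dif_pos h]
  have hπ0 : ∀ (j : ℤ), j ∉ s → π j = 0 := fun j h => by
    simp only [π]; rw [dif_neg h]
  have hacteq : ∀ (j : ℤ) (h : j ∈ s) (m : ℤ) (z : T.CH.R X), T.HomTrivial X m z →
      T.CH.act (π j) z = T.CH.act (f j) z := by
    intro j h m z hz
    have h1 := act_eq_zero_of_exterior hK hext hX hX (he4 ⟨j, h⟩) hz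
    rw [sub_act, sub_eq_zero] at h1
    rw [hπ j h]
    exact h1
  have hmemπ : ∀ j, π j ∈ T.CH.gr (X ⊗ X) (T.dim X) := by
    intro j
    by_cases h : j ∈ s
    · rw [hπ j h]; exact (e ⟨j, h⟩).2
    · rw [hπ0 j h]; exact Submodule.zero_mem _
  have horth : ∀ j k, j ≠ k → T.CH.comp (π j) (π k) = 0 := by
    intro j k hjk
    by_cases h : j ∈ s
    · by_cases h' : k ∈ s
      · rw [hπ j h, hπ k h']
        have h1 := he1.ortho (i := ⟨j, h⟩) (j := ⟨k, h'⟩) (fun h => hjk (congrArg Subtype.val h))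
        exact congrArg (fun x : degZero T X => ofCorr T.CH x.1) h1
      · rw [hπ0 k h', RingData.comp_zero]
    · rw [hπ0 j h, RingData.zero_comp]
  have hidem : ∀ j, T.CH.comp (π j) (π j) = π j := by
    intro j
    by_cases h : j ∈ s
    · rw [hπ j h]
      exact congrArg (fun x : degZero T X => ofCorr T.CH x.1) (he1.idem ⟨j, h⟩)
    · rw [hπ0 j h, RingData.comp_zero]
  have hout : ∀ j, j ∉ Finset.Icc 0 (2 * T.dim X) → π j = 0 := by
    intro j hj
    by_cases h : j ∈ s
    · rw [hπ j h]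
      have h1 : T.cl _ (f j) = 0 := by
        refine cl_eq_zero _ fun i x hx => ?_
        by_cases hij : i = j
        · subst hij
          rw [T.H_bot X i (by rw [Finset.mem_Icc] at hj; omega), Submodule.mem_bot] at hx
          rw [hx, RingData.act_zero]
        · exact hcoh j i hij x hx
      have h2 : e ⟨j, h⟩ ∈ RingHom.ker (clCorr T X) := (he3 ⟨j, h⟩).trans h1
      have h3 := hker _ h2
      have h4 : e ⟨j, h⟩ = 0 := (he1.idem ⟨j, h⟩).symm.trans h3
      rw [h4]
      rfl
    · exact hπ0 j h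
  have hsumπ : ∑ j ∈ Finset.Icc 0 (2 * T.dim X), π j = T.CH.diag X := by
    rw [Finset.sum_subset (s₂ := s) Finset.subset_union_right fun j _ hj => hout j hj,
      ← Finset.sum_coe_sort s]
    have h1 : ∀ j : s, π j = ofCorr T.CH (e j).1 := fun j => hπ j j.2
    rw [Finset.sum_congr rfl fun j _ => h1 j, ← ofCorr_sum]
    have h2 : ((∑ j, e j : degZero T X) : Corr T.CH X) = ∑ j, (e j : Corr T.CH X) :=
      map_sum (degZero T X).subtype e Finset.univ
    rw [← h2, he1.complete]
    rfl
  have hself : ∀ j, ∀ x ∈ T.H.gr X j, T.H.act (T.cl _ (π j)) x = x := by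
    intro j x hx
    by_cases h : j ∈ s
    · rw [hπ j h, he3 ⟨j, h⟩]
      exact hcoh' j x hx
    · have h1 : j ∉ Finset.Icc 0 (2 * T.dim X) := fun h' => h (Finset.subset_union_right h')
      rw [T.H_bot X j (by rw [Finset.mem_Icc] at h1; omega), Submodule.mem_bot] at hx
      rw [hx, RingData.act_zero]
  have hne : ∀ j i, i ≠ j → ∀ x ∈ T.H.gr X i, T.H.act (T.cl _ (π j)) x = 0 := by
    intro j i hij x hx
    by_cases h : j ∈ s
    · rw [hπ j h, he3 ⟨j, h⟩]
      exact hcoh j i hij x hx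
    · rw [hπ0 j h, map_zero, RingData.zero_act]
  have hhom : ∀ (m : ℤ) (z : T.CH.R X), T.HomTrivial X m z →
      T.CH.act (π (2 * m - 1)) z = z := by
    intro m z hz
    by_cases h : 2 * m - 1 ∈ s
    · rw [hacteq _ h m z hz, hchow' m z hz]
    · have h1 := T.CH.act_diag z
      rw [← hsum', RingData.sum_act] at h1
      have h2 : z = 0 := by
        rw [← h1]
        refine Finset.sum_eq_zero fun k hk => hchow k m ?_ z hz
        rintro rfl
        exact h hk
      rw [h2, RingData.act_zero]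
  refine ⟨π, hmemπ, hidem, horth, hsumπ, hself, hne, fun j m h1 h2 z hz => ?_, hhom⟩
  have h3 : T.HomTrivial X m (T.CH.act (π j) z) := by
    refine ⟨T.gr_congr (T.act_mem (hmemπ j) hz) (by ring), ?_⟩
    rw [T.cl_act]
    exact hne j (2 * m) (Ne.symm h1) _ (T.cl_mem _ _ _ hz)
  rw [← hidem j, RingData.act_comp, ← hhom m _ h3, ← RingData.act_comp, horth _ _ (Ne.symm h2),
    RingData.zero_act]

/-- the three forms of the conjecture for a class `K` closed under products -/
theorem tfae_of {K : V → Prop} (h : Q1On T K → ExteriorVanishOn T K ∧ FullMurreOn T K)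
    (hK : ∀ X Y : V, K X → K Y → K (X ⊗ Y)) :
    [Q1On T K, OneStepOn T K, FullMurreOn T K ∧ HomCorrOn T K].TFAE := by
  tfae_have 1 → 3 := fun h1 => ⟨(h h1).2, homCorr_of_exterior hK (h h1).1⟩
  tfae_have 3 → 2 := fun h3 => oneStep_of_homCorr h3.2 (murreOn_of_full h3.1)
  tfae_have 2 → 1 := q1_of_oneStep
  tfae_finish

end Pool.Agent.Lib.MP_32dfd1_ag.Pur
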