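import Mathlib
import Pool.Agent.Lib.MP_32dfd1_ag.Pur.Murre
import Pool.Agent.Lib.MP_32dfd1_ag.Pur.HullDefs

set_option autoImplicit false
set_option linter.unusedSectionVars false

/-!
# The tensor category generated by a class of varieties
-/

namespace Pool.Agent.Lib.MP_32dfd1_ag.Pur

open CategoryTheory MonoidalCategory CartesianMonoidalCategory Pool.Agent.Lib.MP_32dfd1_ag.Cyc
  Pool.Agent.Lib.MP_32dfd1_ag.Par Pool.Agent.Lib.MP_32dfd1_ag.Sur

universe u v w

variable {V : Type u} [Category.{v} V] [CartesianMonoidalCategory V]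

variable {T : CycleData.{u, v, w} V} [T.Textbook]

theorem hull_of_product {K : V → Prop} {X : V} (h : ProductOf K X) : Hull T K X := by
  refine ⟨Unit, inferInstance, fun _ => X, fun _ => 0, fun _ => T.CH.diag X,
    fun _ => T.CH.diag X, fun _ => h, fun _ => ?_, fun _ => ?_, ?_⟩
  · exact T.gr_congr (T.diag_mem X) (by ring)
  · exact T.gr_congr (T.diag_mem X) (by ring)
  · simp [RingData.comp_diag]

theorem hull_of {K : V → Prop} {X : V} (h : K X) : Hull T K X := hull_of_product (.of X h)

variable (hC : ∀ (X : V) (x y : T.CH.R X), x * y = y * x)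

include hC in
/-- the hull is closed under products -/
theorem hull_tensor {K : V → Prop} {X Y : V} (hX : Hull T K X) (hY : Hull T K Y) :
    Hull T K (X ⊗ Y) := by
  obtain ⟨I, _, P, n, a, b, hP, ha, hb, hab⟩ := hX
  obtain ⟨J, _, P', n', a', b', hP', ha', hb', hab'⟩ := hY
  refine ⟨I × J, inferInstance, fun k => P k.1 ⊗ P' k.2, fun k => n k.1 + n' k.2,
    fun k => ep T.CH (a k.1) (a' k.2), fun k => ep T.CH (b k.1) (b' k.2),
    fun k => .tensor _ _ (hP k.1) (hP' k.2), fun k => ?_, fun k => ?_, ?_⟩
  · refine T.gr_congr (ep_mem T.CH (ha k.1) (ha' k.2)) ?_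
    rw [T.dim_tensor]; ring
  · refine T.gr_congr (ep_mem T.CH (hb k.1) (hb' k.2)) ?_
    rw [T.dim_tensor]; ring
  · rw [← diag_ep, ← hab, ← hab', ep_sum, Fintype.sum_prod_type]
    refine Finset.sum_congr rfl fun i _ => Finset.sum_congr rfl fun j _ => ?_
    exact comp_ep T.CH hC _ _ _ _

variable {F : Set (Test T)}

include hC in
theorem pure_of_product {K : V → Prop} (hprod : ProdClosed T F) (h1 : Pure T F (𝟙_ V))
    (hK : ∀ X, K X → Pure T F X) {X : V} (h : ProductOf K X) : Pure T F X := by
  induction h with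
  | unit => exact h1
  | of X hX => exact hK X hX
  | tensor X Y _ _ hX hY => exact pure_tensor hC hprod hX hY

include hC in
theorem pure_of_hull {K : V → Prop} (hprod : ProdClosed T F) (h1 : Pure T F (𝟙_ V))
    (hK : ∀ X, K X → Pure T F X) {X : V} (h : Hull T K X) : Pure T F X := by
  obtain ⟨I, _, P, n, a, b, hP, ha, hb, hab⟩ := h
  exact pure_summand hC ha hb hab fun i => pure_of_product hC hprod h1 hK (hP i)

theorem exteriorVanish_mono {K K' : V → Prop} (hK : ∀ X, K X → K' X)
    (h : ExteriorVanishOn T K') : ExteriorVanishOn T K :=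
  fun X Y hX hY => h X Y (hK X hX) (hK Y hY)

theorem fullMurre_mono {K K' : V → Prop} (hK : ∀ X, K X → K' X)
    (h : FullMurreOn T K') : FullMurreOn T K :=
  fun X hX => h X (hK X hX)

theorem q1_mono {K K' : V → Prop} (hK : ∀ X, K X → K' X)
    (h : Q1On T K') : Q1On T K :=
  fun X hX => h X (hK X hX)

include hC in
/-- The general form of the theorem: if Q1 for `K` implies the vanishing for a family of test
objects closed under products, for which the members of `K` are pure, then all forms of the
conjecture for the hull of `K` are equivalent. -/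
theorem tfae_hull {K : V → Prop} (hF : ∀ t ∈ F, t.Coh) (hprod : ProdClosed T F)
    (h1 : Pure T F (𝟙_ V)) (hK : ∀ X, K X → Pure T F X) (hV : Q1On T K → ∀ t ∈ F, t.Van) :
    [Q1On T K, Q1On T (Hull T K), OneStepOn T (Hull T K),
      FullMurreOn T (Hull T K) ∧ HomCorrOn T (Hull T K)].TFAE := by
  have hHull : ∀ X, Hull T K X → Pure T F X := fun X hX => pure_of_hull hC hprod h1 hK hX
  tfae_have 1 → 4 := fun hQ => ⟨fullMurre_mono hHull (fullMurre_pure hC hF (hV hQ) hprod),
    homCorr_of_exterior (fun X Y hX hY => hull_tensor hC hX hY)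
      (exteriorVanish_mono hHull (exteriorVanish_pure hC (hV hQ) hprod))⟩
  tfae_have 4 → 3 := fun h4 => oneStep_of_homCorr h4.2 (murreOn_of_full h4.1)
  tfae_have 3 → 2 := q1_of_oneStep
  tfae_have 2 → 1 := q1_mono fun X hX => hull_of hX
  tfae_finish

end Pool.Agent.Lib.MP_32dfd1_ag.Pur
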