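import Mathlib
import Pool.Agent.Lib.MP_32dfd1_ag.Cyc.Theory
import Pool.Agent.Lib.MP_32dfd1_ag.Pur.Short
import Pool.Agent.Lib.MP_32dfd1_ag.Par.Defs

set_option autoImplicit false

/-!
# Abelian varieties, surfaces, double covers and hypersurfaces (definitions)
-/

namespace Pool.Agent.Lib.MP_32dfd1_ag.Cyc

universe u v w

open CategoryTheory

variable {V : Type u} [Category.{v} V]

/-- sum of two classes -/
abbrev RingData.add' (R : RingData.{u, v, w} V) {X : V} (x y : R.R X) : R.R X := x + y

/-- sum of finitely many classes -/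
abbrev RingData.sum' (R : RingData.{u, v, w} V) {X : V} {I : Type} [Fintype I]
    (x : I → R.R X) : R.R X := ∑ i, x i

/-- a rational number times a class -/
abbrev RingData.scal (R : RingData.{u, v, w} V) {X : V} (q : ℚ) (x : R.R X) : R.R X := q • x

end Pool.Agent.Lib.MP_32dfd1_ag.Cyc

namespace Pool.Agent.Lib.MP_32dfd1_ag.Pur

open CategoryTheory MonoidalCategory CartesianMonoidalCategory Pool.Agent.Lib.MP_32dfd1_ag.Cyc
  Pool.Agent.Lib.MP_32dfd1_ag.Par

universe u v w

variable {V : Type u} [Category.{v} V] [CartesianMonoidalCategory V]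

/-- The varieties are connected and have points: `H^0(X) = ℚ`, and `H^(2 dim X)(X)` is spanned by
the class of a point. -/
structure Points (T : CycleData.{u, v, w} V) : Prop where
  H_zero : ∀ (X : V) (x : T.H.R X), T.H.InDeg x 0 → ∃ q : ℚ, x = T.H.num X q
  point : ∀ X : V, ∃ p : 𝟙_ V ⟶ X, ∀ x : T.H.R X, T.H.InDeg x (2 * T.dim X) →
    ∃ q : ℚ, x = T.cls (T.CH.dir p (T.CH.num (𝟙_ V) q))

/-- Sums of compositions `X ⟶ pt ⟶ X` of correspondences of degrees `n` and `- n`. -/
def TateSum (T : CycleData.{u, v, w} V) (X : V) : Submodule ℚ (T.CH.R (X ⊗ X)) :=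
  T.CH.spn {f | ∃ (n : ℤ) (a : T.CH.R (X ⊗ 𝟙_ V)) (b : T.CH.R (𝟙_ V ⊗ X)),
    T.CH.InDeg a (T.dim X + n) ∧ T.CH.InDeg b (- n) ∧ f = T.CH.comp a b}

/-- An involution `ι` of `X` such that the invariant part of the motive of `X` is a sum of Tate
motives, and the anti-invariant part of the cohomology is in degree `dim X`. For instance a double
cover of a projective space (or of any variety whose motive is a sum of Tate motives) with
a smooth ample branch divisor. -/
structure EvenCover (T : CycleData.{u, v, w} V) (X : V) (ι : X ⟶ X) : Prop where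
  sq : ι ≫ ι = 𝟙 X
  /-- the diagonal plus the graph of `ι` -/
  tate : T.CH.add' (T.CH.diag X) (T.CH.dir (lift ι (𝟙 X)) (T.CH.num X 1)) ∈ TateSum T X
  minus : ∀ j : ℤ, j ≠ T.dim X → ∀ x, T.H.InDeg x j →
    T.H.IsZero (T.H.add' x (T.H.inv ι x)) → T.H.IsZero x

/-- The motive of `X` is a direct summand of the sum of the motive of `Y` and Tate motives:
there are correspondences `g` from `X` to `Y` of degree `n` and `g'` from `Y` to `X` of
degree `- n` such that the composition is a nonzero multiple of the diagonal plus a sum of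
correspondences which factor through a point.

For instance let `X = {F = 0}` be a smooth hypersurface of degree `2e` in `P^(n+1)`, `Y` the double
cover `u^2 = F(x) + z^(2e)` of `P^(n+2)` and `E_+`, `E_-` the cones `F = 0`, `u = ± z^e`, that is
`P^1`-bundles over `X` after the blow-up of the two points of `Y` with `x = 0`; for `g` the
difference of the two `P^1`-bundles and `g'` its transpose the composition is `- 4e` times the
diagonal.  If the degree of `F` is odd, apply this to the inverse image of `X` (in general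
position) under `[x_i] ↦ [x_i^2]`. -/
def SummandOf (T : CycleData.{u, v, w} V) (X Y : V) : Prop :=
  ∃ (n : ℤ) (q : ℚ) (g : T.CH.R (X ⊗ Y)) (g' : T.CH.R (Y ⊗ X)), q ≠ 0 ∧
    T.CH.InDeg g (T.dim X + n) ∧ T.CH.InDeg g' (T.dim Y - n) ∧
    T.CH.sub' (T.CH.comp g g') (T.CH.scal q (T.CH.diag X)) ∈ TateSum T X

/-- The data of the following construction for a surface `S`.  Let `α : S ⟶ A` be the Albanese map,
`n = k + 2` an integer `≥ 2 dim A + 2`, `c` a general point of `A` and
`W = {(s_1, ..., s_n) ∈ S^n | α(s_1) + ... + α(s_n) = c}`.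
This is a smooth projective variety with an action of the symmetric group `S_n`.  By the construction
of Godeaux and Serre there is a smooth complete intersection `B` with a free action of `S_n`, and
`Y = (W × B) / S_n` is smooth.  Its first Betti number is zero (see `SurfaceData.IsGood`), so a
smooth complete intersection surface `S' ⊆ Y` has no odd cohomology. -/
structure SurfaceData [BraidedCategory V] (T : CycleData.{u, v, w} V) (S : V) where
  A : AbVar T
  /-- the Albanese map -/
  α : S ⟶ A.A
  /-- `(x, y) ↦ c - x - y` -/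
  β : A.A ⊗ A.A ⟶ A.A
  k : ℕ
  /-- `S^k` -/
  R : V
  r : Fin k → (R ⟶ S)
  /-- the sum of the Albanese images of the `k` points -/
  γ : R ⟶ A.A
  W : V
  /-- the coordinates -/
  pr : Fin (k + 2) → (W ⟶ S)
  /-- the last `k` coordinates -/
  ρ : W ⟶ R
  /-- the class of an ample divisor on `S` -/
  l : T.CH.R S
  S' : V
  /-- the inverse image of `S'` in `W × B` -/
  W' : V
  q : W' ⟶ S'
  f : W' ⟶ W
  /-- the action of the symmetric group on `W` -/
  b : Equiv.Perm (Fin (k + 2)) → (W ⟶ W)
  /-- the action of the symmetric group on `W'` -/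
  b' : Equiv.Perm (Fin (k + 2)) → (W' ⟶ W')
  /-- the relative dimension of `W` over `S` -/
  e : ℕ
  /-- the degree of the fibres of `W ⟶ S` with respect to the ample class `∑ pr_i^* l` -/
  N : ℚ
  N' : ℚ

/-- The power `(∑ pr_i^* l) ^ e` of the ample class. -/
def SurfaceData.L [BraidedCategory V] {T : CycleData.{u, v, w} V} {S : V}
    (D : SurfaceData T S) : T.CH.R D.W :=
  T.CH.pow' (T.CH.sum' fun i => T.CH.inv (D.pr i) D.l) D.e

/-- Properties of the construction. -/
structure SurfaceData.IsGood [BraidedCategory V] {T : CycleData.{u, v, w} V} {S : V}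
    (D : SurfaceData T S) : Prop where
  pr_succ : ∀ j, D.pr j.succ.succ = D.ρ ≫ D.r j
  /-- `W` is the fibre product of `(s, t) ↦ c - α(s) - α(t)` and `γ`, smooth of the expected
  dimension -/
  base_change : ∀ x, T.CH.dir (lift (D.pr 0) (D.pr 1)) (T.CH.inv D.ρ x) =
    T.CH.inv ((D.α ⊗ₘ D.α) ≫ D.β) (T.CH.dir D.γ x)
  dim_W : T.dim D.W = T.dim S + T.dim S + T.dim D.R - T.dim D.A.A
  l_mem : T.CH.InDeg D.l 1
  dim_e : T.dim D.W = T.dim S + D.e
  degree : T.CH.dir (D.pr 0) D.L = T.CH.num S D.N
  N_ne : D.N ≠ 0
  /-- the symmetric group acts on `W` and `W'` and `f : W' ⟶ W` is equivariant -/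
  b_one : D.b 1 = 𝟙 D.W
  b_mul : ∀ g h, D.b (g * h) = D.b g ≫ D.b h
  b_pr : ∀ g i, D.b g ≫ D.pr i = D.pr (g i)
  b'_one : D.b' 1 = 𝟙 D.W'
  b'_mul : ∀ g h, D.b' (g * h) = D.b' g ≫ D.b' h
  equivariant : ∀ g, D.b' g ≫ D.f = D.f ≫ D.b g
  dim_S' : T.dim D.S' = T.dim S
  dim_W' : T.dim D.W' = T.dim S
  /-- `q : W' ⟶ S'` is an etale Galois cover with group `S_n` (also for the products with a
  variety `Z`) -/
  galois : ∀ (Z : V) (z : T.CH.R (D.W' ⊗ Z)), T.CH.inv (D.q ▷ Z) (T.CH.dir (D.q ▷ Z) z) =
    T.CH.sum' fun g => T.CH.inv (D.b' g ▷ Z) z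
  /-- the class of the image of `W'` in `W` -/
  image : T.CH.dir D.f (T.CH.num D.W' 1) = T.CH.scal D.N' D.L
  N'_ne : D.N' ≠ 0
  /-- `H^1(S') = H^1(Y) = H^1(W)^(S_n)` and `H^3(S')` are zero.  Indeed the points of `S^n` where the
  sum map to `A` is not smooth are those with all `s_i` on the zeros of one 1-form, so the
  singularities of the fibres have codimension `≥ n - 2 dim A + 1 ≥ 3`, and `H^1` of the fibres is a
  variation of Hodge structure on `A` (restrict to general complete intersection surfaces in the
  fibres).  By Deligne's semisimplicity theorem it has finite monodromy, so by the theorem of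
  global invariant cycles `H^1(W)` comes from `H^1(S^n ×_A A')` for an isogeny `A' ⟶ A`.  This is the
  sum of the groups `H^1(S^n, χ ⊠ ... ⊠ χ)` over the characters `χ` of the kernel of the isogeny,
  and they are zero for `χ ≠ 1`.  So `H^1(W)^(S_n)` comes from `H^1(S^n)^(S_n) = H^1(A)`, which
  restricts to zero on the fibres. -/
  noOdd : NoOdd T D.S'

/-- Abelian varieties, surfaces, double covers of projective spaces (see `EvenCover`), and
smooth hypersurfaces in projective spaces (see `SummandOf`).  The auxiliary varieties in the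
construction for surfaces (a surface `S'` without odd cohomology and the Albanese variety, see
`SurfaceData`) and for hypersurfaces (the double cover `Y`) have to be in the class `K`. -/
inductive Piece [BraidedCategory V] (T : CycleData.{u, v, w} V) (K : V → Prop) : V → Prop
  | abelian (A : AbVar T) : Piece T K A.A
  | surface (S : V) (D : SurfaceData T S) : T.dim S = 2 → D.IsGood → K D.S' → K D.A.A →
      Piece T K S
  | evenSurface (S : V) : T.dim S = 2 → NoOdd T S → Piece T K S
  | cover (X : V) (ι : X ⟶ X) : EvenCover T X ι → Piece T K X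
  | hypersurface (X Y : V) (ι : Y ⟶ Y) : EvenCover T Y ι → K Y → SummandOf T X Y → Piece T K X

end Pool.Agent.Lib.MP_32dfd1_ag.Pur
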