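import Mathlib
import Pool.Agent.Lib.MP_32dfd1_ag.Pur.Ideal
import Pool.Agent.Lib.MP_32dfd1_ag.Pur.PieceDefs
import Pool.Agent.Lib.MP_32dfd1_ag.Cyc.Ab
import Pool.Agent.Lib.MP_32dfd1_ag.Sur.Fibre

set_option autoImplicit false
set_option linter.unusedSectionVars false

/-!
# Points, surfaces and double covers are pure
-/

namespace Pool.Agent.Lib.MP_32dfd1_ag.Pur

open CategoryTheory MonoidalCategory CartesianMonoidalCategory Pool.Agent.Lib.MP_32dfd1_ag.Cyc
  Pool.Agent.Lib.MP_32dfd1_ag.Par Pool.Agent.Lib.MP_32dfd1_ag.Sur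

universe u v w

variable {V : Type u} [Category.{v} V] [CartesianMonoidalCategory V]

variable {T : CycleData.{u, v, w} V} [T.Textbook]

omit [T.Textbook] in
theorem Points.zero_le (hP : Points T) (X : V) : T.H.gr X 0 ≤ Submodule.span ℚ {1} := by
  intro x hx
  obtain ⟨q, hq⟩ := hP.H_zero X x hx
  exact Submodule.mem_span_singleton.2 ⟨q, hq.symm⟩

omit [T.Textbook] in
theorem Points.point_le (hP : Points T) (X : V) : ∃ x : 𝟙_ V ⟶ X,
    T.H.gr X (2 * T.dim X) ≤ Submodule.span ℚ {T.cl X (T.CH.push x 1)} := by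
  obtain ⟨p, hp⟩ := hP.point X
  refine ⟨p, fun x hx => ?_⟩
  obtain ⟨q, hq⟩ := hp x hx
  refine Submodule.mem_span_singleton.2 ⟨q, ?_⟩
  rw [hq]
  change q • T.cl X (T.CH.push p 1) = T.cl X (T.CH.push p (q • 1))
  rw [map_smul, map_smul]

omit [T.Textbook] in
theorem EvenCover.tate' {X : V} {ι : X ⟶ X} (h : EvenCover T X ι) :
    T.CH.diag X + T.CH.gt ι ∈ TateSum T X := by
  have h2 : T.CH.dir (lift ι (𝟙 X)) (T.CH.num X 1) = T.CH.gt ι := by
    change T.CH.push (lift ι (𝟙 X)) ((1 : ℚ) • 1) = T.CH.push (lift ι (𝟙 X)) 1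
    rw [one_smul]
  rw [← h2]
  exact h.tate

omit [T.Textbook] in
theorem EvenCover.minus' {X : V} {ι : X ⟶ X} (h : EvenCover T X ι) {j : ℤ} (hj : j ≠ T.dim X)
    {x : T.H.R X} (hx : x ∈ T.H.gr X j) (h2 : T.H.pull ι x = -x) : x = 0 := by
  refine h.minus j hj x hx ?_
  change x + T.H.pull ι x = 0
  rw [h2, add_neg_cancel]

/-- the group test of a point -/
noncomputable def ptTest (V : Type u) [Category.{v} V] [CartesianMonoidalCategory V] :
    GroupTest V where
  Y := 𝟙_ V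
  G := Unit
  a _ := 𝟙 _
  χ := 1
  δ := 0

theorem ptTest_good : (ptTest V).IsGood T := by
  have hz : ∀ j : ℤ, j ≠ 0 → ∀ x ∈ T.H.gr (𝟙_ V) j, x = 0 := by
    intro j hj x hx
    have h := T.H_bot (𝟙_ V) j (by rw [T.dim_unit]; omega)
    rwa [h, Submodule.mem_bot] at hx
  refine ⟨fun _ => rfl, ⟨rfl, fun _ _ => (Category.comp_id _).symm⟩, fun j hj x hx _ => ?_,
    fun j hj x hx _ => ?_⟩
  · refine hz j ?_ x hx
    rintro rfl
    exact absurd hj (by decide)
  · refine hz j ?_ x hx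
    rintro rfl
    have hj' : (0 : ℤ) < 0 ∨ 2 * T.dim (𝟙_ V) - 0 < 0 := hj
    rw [T.dim_unit] at hj'
    omega

theorem ptTest_proj : @Eq (T.CH.R (𝟙_ V ⊗ 𝟙_ V)) ((ptTest V).proj T) (T.CH.diag (𝟙_ V)) := by
  have h : @Eq (T.CH.R (𝟙_ V ⊗ 𝟙_ V)) ((ptTest V).proj T) (((Fintype.card Unit : ℚ))⁻¹ •
      ∑ _g : Unit, (((1 : ℤˣ) : ℤ) : ℚ) • T.CH.gt (𝟙 (𝟙_ V))) := rfl
  rw [h]
  simp only [Fintype.card_unit, Nat.cast_one, inv_one, one_smul, Finset.univ_unique,
    Finset.sum_singleton, Units.val_one, Int.cast_one]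
  rfl

theorem tateSum_le_sharp {K : V → Prop} (h1 : K (𝟙_ V)) (X : V) :
    TateSum T X ≤ Sharp T (groupTests T K) X := by
  refine Submodule.span_le.2 ?_
  rintro _ ⟨n, a, b, ha, hb, rfl⟩
  have hF : (ptTest V).test T ∈ groupTests T K := ⟨ptTest V, ptTest_good, h1, rfl⟩
  have hd : T.dim (𝟙_ V) = 0 := T.dim_unit
  have hc0 : T.CH.comp a b = T.CH.comp (T.CH.comp a (T.CH.diag (𝟙_ V))) b := by
    rw [comp_assoc, RingData.comp_diag]
  have hc : T.CH.comp a b = T.CH.comp (T.CH.comp a ((ptTest V).test T).e) b :=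
    hc0.trans (congrArg (fun z : T.CH.R (𝟙_ V ⊗ 𝟙_ V) => T.CH.comp (T.CH.comp a z) b)
      ptTest_proj.symm)
  have hlo : ((ptTest V).test T).lo = 0 := rfl
  have hhi : ((ptTest V).test T).hi = 0 := by
    change 2 * T.dim (𝟙_ V) - 0 = 0
    rw [hd]; rfl
  refine sharp_of (k := - 2 * n) (Submodule.subset_span ⟨_, n, a, b, hF, ?_, ha, ?_, hc⟩)
    (Submodule.subset_span ⟨_, n, a, b, hF, ?_, ha, ?_, hc⟩)
  · change - 2 * n ≤ ((ptTest V).test T).lo - 2 * n
    rw [hlo]; linarith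
  · refine T.gr_congr hb ?_
    change - n = T.dim (𝟙_ V) - n
    rw [hd]; ring
  · change ((ptTest V).test T).hi - 2 * n ≤ - 2 * n
    rw [hhi]; linarith
  · refine T.gr_congr hb ?_
    change - n = T.dim (𝟙_ V) - n
    rw [hd]; ring

/-! ## Involutions -/

/-- the group test of an involution `s` of `Y`, with the non-trivial character -/
noncomputable def invTest (Y : V) (s : Y ⟶ Y) (δ : ℤ) : GroupTest V where
  Y := Y
  G := ℤˣ
  a g := if g = 1 then 𝟙 Y else s
  χ := MonoidHom.id ℤˣ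
  δ := δ

theorem invTest_good {Y : V} {s : Y ⟶ Y} {δ : ℤ} (hs : s ≫ s = 𝟙 Y)
    (heven : ∀ j : ℤ, Odd j → ∀ x ∈ T.H.gr Y j, T.H.pull s x = x → x = 0)
    (hb : ∀ j : ℤ, (j < δ ∨ 2 * T.dim Y - δ < j) → ∀ x ∈ T.H.gr Y j, T.H.pull s x = -x → x = 0) :
    (invTest Y s δ).IsGood T := by
  have hne : (-1 : ℤˣ) ≠ 1 := by decide
  have ha : (invTest Y s δ).a (-1 : ℤˣ) = s :=
    (if_neg hne : (if (-1 : ℤˣ) = 1 then 𝟙 Y else s) = s)
  have hone : (invTest Y s δ).a (1 : ℤˣ) = 𝟙 Y :=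
    (if_pos rfl : (if (1 : ℤˣ) = 1 then 𝟙 Y else s) = 𝟙 Y)
  have hmul : ∀ g h : ℤˣ, (if g * h = 1 then 𝟙 Y else s) =
      (if h = 1 then 𝟙 Y else s) ≫ (if g = 1 then 𝟙 Y else s) := by
    intro g h
    rcases Int.units_eq_one_or g with rfl | rfl <;> rcases Int.units_eq_one_or h with rfl | rfl
    · simp
    · simp [hne]
    · simp [hne]
    · simp [hne, hs]
  refine ⟨fun g => Int.units_mul_self g, ⟨hone, hmul⟩, fun j hj x hx h => ?_,
    fun j hj x hx h => ?_⟩
  · refine heven j hj x hx ?_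
    have h2 := h (-1 : ℤˣ)
    rwa [ha] at h2
  · refine hb j hj x hx ?_
    have h2 := h (-1 : ℤˣ)
    rw [ha] at h2
    refine h2.trans ?_
    change ((((-1 : ℤˣ)) : ℤ) : ℚ) • x = -x
    simp

theorem invTest_proj (Y : V) (s : Y ⟶ Y) (δ : ℤ) :
    @Eq (T.CH.R (Y ⊗ Y)) ((invTest Y s δ).proj T) ((2 : ℚ)⁻¹ • (T.CH.diag Y - T.CH.gt s)) := by
  have h : @Eq (T.CH.R (Y ⊗ Y)) ((invTest Y s δ).proj T) (((Fintype.card ℤˣ : ℚ))⁻¹ •
      ∑ g : ℤˣ, (((g : ℤˣ) : ℤ) : ℚ) • T.CH.gt (if g = 1 then 𝟙 Y else s)) := rfl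
  have hne : (-1 : ℤˣ) ≠ 1 := by decide
  have hu : (Finset.univ : Finset ℤˣ) = {1, -1} := by decide
  rw [h, hu, Finset.sum_pair (Ne.symm hne), if_pos rfl, if_neg hne, Fintype.card_units_int]
  simp only [Units.val_one, Int.cast_one, one_smul, Units.val_neg, Int.cast_neg, neg_smul,
    Nat.cast_ofNat, sub_eq_add_neg]
  rfl

/-- the projector of an involution -/
noncomputable def hp (T : CycleData.{u, v, w} V) {Y : V} (s : Y ⟶ Y) : T.CH.R (Y ⊗ Y) :=
  (2 : ℚ)⁻¹ • (T.CH.diag Y - T.CH.gt s)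

theorem inv_atLeast {Y : V} {s : Y ⟶ Y} {δ : ℤ} (hg : (invTest Y s δ).IsGood T) {K : V → Prop}
    (hK : K Y) {X : V} {n k : ℤ} {a : T.CH.R (X ⊗ Y)} {b : T.CH.R (Y ⊗ X)}
    (ha : a ∈ T.CH.gr (X ⊗ Y) (T.dim X + n)) (hb : b ∈ T.CH.gr (Y ⊗ X) (T.dim Y - n))
    (hk : k ≤ δ - 2 * n) :
    T.CH.comp (T.CH.comp a (hp T s)) b ∈ AtLeast T (groupTests T K) X k :=
  Submodule.subset_span ⟨(invTest Y s δ).test T, n, a, b, ⟨_, hg, hK, rfl⟩, hk, ha, hb,
    congrArg (fun z : T.CH.R (Y ⊗ Y) => T.CH.comp (T.CH.comp a z) b) (invTest_proj Y s δ).symm⟩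

theorem inv_atMost {Y : V} {s : Y ⟶ Y} {δ : ℤ} (hg : (invTest Y s δ).IsGood T) {K : V → Prop}
    (hK : K Y) {X : V} {n k : ℤ} {a : T.CH.R (X ⊗ Y)} {b : T.CH.R (Y ⊗ X)}
    (ha : a ∈ T.CH.gr (X ⊗ Y) (T.dim X + n)) (hb : b ∈ T.CH.gr (Y ⊗ X) (T.dim Y - n))
    (hk : 2 * T.dim Y - δ - 2 * n ≤ k) :
    T.CH.comp (T.CH.comp a (hp T s)) b ∈ AtMost T (groupTests T K) X k :=
  Submodule.subset_span ⟨(invTest Y s δ).test T, n, a, b, ⟨_, hg, hK, rfl⟩, hk, ha, hb,
    congrArg (fun z : T.CH.R (Y ⊗ Y) => T.CH.comp (T.CH.comp a z) b) (invTest_proj Y s δ).symm⟩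

/-- the swap of the factors of `S × S` -/
theorem sw_sq (S : V) : (sw S S).hom ≫ (sw S S).hom = 𝟙 _ := by
  ext <;> simp [sw]

theorem gr_mem {X Y : V} (f : X ⟶ Y) : gr T.CH f ∈ T.CH.gr (X ⊗ Y) (T.dim Y) := by
  refine T.gr_congr (T.CH_push_mem _ (T.CH.one_mem X)) ?_
  rw [T.dim_tensor]
  ring

/-- top classes are invariant under automorphisms -/
theorem pull_top (hP : Points T) {X : V} (s : X ⟶ X) (hs : s ≫ s = 𝟙 X) {z : T.H.R X}
    (hz : z ∈ T.H.gr X (2 * T.dim X)) : T.H.pull s z = z := by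
  obtain ⟨x, hx⟩ := hP.point_le X
  set i : X ≅ X := ⟨s, s, hs, hs⟩ with hi
  have hps : ∀ y : T.H.R X, T.H.pull s y = T.H.push s y := fun y => (T.H.push_iso i y).symm
  set p : T.H.R X := T.cl X (T.CH.push x 1) with hp
  have hpm : p ∈ T.H.gr X (2 * T.dim X) := by
    refine T.grH_congr (T.cl_mem X _ _ (T.CH_push_mem x (T.CH.one_mem _))) ?_
    rw [T.dim_unit]; ring
  have hdeg : ∀ y : 𝟙_ V ⟶ X, T.H.push (toUnit X) (T.cl X (T.CH.push y 1)) = 1 := by
    intro y
    rw [T.cl_push, ← T.H.push_comp, toUnit_unique (y ≫ toUnit X) (𝟙 _), T.H.push_id, map_one]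
  have hmem : T.H.pull s p ∈ T.H.gr X (2 * T.dim X) := T.H.pull_mem s hpm
  obtain ⟨c, hc⟩ := Submodule.mem_span_singleton.1 (hx hmem)
  have hfix : T.H.pull s p = p := by
    have h1 : T.H.push (toUnit X) (T.H.pull s p) = 1 := by
      rw [hps, hp, ← T.cl_push, ← T.CH.push_comp]
      exact hdeg _
    rw [← hc, map_smul, hp, hdeg x] at h1
    have h2 : (c - 1) • (1 : T.H.R (𝟙_ V)) = 0 := by rw [sub_smul, h1, one_smul, sub_self]
    have h3 : (c - 1) • p = 0 := by
      have h4 := congrArg (fun u => T.H.pull (toUnit X) u * p) h2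
      simp only [map_smul, map_one, smul_mul_assoc, one_mul, map_zero, zero_mul] at h4
      exact h4
    rw [sub_smul, one_smul, sub_eq_zero] at h3
    rw [← hc]
    exact h3
  obtain ⟨d, hd⟩ := Submodule.mem_span_singleton.1 (hx hz)
  rw [← hd, map_smul]
  congr 1

/-- products of varieties without odd cohomology have none -/
theorem noOdd_tensor {X Y : V} (hX : NoOdd T X) (hY : NoOdd T Y) : NoOdd T (X ⊗ Y) := by
  intro j hj
  rw [eq_bot_iff]
  refine (T.kunneth X Y j).trans (Submodule.span_le.2 ?_)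
  rintro _ ⟨a, b, x, y, hab, hx, hy, rfl⟩
  rcases Int.even_or_odd a with ha | ha
  · have hb : Odd b := by
      by_contra hb
      rw [Int.not_odd_iff_even] at hb
      rw [← hab] at hj
      exact (Int.not_odd_iff_even.2 (ha.add hb)) hj
    rw [hY b hb, Submodule.mem_bot] at hy
    simp [hy]
  · rw [hX a ha, Submodule.mem_bot] at hx
    simp [hx]

theorem evenSurface_good (hP : Points T) {S : V} (hS : T.dim S = 2) (hodd : NoOdd T S) :
    (invTest (S ⊗ S) (sw S S).hom 2).IsGood T := by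
  have hno : NoOdd T (S ⊗ S) := noOdd_tensor hodd hodd
  have hdim : T.dim (S ⊗ S) = 4 := by rw [T.dim_tensor, hS]; rfl
  have hhalf : ∀ x : T.H.R (S ⊗ S), x = -x → x = 0 := by
    intro x hx
    have h : (2 : ℚ) • x = 0 := by
      rw [two_smul]
      nth_rewrite 2 [hx]
      rw [add_neg_cancel]
    exact (smul_eq_zero.1 h).resolve_left (by norm_num)
  refine invTest_good (sw_sq S) (fun j hj x hx _ => ?_) (fun j hj x hx h => ?_)
  · rwa [hno j hj, Submodule.mem_bot] at hx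
  · rcases Int.even_or_odd j with he | ho
    · have hj' : j < 0 ∨ j = 0 ∨ j = 8 ∨ 8 < j := by
        obtain ⟨k, rfl⟩ := he
        rw [hdim] at hj
        omega
      rcases hj' with hj' | rfl | rfl | hj'
      · rwa [T.H_bot (S ⊗ S) j (Or.inl hj'), Submodule.mem_bot] at hx
      · obtain ⟨c, rfl⟩ := Submodule.mem_span_singleton.1 (hP.zero_le (S ⊗ S) hx)
        rw [map_smul, map_one] at h
        exact hhalf _ h
      · have h2 := pull_top hP (sw S S).hom (sw_sq S) (z := x)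
          (T.grH_congr hx (by rw [hdim]; rfl))
        exact hhalf x (h2.symm.trans h)
      · rwa [T.H_bot (S ⊗ S) j (Or.inr (by rw [hdim]; linarith)), Submodule.mem_bot] at hx
    · rwa [hno j ho, Submodule.mem_bot] at hx

variable (hC : ∀ (X : V) (x y : T.CH.R X), x * y = y * x)

include hC in
/-- right multiplication of a Tate sum by a correspondence of degree zero -/
theorem tateSum_right {X : V} {f g : T.CH.R (X ⊗ X)} (hf : f ∈ TateSum T X)
    (hg : g ∈ T.CH.gr (X ⊗ X) (T.dim X)) : T.CH.comp f g ∈ TateSum T X := by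
  have h : TateSum T X ≤ (TateSum T X).comap (compR T.CH g) := by
    refine Submodule.span_le.2 ?_
    rintro _ ⟨n, a, b, ha, hb, rfl⟩
    refine Submodule.subset_span ⟨n, a, T.CH.comp b g, ha, T.gr_congr (T.comp_mem hb hg) (by ring), ?_⟩
    rw [compR_apply, comp_assoc]
  exact h hf

theorem gt_const_mem {X : V} (x : 𝟙_ V ⟶ X) : T.CH.gt (toUnit X ≫ x) ∈ TateSum T X := by
  refine Submodule.subset_span ⟨0, T.CH.gt x, T.CH.gt (toUnit X), T.gr_congr (T.gt_mem x) (by ring),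
    T.gr_congr (T.gt_mem (toUnit X)) (by rw [T.dim_unit]; ring), ?_⟩
  rw [gt_comp_gt]

include hC in
theorem gr_const_mem {X : V} (x : 𝟙_ V ⟶ X) : gr T.CH (toUnit X ≫ x) ∈ TateSum T X := by
  refine Submodule.subset_span ⟨- T.dim X, gr T.CH (toUnit X), gr T.CH x,
    T.gr_congr (gr_mem (toUnit X)) (by rw [T.dim_unit]; ring),
    T.gr_congr (gr_mem x) (by ring), ?_⟩
  rw [gr_comp_gr T.CH hC]

include hC in
theorem pure_evenSurface (hP : Points T) {K : V → Prop} (h1 : K (𝟙_ V)) {S : V}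
    (hS : T.dim S = 2) (hodd : NoOdd T S) (hK : K (S ⊗ S)) : Pure T (groupTests T K) S := by
  obtain ⟨x, -⟩ := hP.point S
  set c : S ⟶ S := toUnit S ≫ x with hc
  have hgood := evenSurface_good hP hS hodd
  have hdim : T.dim (S ⊗ S) = 4 := by rw [T.dim_tensor, hS]; rfl
  have h2 : ∀ {X Y : V} (u v : T.CH.R (X ⊗ Y)), (2 : ℚ)⁻¹ • ((u - v) - (v - u)) = u - v := by
    intro X Y u v
    have : (u - v) - (v - u) = (2 : ℚ) • (u - v) := by rw [two_smul]; abel
    rw [this, smul_smul, inv_mul_cancel₀ (by norm_num), one_smul]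
  -- low side
  set L : T.CH.R (S ⊗ S) := T.CH.diag S - T.CH.gt c with hL
  have hLc : T.CH.comp (T.CH.comp (T.CH.gt (fst S S) - T.CH.gt (snd S S)) (hp T (sw S S).hom))
      (T.CH.gt (lift (𝟙 S) c)) = L := by
    have e1 : T.CH.comp (T.CH.gt (fst S S) - T.CH.gt (snd S S)) (hp T (sw S S).hom) =
        T.CH.gt (fst S S) - T.CH.gt (snd S S) := by
      have e2 : (sw S S).hom ≫ fst S S = snd S S := by simp [sw]
      have e3 : (sw S S).hom ≫ snd S S = fst S S := by simp [sw]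
      unfold hp
      rw [comp_smul, comp_sub, comp_diag_right T.CH hC, sub_comp T.CH _ _ (T.CH.gt (sw S S).hom),
        gt_comp_gt, gt_comp_gt, e2, e3, h2]
    rw [e1, sub_comp, gt_comp_gt, gt_comp_gt, lift_fst, lift_snd, gt_id]
  have hL2 : L ∈ AtLeast T (groupTests T K) S 2 := by
    rw [← hLc]
    refine inv_atLeast (n := 0) hgood hK ?_ ?_ (by norm_num)
    · exact Submodule.sub_mem _ (T.gr_congr (T.gt_mem _) (by ring)) (T.gr_congr (T.gt_mem _) (by ring))
    · exact T.gr_congr (T.gt_mem _) (by ring)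
  -- high side
  set M : T.CH.R (S ⊗ S) := T.CH.diag S - gr T.CH c with hM
  have hMc : T.CH.comp (T.CH.comp (gr T.CH (lift (𝟙 S) c) - gr T.CH (lift c (𝟙 S)))
      (hp T (sw S S).hom)) (gr T.CH (fst S S)) = M := by
    have e1 : T.CH.comp (gr T.CH (lift (𝟙 S) c) - gr T.CH (lift c (𝟙 S))) (hp T (sw S S).hom) =
        gr T.CH (lift (𝟙 S) c) - gr T.CH (lift c (𝟙 S)) := by
      have e0 : T.CH.gt (sw S S).hom = gr T.CH (sw S S).hom := gt_iso T.CH (sw S S)
      have e2 : lift (𝟙 S) c ≫ (sw S S).hom = lift c (𝟙 S) := by ext <;> simp [sw]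
      have e3 : lift c (𝟙 S) ≫ (sw S S).hom = lift (𝟙 S) c := by ext <;> simp [sw]
      unfold hp
      rw [comp_smul, comp_sub, comp_diag_right T.CH hC, e0, sub_comp T.CH _ _ (gr T.CH _),
        gr_comp_gr T.CH hC, gr_comp_gr T.CH hC, e2, e3, h2]
    rw [e1, sub_comp, gr_comp_gr T.CH hC, gr_comp_gr T.CH hC, lift_fst, lift_fst, gr_id]
  have hM2 : M ∈ AtMost T (groupTests T K) S 2 := by
    rw [← hMc]
    refine inv_atMost (n := 2) hgood hK ?_ ?_ ?_
    · refine Submodule.sub_mem _ (T.gr_congr (gr_mem _) ?_) (T.gr_congr (gr_mem _) ?_)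
      · rw [hdim, hS]; rfl
      · rw [hdim, hS]; rfl
    · refine T.gr_congr (gr_mem _) ?_
      rw [hdim, hS]; rfl
    · rw [hdim]; norm_num
  have hMm : M ∈ T.CH.gr (S ⊗ S) (T.dim S) := Submodule.sub_mem _ (T.diag_mem S) (gr_mem c)
  have hLm : L ∈ T.CH.gr (S ⊗ S) (T.dim S) := Submodule.sub_mem _ (T.diag_mem S) (T.gt_mem c)
  have key : T.CH.diag S = T.CH.comp (T.CH.gt c) M + T.CH.comp L M + gr T.CH c := by
    rw [← add_comp, hL, add_sub_cancel, RingData.comp_diag, hM, sub_add_cancel]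
  unfold Pure
  rw [key]
  refine Submodule.add_mem _ (Submodule.add_mem _ ?_ ?_) ?_
  · exact tateSum_le_sharp h1 S (tateSum_right hC (gt_const_mem x) hMm)
  · exact sharp_of (atLeast_right hMm hL2) (atMost_left hC hLm hM2)
  · exact tateSum_le_sharp h1 S (gr_const_mem hC x)

open MonObj in
/-- `-1` is a parity involution of an abelian variety -/
theorem parity_neg [BraidedCategory V] (A : AbVar T) :
    Parity T A.A ((𝟙 A.A : A.A ⟶ A.A) ^ (-1 : ℤ)) := by
  have hcoh : ∀ (j : ℤ) (x : T.H.R A.A), x ∈ T.H.gr A.A j → 0 ≤ j →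
      T.H.pull ((𝟙 A.A : A.A ⟶ A.A) ^ (-1 : ℤ)) x = ((-1 : ℚ) ^ j.toNat) • x := by
    intro j x hx hj
    have h := A.coh_int (-1) hj hx
    rwa [Int.cast_neg, Int.cast_one] at h
  have hneg : ∀ (j : ℤ) (x : T.H.R A.A), x ∈ T.H.gr A.A j → j < 0 → x = 0 := by
    intro j x hx hj
    rwa [T.H_bot A.A j (Or.inl hj), Submodule.mem_bot] at hx
  refine ⟨?_, fun j hj x hx => ?_, fun j hj x hx => ?_⟩
  · rw [GrpObj.comp_zpow, Category.comp_id, ← zpow_mul, neg_mul_neg, _root_.one_mul, zpow_one]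
  · rcases lt_or_ge j 0 with h0 | h0
    · rw [hneg j x hx h0, map_zero]
    · have he : Even j.toNat := by
        obtain ⟨k, hk⟩ := hj
        exact ⟨k.toNat, by omega⟩
      rw [hcoh j x hx h0, he.neg_one_pow, one_smul]
  · rcases lt_or_ge j 0 with h0 | h0
    · rw [hneg j x hx h0, map_zero, neg_zero]
    · have ho : Odd j.toNat := by
        obtain ⟨k, hk⟩ := hj
        exact ⟨k.toNat, by omega⟩
      rw [hcoh j x hx h0, ho.neg_one_pow, neg_smul, one_smul]

namespace SurfaceData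

variable [BraidedCategory V] {S : V}

/-- the data of the fibre of the sum map -/
@[reducible] def sumData (D : SurfaceData T S) : SumData T S where
  A := D.A.A
  α := D.α
  β := D.β
  k := D.k
  R := D.R
  r := D.r
  γ := D.γ
  W := D.W
  p₁ := D.pr 0
  p₂ := D.pr 1
  ρ := D.ρ
  l := D.l
  e := D.e
  N := D.N

omit [T.Textbook] in
theorem IsGood.pr_eq {D : SurfaceData T S} (h : D.IsGood) : D.sumData.pr = D.pr := by
  funext i
  refine Fin.cases rfl (fun i => ?_) i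
  refine Fin.cases rfl (fun j => ?_) i
  exact (h.pr_succ j).symm

omit [T.Textbook] in
theorem IsGood.L_eq {D : SurfaceData T S} (h : D.IsGood) : D.sumData.L ^ D.e = D.L := by
  change (∑ i, T.CH.pull (D.sumData.pr i) D.l) ^ D.e = (∑ i, T.CH.pull (D.pr i) D.l) ^ D.e
  rw [h.pr_eq]

open MonObj in
/-- the construction of `Sur` -/
def IsGood.toSumFibre {D : SurfaceData T S} (h : D.IsGood) : SumFibre T S where
  D := D.sumData
  isFibre :=
    { dim_W := h.dim_W
      base_change := h.base_change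
      l_mem := h.l_mem
      dim_e := eq_sub_of_add_eq' h.dim_e.symm
      N_ne := h.N_ne
      degree := by
        change T.CH.push (D.pr 0) (D.sumData.L ^ D.e) = _
        rw [h.L_eq]
        exact h.degree }
  neg := (𝟙 D.A.A : D.A.A ⟶ D.A.A) ^ (-1 : ℤ)
  parity := parity_neg D.A
  E :=
    { S' := D.S'
      W' := D.W'
      q := D.q
      f := D.f
      act := ⟨D.b, h.b_one, h.b_mul⟩
      act' := ⟨D.b', h.b'_one, h.b'_mul⟩
      N' := D.N' }
  good :=
    { proj := by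
        intro g i
        rw [h.pr_eq]
        exact h.b_pr g i
      equivariant := h.equivariant
      dim_S' := h.dim_S'
      dim_W' := h.dim_W'
      galois := h.galois
      N'_ne := h.N'_ne
      image := by
        change T.CH.push D.f 1 = D.N' • D.sumData.L ^ D.e
        rw [h.L_eq]
        have h2 := h.image
        change T.CH.push D.f ((1 : ℚ) • 1) = D.N' • D.L at h2
        rwa [one_smul] at h2
      noOdd := h.noOdd }

end SurfaceData

include hC in
theorem pure_sumFibre (hP : Points T) {K : V → Prop} (h1 : K (𝟙_ V)) {S : V}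
    (hS : T.dim S = 2) (D : SumFibre T S) (hK : K (D.E.S' ⊗ D.E.S'))
    (hA : Pure T (groupTests T K) D.D.A) : Pure T (groupTests T K) S := by
  have hS' : Pure T (groupTests T K) D.E.S' :=
    pure_evenSurface hC hP h1 (D.good.dim_S'.trans hS) D.good.noOdd hK
  obtain ⟨c₀, c₁, hc₀, h⟩ := D.comp_cv_cu'
  have hdiag : T.CH.comp (c₀⁻¹ • D.cv) D.cu +
      ∑ x : Fin (D.D.e + 1) × Fin (D.D.e + 1),
      T.CH.comp ((-(c₀⁻¹ * c₁)) • D.ca x.2) (D.cb x.1 x.2) = T.CH.diag S := by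
    rw [Finset.sum_congr rfl fun x _ => Pur.smul_comp T.CH _ _ _, ← Finset.smul_sum,
      ← D.Γ_eq hC, Pur.smul_comp, h, smul_add, smul_smul, smul_smul,
      inv_mul_cancel₀ hc₀, one_smul, neg_smul]
    abel
  refine pure_summand hC (I := Option (Fin (D.D.e + 1) × Fin (D.D.e + 1)))
    (P := fun o => o.elim D.E.S' fun _ => D.D.A)
    (n := fun o => o.elim 0 fun x => (x.2 : ℤ) + T.dim D.D.A - T.dim S)
    (a := fun o => match o with
      | none => c₀⁻¹ • D.cv
      | some x => (-(c₀⁻¹ * c₁)) • D.ca x.2)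
    (b := fun o => match o with
      | none => D.cu
      | some x => D.cb x.1 x.2) ?_ ?_ ?_ ?_
  · rintro (_ | x)
    · exact Submodule.smul_mem _ _ D.cv_mem
    · exact Submodule.smul_mem _ _ (D.ca_mem x.2)
  · rintro (_ | x)
    · exact D.cu_mem
    · exact D.cb_mem (by have := x.1.2; omega) x.2
  · rw [Fintype.sum_option]
    exact hdiag
  · rintro (_ | x)
    · exact hS'
    · exact hA

include hC in
theorem pure_surface [BraidedCategory V] (hP : Points T) {K : V → Prop} (h1 : K (𝟙_ V)) {S : V}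
    (hS : T.dim S = 2) {D : SurfaceData T S} (hD : D.IsGood) (hK : K (D.S' ⊗ D.S'))
    (hA : Pure T (groupTests T K) D.A.A) : Pure T (groupTests T K) S :=
  pure_sumFibre hC hP h1 hS hD.toSumFibre hK hA

/-- Tate sums act as zero on odd cohomology -/
theorem tateSum_act_odd {X : V} {f : T.CH.R (X ⊗ X)} (hf : f ∈ TateSum T X) {j : ℤ} (hj : Odd j)
    {x : T.H.R X} (hx : x ∈ T.H.gr X j) : T.H.act (T.cl _ f) x = 0 := by
  unfold TateSum at hf
  induction hf using Submodule.span_induction with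
  | zero => rw [map_zero]; exact T.H.zero_act x
  | add x y _ _ hx hy => rw [map_add, add_act, hx, hy, add_zero]
  | smul q x _ hx => rw [map_smul, T.H.smul_act, hx, smul_zero]
  | mem y hy =>
    obtain ⟨n, a, b, ha, hb, rfl⟩ := hy
    have h1 : T.H.act (T.cl _ a) x ∈ T.H.gr (𝟙_ V) (j + 2 * n) :=
      T.grH_congr (T.actH_mem (T.cl_mem _ _ _ ha) hx) (by ring)
    have h2 : T.H.gr (𝟙_ V) (j + 2 * n) = ⊥ := by
      refine T.H_bot _ _ ?_
      rw [T.dim_unit]
      obtain ⟨k, rfl⟩ := hj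
      omega
    rw [h2, Submodule.mem_bot] at h1
    rw [T.cl_comp, RingData.act_comp, h1, RingData.act_zero]

include hC in
theorem pure_cover {K : V → Prop} (h1 : K (𝟙_ V)) {X : V} {ι : X ⟶ X} (h : EvenCover T X ι)
    (hK : K X) : Pure T (groupTests T K) X := by
  have hgood : (invTest X ι (T.dim X)).IsGood T := by
    refine invTest_good h.sq (fun j hj x hx hinv => ?_) (fun j hj x hx hinv => ?_)
    · have h2 := tateSum_act_odd h.tate' hj hx
      rw [map_add, add_act, T.cl_diag, RingData.act_diag, T.cl_gt, RingData.act_gt, hinv,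
        ← two_smul ℚ] at h2
      exact (smul_eq_zero.1 h2).resolve_left (by norm_num)
    · refine h.minus' (j := j) ?_ hx hinv
      rintro rfl
      rcases hj with hj | hj
      · exact lt_irrefl _ hj
      · linarith
  have hec : T.CH.comp (T.CH.comp (T.CH.diag X) (hp T ι)) (T.CH.diag X) = hp T ι := by
    rw [RingData.comp_diag, comp_diag_right T.CH hC]
  have hsharp : hp T ι ∈ Sharp T (groupTests T K) X := by
    rw [← hec]
    exact sharp_of (k := T.dim X)
      (inv_atLeast (n := 0) hgood hK (diag_mem' X) (diag_mem'' X) (by linarith))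
      (inv_atMost (n := 0) hgood hK (diag_mem' X) (diag_mem'' X) (by linarith))
  have key : T.CH.diag X = hp T ι + (2 : ℚ)⁻¹ • (T.CH.diag X + T.CH.gt ι) := by
    unfold hp
    rw [← smul_add]
    have : T.CH.diag X - T.CH.gt ι + (T.CH.diag X + T.CH.gt ι) = (2 : ℚ) • T.CH.diag X := by
      rw [two_smul]; abel
    rw [this, smul_smul, inv_mul_cancel₀ (by norm_num), one_smul]
  unfold Pure
  rw [key]
  exact Submodule.add_mem _ hsharp (tateSum_le_sharp h1 X (Submodule.smul_mem _ _ h.tate'))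

end Pool.Agent.Lib.MP_32dfd1_ag.Pur
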