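import Mathlib
import Pool.Agent.Lib.MP_32dfd1_ag.Pur.Ideal

set_option autoImplicit false
set_option linter.unusedSectionVars false

/-!
# Q1 and the construction of Godeaux and Serre give the vanishing for group tests
-/

namespace Pool.Agent.Lib.MP_32dfd1_ag.Pur

open CategoryTheory MonoidalCategory CartesianMonoidalCategory Pool.Agent.Lib.MP_32dfd1_ag.Cyc
  Pool.Agent.Lib.MP_32dfd1_ag.Par Pool.Agent.Lib.MP_32dfd1_ag.Sur

universe u v w

variable {V : Type u} [Category.{v} V] [CartesianMonoidalCategory V]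
  {T : CycleData.{u, v, w} V} [T.Textbook]

/-- if a finite group of exponent two acts on `X` and the invariants in `H^(2m-1-2i)(X)` are
zero for all `i`, then the sum over the group of the inverse images of a homologically trivial
cycle of codimension `m` is zero -/
theorem sum_pull_eq_zero {K : V → Prop} (hQ : Q1On T K) (hG : GodeauxSerreOn T K) {X : V}
    {G : Type} [Group G] [Fintype G] {a : G → (X ⟶ X)} (hX : K X) (hsq : ∀ g : G, g * g = 1)
    (ha : Action X G a) {m : ℤ}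
    (hinv : ∀ i : ℕ, ∀ x ∈ T.H.gr X (2 * m - 1 - 2 * i), (∀ g, T.H.pull (a g) x = x) → x = 0)
    {z : T.CH.R X} (hz : T.HomTrivial X m z) : ∑ g, T.CH.pull (a g) z = 0 := by
  by_cases hm : m ≤ 0
  · rw [T.homTrivial_eq_zero hm hz]
    simp
  push Not at hm
  obtain ⟨⟨W, Y, b, q, p, s, hb1, hbm, hbp, hsp, hdim, hdim', hqq⟩, hY, hYK⟩ :=
    hG X G a hX hsq ha (2 * m - 1) hinv
  have h1 : T.CH.push q (T.CH.pull p z) = 0 := by
    refine hQ Y hYK m (by omega) hY _
      (T.homTrivial_congr (T.homTrivial_push q (T.homTrivial_pull p hz)) ?_)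
    rw [hdim]; ring
  have h2 := hqq (T.CH.pull p z)
  rw [h1, map_zero] at h2
  have h3 : ∀ g, T.CH.pull s (T.CH.pull (b g) (T.CH.pull p z)) = T.CH.pull (a g) z := by
    intro g
    rw [← T.CH.pull_comp (b g) p, hbp, T.CH.pull_comp, ← T.CH.pull_comp s p, hsp, T.CH.pull_id]
  rw [← Finset.sum_congr rfl fun g _ => h3 g, ← map_sum, ← h2, map_zero]

theorem pull_action {X : V} {G : Type} [Group G] {a : G → (X ⟶ X)} (ha : Action X G a)
    (g : G) (z : T.CH.R X) : T.CH.pull (a g) z = T.CH.push (a g⁻¹) z := by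
  have e1 : a g⁻¹ ≫ a g = 𝟙 X := by rw [← ha.mul, mul_inv_cancel, ha.one]
  have e2 : a g ≫ a g⁻¹ = 𝟙 X := by rw [← ha.mul, inv_mul_cancel, ha.one]
  exact (T.CH.push_iso (⟨a g⁻¹, a g, e1, e2⟩ : X ≅ X) z).symm

/-- the same for cycles of dimension `p` and the invariants in `H^(2p+1-2i)(X)`, which are dual
to the invariants in `H^(2m-1+2i)(X)`, `m = dim X - p` -/
theorem sum_push_eq_zero {K : V → Prop} (hQ : Q1On T K) (hG : GodeauxSerreOn T K) {X : V}
    {G : Type} [Group G] [Fintype G] {a : G → (X ⟶ X)} (hX : K X) (hsq : ∀ g : G, g * g = 1)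
    (ha : Action X G a) {m : ℤ}
    (hinv : ∀ i : ℕ, ∀ x ∈ T.H.gr X (2 * (T.dim X - m) + 1 - 2 * i),
      (∀ g, T.H.pull (a g) x = x) → x = 0)
    {z : T.CH.R X} (hz : T.HomTrivial X m z) : ∑ g, T.CH.pull (a g) z = 0 := by
  by_cases hm : m ≤ 0
  · rw [T.homTrivial_eq_zero hm hz]
    simp
  push Not at hm
  obtain ⟨⟨W, Y, b, q, p, s, hb1, hbm, hbp, hsp, hdim, hdim', hqq⟩, hY, hYK⟩ :=
    hG X G a hX hsq ha (2 * (T.dim X - m) + 1) hinv
  have h1 : T.CH.push q (T.CH.push s z) = 0 := by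
    refine hQ Y hYK (T.dim W - (T.dim X - m)) (by omega) ?_ _
      (T.homTrivial_congr (T.homTrivial_push q (T.homTrivial_push s hz)) ?_)
    · have := T.duality Y (2 * (T.dim X - m) + 1) hY
      rw [hdim] at this
      rw [show 2 * (T.dim W - (T.dim X - m)) - 1 = 2 * T.dim W - (2 * (T.dim X - m) + 1) by ring]
      exact this
    · rw [hdim]; ring
  have h2 := hqq (T.CH.push s z)
  rw [h1, map_zero] at h2
  have hb : ∀ (g : G) (z : T.CH.R W), T.CH.pull (b g) z = T.CH.push (b g⁻¹) z := by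
    intro g z
    have e1 : b g⁻¹ ≫ b g = 𝟙 W := by rw [← hbm, mul_inv_cancel, hb1]
    have e2 : b g ≫ b g⁻¹ = 𝟙 W := by rw [← hbm, inv_mul_cancel, hb1]
    exact (T.CH.push_iso (⟨b g⁻¹, b g, e1, e2⟩ : W ≅ W) z).symm
  have h3 : ∀ g, T.CH.push p (T.CH.pull (b g) (T.CH.push s z)) = T.CH.pull (a g) z := by
    intro g
    rw [hb, ← T.CH.push_comp (b g⁻¹) p, hbp, T.CH.push_comp, ← T.CH.push_comp s p, hsp,
      T.CH.push_id, pull_action ha]
  rw [← Finset.sum_congr rfl fun g _ => h3 g, ← map_sum, ← h2, map_zero]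

theorem comm_of_sq {G : Type} [Group G] (hsq : ∀ g : G, g * g = 1) (g h : G) : g * h = h * g := by
  have h1 : ∀ x : G, x⁻¹ = x := fun x => inv_eq_of_mul_eq_one_left (hsq x)
  calc g * h = (g * h)⁻¹ := (h1 _).symm
    _ = h⁻¹ * g⁻¹ := mul_inv_rev g h
    _ = h * g := by rw [h1, h1]

/-- classes which are invariant under the kernel of the character are zero -/
theorem inv_ker {t : GroupTest V} (ht : t.IsGood T) {j : ℤ} (hj : Odd j)
    (hb : j < t.δ ∨ 2 * T.dim t.Y - t.δ < j) {x : T.H.R t.Y} (hx : x ∈ T.H.gr t.Y j)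
    (hinv : ∀ g, t.χ g = 1 → T.H.pull (t.a g) x = x) : x = 0 := by
  by_cases htriv : ∀ g, t.χ g = 1
  · exact ht.even j hj x hx fun g => hinv g (htriv g)
  push Not at htriv
  obtain ⟨g0, hg0⟩ := htriv
  have hg0' : t.χ g0 = -1 := (Int.units_eq_one_or (t.χ g0)).resolve_left hg0
  have hmul : ∀ (g h : t.G) (y : T.H.R t.Y),
      T.H.pull (t.a (g * h)) y = T.H.pull (t.a h) (T.H.pull (t.a g) y) := by
    intro g h y
    rw [ht.act.mul, T.H.pull_comp]
  set x' : T.H.R t.Y := T.H.pull (t.a g0) x with hx'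
  have hx'm : x' ∈ T.H.gr t.Y j := T.H.pull_mem _ hx
  have h1 : ∀ g, t.χ g = 1 → T.H.pull (t.a g) x' = x' := by
    intro g hg
    rw [hx', ← hmul, comm_of_sq ht.sq, hmul, hinv g hg]
  have h2 : T.H.pull (t.a g0) x' = x := by
    rw [hx', ← hmul, ht.sq, ht.act.one, T.H.pull_id]
  have h3 : ∀ g, t.χ g = -1 → T.H.pull (t.a g) x = x' ∧ T.H.pull (t.a g) x' = x := by
    intro g hg
    have e1 : g = g0 * (g0 * g) := by rw [← mul_assoc, ht.sq, one_mul]
    have e2 : t.χ (g0 * g) = 1 := by rw [map_mul, hg0', hg]; rfl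
    constructor
    · rw [e1, hmul, ← hx', h1 _ e2]
    · rw [e1, hmul, h2, hinv _ e2]
  have hy : x + x' = 0 := by
    refine ht.even j hj _ (Submodule.add_mem _ hx hx'm) fun g => ?_
    rcases Int.units_eq_one_or (t.χ g) with hg | hg
    · rw [map_add, hinv g hg, h1 g hg]
    · rw [map_add, (h3 g hg).1, (h3 g hg).2, add_comm]
  have hw : x - x' = 0 := by
    refine ht.bound j hb _ (Submodule.sub_mem _ hx hx'm) fun g => ?_
    rcases Int.units_eq_one_or (t.χ g) with hg | hg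
    · rw [map_sub, hinv g hg, h1 g hg, hg]
      simp
    · rw [map_sub, (h3 g hg).1, (h3 g hg).2, hg]
      simp
  have h4 : (2 : ℚ) • x = 0 := by
    have : (2 : ℚ) • x = (x + x') + (x - x') := by rw [two_smul]; abel
    rw [this, hy, hw, add_zero]
  exact (smul_eq_zero.1 h4).resolve_left (by norm_num)

theorem van_proj {K : V → Prop} (hQ : Q1On T K) (hG : GodeauxSerreOn T K) {t : GroupTest V}
    (ht : t.IsGood T) (hK : K t.Y) {m : ℤ} {z : T.CH.R t.Y} (hz : T.HomTrivial t.Y m z)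
    (hm : 2 * m - 1 < t.δ ∨ 2 * T.dim t.Y - t.δ < 2 * m - 1) : T.CH.act (t.proj T) z = 0 := by
  classical
  -- the whole group
  have hall : ∑ g, T.CH.pull (t.a g) z = 0 := by
    refine sum_pull_eq_zero hQ hG hK ht.sq ht.act (m := m) (fun i x hx h => ?_) hz
    refine ht.even _ ?_ x hx h
    exact ⟨m - 1 - i, by ring⟩
  -- the kernel of the character
  have hker : ∑ g : t.χ.ker, T.CH.pull (t.a (g : t.G)) z = 0 := by
    have hsq : ∀ g : t.χ.ker, g * g = 1 := fun g => Subtype.ext (ht.sq g)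
    have hact : Action t.Y t.χ.ker (fun g => t.a (g : t.G)) :=
      ⟨ht.act.one, fun g h => ht.act.mul g h⟩
    rcases hm with hm | hm
    · refine sum_pull_eq_zero hQ hG hK hsq hact (m := m) (fun i x hx h => ?_) hz
      refine inv_ker ht (j := 2 * m - 1 - 2 * i) ⟨m - 1 - i, by ring⟩ (Or.inl (by omega)) hx
        fun g hg => h ⟨g, hg⟩
    · refine sum_push_eq_zero hQ hG hK hsq hact (m := m) (fun i x hx h => ?_) hz
      refine inv_ker ht (j := 2 * (T.dim t.Y - m) + 1 - 2 * i) ⟨T.dim t.Y - m - i, by ring⟩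
        (Or.inl (by omega)) hx fun g hg => h ⟨g, hg⟩
  have hker' : ∑ g ∈ Finset.univ.filter (fun g => t.χ g = 1), T.CH.pull (t.a g) z = 0 := by
    rw [← hker]
    exact Finset.sum_subtype _ (fun g => by simp [MonoidHom.mem_ker]) _
  have hchi : ∀ g, (((t.χ g : ℤˣ) : ℤ) : ℚ) • T.CH.pull (t.a g) z =
      (if t.χ g = 1 then (2 : ℚ) • T.CH.pull (t.a g) z else 0) - T.CH.pull (t.a g) z := by
    intro g
    rcases Int.units_eq_one_or (t.χ g) with hg | hg
    · rw [hg, if_pos rfl, two_smul]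
      simp
    · rw [hg, if_neg (by decide)]
      simp
  unfold GroupTest.proj
  rw [RingData.smul_act, RingData.sum_act]
  have h1 : ∀ g, T.CH.act ((((t.χ g : ℤˣ) : ℤ) : ℚ) • T.CH.gt (t.a g)) z =
      (((t.χ g : ℤˣ) : ℤ) : ℚ) • T.CH.pull (t.a g) z := by
    intro g
    rw [RingData.smul_act, RingData.act_gt]
  rw [Finset.sum_congr rfl fun g _ => (h1 g).trans (hchi g), Finset.sum_sub_distrib, hall,
    ← Finset.sum_filter, ← Finset.smul_sum, hker', smul_zero, sub_zero, smul_zero]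

/-- group tests on varieties of the class `K` vanish on homologically trivial cycles outside
of the interval -/
theorem van_groupTests {K : V → Prop} (hQ : Q1On T K) (hG : GodeauxSerreOn T K) :
    ∀ t ∈ groupTests T K, t.Van := by
  rintro _ ⟨s, hs, hK, rfl⟩ m z hz h
  exact van_proj hQ hG hs hK hz h

end Pool.Agent.Lib.MP_32dfd1_ag.Pur
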