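import Mathlib
import Pool.Agent.Lib.MP_32dfd1_ag.Pur.PieceDefs
import Pool.Agent.Lib.MP_32dfd1_ag.Pur.Surf
import Pool.Agent.Lib.MP_32dfd1_ag.Pur.Abel
import Pool.Agent.Lib.MP_32dfd1_ag.Pur.Van
import Pool.Agent.Lib.MP_32dfd1_ag.Pur.Group
import Pool.Agent.Lib.MP_32dfd1_ag.Pur.Murre
import Pool.Agent.Lib.MP_32dfd1_ag.Pur.Hull

set_option autoImplicit false
set_option linter.unusedSectionVars false

/-!
# Q1 and the conjectures of Murre, Bloch and Beilinson for the hull of a class of pieces
-/

namespace Pool.Agent.Lib.MP_32dfd1_ag.Pur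

open CategoryTheory MonoidalCategory CartesianMonoidalCategory Pool.Agent.Lib.MP_32dfd1_ag.Cyc
  Pool.Agent.Lib.MP_32dfd1_ag.Par Pool.Agent.Lib.MP_32dfd1_ag.Sur

universe u v w

variable {V : Type u} [Category.{v} V] [CartesianMonoidalCategory V]
  {T : CycleData.{u, v, w} V} [T.Textbook]
  (hC : ∀ (X : V) (x y : T.CH.R X), x * y = y * x)

include hC in
/-- the general statement -/
theorem general {K : V → Prop} (hK : ∀ X Y : V, K X → K Y → K (X ⊗ Y))
    (hG : GodeauxSerreOn T K) (hQ : Q1On T K) :
    ExteriorVanishOn T (Pure T (groupTests T K)) ∧ FullMurreOn T (Pure T (groupTests T K)) :=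
  ⟨exteriorVanish_pure hC (van_groupTests hQ hG) (prodClosed_groupTests hC hK),
    fullMurre_pure hC coh_groupTests (van_groupTests hQ hG) (prodClosed_groupTests hC hK)⟩

include hC in
/-- summands up to Tate motives of pure varieties are pure -/
theorem pure_summandOf {K : V → Prop} (h1 : K (𝟙_ V)) {X Y : V} (h : SummandOf T X Y)
    (hY : Pure T (groupTests T K) Y) : Pure T (groupTests T K) X := by
  obtain ⟨n, q, g, g', hq, hg, hg', ht⟩ := h
  have h2 := sharp_conj hg hg' hY
  rw [comp_diag_right T.CH hC] at h2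
  have h3 := Submodule.sub_mem _ h2 (tateSum_le_sharp h1 X ht)
  rw [sub_sub_cancel] at h3
  have h4 := Submodule.smul_mem (Sharp T (groupTests T K) X) q⁻¹ h3
  rwa [smul_smul, inv_mul_cancel₀ hq, one_smul] at h4

variable [BraidedCategory V]

include hC in
theorem hull_pow {B : V → Prop} (A : AbVar T) (hA : Hull T B A.A) (N : ℕ) :
    Hull T B (A.pow N).A := by
  induction N with
  | zero => exact hull_of_product (.unit)
  | succ N ih => exact hull_tensor hC ih hA

include hC in
/-- the pieces are pure -/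
theorem piece_pure (hP : Points T) {B : V → Prop} {X : V} (hX : B X)
    (h : Piece T (Hull T B) X) : Pure T (groupTests T (Hull T B)) X := by
  have h1 : Hull T B (𝟙_ V) := hull_of_product .unit
  cases h with
  | abelian A => exact Abel.abelian_pure A hC (hull_pow hC A (hull_of hX))
  | surface _ D hd hD hS hA =>
    exact pure_surface hC hP h1 hd hD (hull_tensor hC hS hS)
      (Abel.abelian_pure D.A hC (hull_pow hC D.A hA))
  | evenSurface _ hd ho =>
    exact pure_evenSurface hC hP h1 hd ho (hull_tensor hC (hull_of hX) (hull_of hX))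
  | cover _ ι h => exact pure_cover hC h1 h (hull_of hX)
  | hypersurface _ Y ι h hY hXY =>
    exact pure_summandOf hC h1 hXY (pure_cover hC h1 h hY)

include hC in
/-- the varieties in the hull of a class of pieces are pure -/
theorem hull_pure (hP : Points T) {B : V → Prop} (hB : ∀ X, B X → Piece T (Hull T B) X)
    {X : V} (h : Hull T B X) : Pure T (groupTests T (Hull T B)) X :=
  pure_of_hull hC (prodClosed_groupTests hC fun _ _ => hull_tensor hC)
    (Abel.abelian_pure (AbVar.unit T) hC (hull_pow hC _ (hull_of_product .unit)))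
    (fun _ hX => piece_pure hC hP hX (hB _ hX)) h

include hC in
theorem pieces_tfae (hP : Points T) {B : V → Prop} (hB : ∀ X, B X → Piece T (Hull T B) X)
    (hG : GodeauxSerreOn T (Hull T B)) :
    [Q1On T (Hull T B), OneStepOn T (Hull T B),
      FullMurreOn T (Hull T B) ∧ HomCorrOn T (Hull T B)].TFAE ∧
    (Q1On T (Hull T B) → ExteriorVanishOn T (Hull T B)) := by
  have h : Q1On T (Hull T B) →
      ExteriorVanishOn T (Hull T B) ∧ FullMurreOn T (Hull T B) := by
    intro hQ
    obtain ⟨h1, h2⟩ := general hC (fun _ _ => hull_tensor hC) hG hQ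
    exact ⟨exteriorVanish_mono (fun X hX => hull_pure hC hP hB hX) h1,
      fullMurre_mono (fun X hX => hull_pure hC hP hB hX) h2⟩
  exact ⟨tfae_of h (fun _ _ => hull_tensor hC), fun hQ => (h hQ).1⟩

end Pool.Agent.Lib.MP_32dfd1_ag.Pur
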