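import Mathlib
import Pool.Agent.Lib.MP_32dfd1_ag.Pur.Defs

set_option autoImplicit false

/-!
# Smooth hypersurfaces of degree `d` and their joins (definitions)

Let `X = {f(x) = 0}`, `X' = {g(y) = 0}` be smooth hypersurfaces of degree `d` and dimensions `n`,
`n'`, and `X'' = {f(x) + g(y) = 0}`, a smooth hypersurface of degree `d` and dimension `n + n' + 2`
which contains `X` (`y = 0`) and `X'` (`x = 0`).  Let `b : Z ⟶ X''` be the blow-up in `X` and `X'`,

`Z = {([x], [y], [s : t]) | s^d f(x) + t^d g(y) = 0}`, `b([x], [y], [s : t]) = [s x : t y]`,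

`i : D = X × P^(n'+1) ⟶ Z` (`t = 0`), `i' : D' = P^(n+1) × X' ⟶ Z` (`s = 0`) the exceptional
divisors, with projections `r : D ⟶ X`, `r' : D' ⟶ X'`, and
`j : E = {([x], [y], [s : t]) | f(x) = 0 = g(y)} ⟶ Z`, which is the strict transform of the join
of `X` and `X'`, the union of the lines which connect points of `X` with points of `X'`.
`p : E ⟶ X × X'` is a bundle of projective lines, `s : X × X' ⟶ E` (`t = 0`) and `s'` (`s = 0`) are
two sections, and `e : X × X' ⟶ D`, `e' : X × X' ⟶ D'` are the inclusions.  The divisor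
`f(x) = 0` on `Z` is `E + d D`, so the normal bundle of `E` in `Z` has degree `- d` on
the lines.
-/

namespace Pool.Agent.Lib.MP_32dfd1_ag.Pur

open CategoryTheory MonoidalCategory CartesianMonoidalCategory Pool.Agent.Lib.MP_32dfd1_ag.Cyc
  Pool.Agent.Lib.MP_32dfd1_ag.Par Pool.Agent.Lib.MP_32dfd1_ag.Sur

universe u v w

variable {V : Type u} [Category.{v} V] [CartesianMonoidalCategory V]

/-- `h` is the class of a hyperplane section of a smooth hypersurface `X` of degree `d` and
dimension `n`: `deg h^n = d`, and by the theorem of Lefschetz (and Poincare duality) `H^j(X)`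
is spanned by a power of `h` for `j ≠ n`. -/
structure IsHypersurface (T : CycleData.{u, v, w} V) (d : ℕ) (X : V) (n : ℕ) (h : T.CH.R X) :
    Prop where
  dim_eq : T.dim X = n
  mem : T.CH.InDeg h 1
  degree : T.CH.dir (toUnit X) (T.CH.pow' h n) = T.CH.num (𝟙_ V) d
  lefschetz : ∀ j : ℤ, j ≠ n → ∀ x, T.H.InDeg x j →
    x ∈ T.H.spn {y | ∃ k : ℕ, j = 2 * k ∧ y = T.cls (T.CH.pow' h k)}

/-- The varieties and morphisms in the construction of the join. -/
structure JoinData (X X' X'' : V) where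
  /-- the blow-up of `X''` in `X` and `X'` -/
  Z : V
  b : Z ⟶ X''
  /-- the exceptional divisors -/
  D : V
  D' : V
  i : D ⟶ Z
  i' : D' ⟶ Z
  r : D ⟶ X
  r' : D' ⟶ X'
  /-- the strict transform of the join of `X` and `X'`, a bundle of projective lines -/
  E : V
  j : E ⟶ Z
  p : E ⟶ X ⊗ X'
  s : X ⊗ X' ⟶ E
  s' : X ⊗ X' ⟶ E
  e : X ⊗ X' ⟶ D
  e' : X ⊗ X' ⟶ D'

/-- Base change for the transversal intersection `Y` of `i : D ⟶ Z` and `j : E ⟶ Z`, with the
inclusions `e : Y ⟶ D` and `s : Y ⟶ E` (also for the products with a variety `W`). -/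
def TransversalSquare (R : RingData.{u, v, w} V) {Y D E Z : V} (i : D ⟶ Z) (j : E ⟶ Z)
    (e : Y ⟶ D) (s : Y ⟶ E) : Prop :=
  ∀ (W : V) (y : R.R (D ⊗ W)), R.inv (j ▷ W) (R.dir (i ▷ W) y) = R.dir (s ▷ W) (R.inv (e ▷ W) y)

/-- The self-intersection formula; `c` is the first Chern class of the normal bundle of `E`. -/
def SelfIntersection (R : RingData.{u, v, w} V) {E Z : V} (j : E ⟶ Z) (c : R.R E) : Prop :=
  ∀ (W : V) (y : R.R (E ⊗ W)), R.inv (j ▷ W) (R.dir (j ▷ W) y) = R.mul' (R.inv (fst E W) c) y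

/-- The classes on `Z × W` which come from the exceptional divisor `i : D ⟶ Z`, `r : D ⟶ X`. -/
def exceptional (R : RingData.{u, v, w} V) {X D Z : V} (i : D ⟶ Z) (r : D ⟶ X) (ζ : R.R D)
    (W : V) : Submodule ℚ (R.R (Z ⊗ W)) :=
  R.spn {x | ∃ (k : ℕ) (y : R.R (X ⊗ W)),
    x = R.dir (i ▷ W) (R.mul' (R.inv (fst D W) (R.pow' ζ k)) (R.inv (r ▷ W) y))}

/-- The formula for the blow-up `b : Z ⟶ X''` in `X` and `X'`: `u - b^* b_* u` comes from the
exceptional divisors `D` and `D'`; `ζ` and `ζ'` restrict to the class of a hyperplane on the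
fibres of `r : D ⟶ X` and `r' : D' ⟶ X'`. -/
def BlowupFormula (R : RingData.{u, v, w} V) {X X' X'' : V} (J : JoinData X X' X'')
    (ζ : R.R J.D) (ζ' : R.R J.D') : Prop :=
  ∀ (W : V) (u : R.R (J.Z ⊗ W)), R.sub' u (R.inv (J.b ▷ W) (R.dir (J.b ▷ W) u)) ∈
    exceptional R J.i J.r ζ W ⊔ exceptional R J.i' J.r' ζ' W

/-- Dimensions and compatibility of the morphisms. -/
structure JoinData.IsGood (T : CycleData.{u, v, w} V) {X X' X'' : V} (J : JoinData X X' X'') :
    Prop where
  dim_X : T.dim X'' = T.dim X + T.dim X' + 2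
  dim_E : T.dim J.E = T.dim X + T.dim X' + 1
  s_p : J.s ≫ J.p = 𝟙 (X ⊗ X')
  s_p' : J.s' ≫ J.p = 𝟙 (X ⊗ X')
  e_r : J.e ≫ J.r = fst X X'
  e_r' : J.e' ≫ J.r' = snd X X'

/-- The bundle of projective lines `E = P(O(-1, 0) ⊕ O(0, -1))` over `X × X'`: `η = c_1(O_E(1))`
has degree `1` on the lines and satisfies the relation `(η - h) (η - h') = 0`. -/
structure LineBundleRelation (R : RingData.{u, v, w} V) {E X X' : V} (p : E ⟶ X ⊗ X')
    (h : R.R X) (h' : R.R X') (η : R.R E) : Prop where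
  line : R.dir p η = R.num (X ⊗ X') 1
  relation : R.IsZero (R.mul' (R.sub' η (R.inv (p ≫ fst X X') h))
    (R.sub' η (R.inv (p ≫ snd X X') h')))

/-- Textbook properties of the construction of the join: the formula for blow-ups, base change for
the transversal intersections of `E` with `D` and `D'`, the self-intersection formula for `E`,
and the relation for the inverse image `η` of the class of a hyperplane section of `X''`. -/
structure IsJoin (T : CycleData.{u, v, w} V) (d : ℕ) {X X' X'' : V} (h : T.CH.R X)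
    (h' : T.CH.R X') (h'' : T.CH.R X'') (J : JoinData X X' X'') : Prop where
  good : J.IsGood T
  blowup : ∃ ζ ζ', T.CH.inv J.e ζ = T.CH.inv (snd X X') h' ∧
    T.CH.inv J.e' ζ' = T.CH.inv (fst X X') h ∧ BlowupFormula T.CH J ζ ζ'
  square : TransversalSquare T.CH J.i J.j J.e J.s
  square' : TransversalSquare T.CH J.i' J.j J.e' J.s'
  normal : ∃ c, T.CH.dir J.p c = T.CH.num (X ⊗ X') (-d) ∧ SelfIntersection T.CH J.j c
  line : LineBundleRelation T.CH J.p h h' (T.CH.inv (J.j ≫ J.b) h'')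

/-- `K` consists of smooth hypersurfaces of degree `d`, with classes `h X` of hyperplane sections
for `X` in `K`, and it is closed under joins.  For instance all smooth hypersurfaces of degree `d`
and dimension `≥ n₀`, for any `n₀ ≥ 1`. -/
structure HypersurfaceClass (T : CycleData.{u, v, w} V) (d : ℕ) (K : V → Prop) where
  n : V → ℕ
  h : (X : V) → T.CH.R X
  hyp : ∀ X, K X → IsHypersurface T d X (n X) (h X)
  join : ∀ X X', K X → K X' → ∃ (X'' : V) (J : JoinData X X' X''), K X'' ∧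
    IsJoin T d (h X) (h X') (h X'') J

/-- The members of `K` of dimension at least `N`. -/
def DimAtLeast (T : CycleData.{u, v, w} V) (K : V → Prop) (N : ℤ) : V → Prop :=
  fun X => K X ∧ N ≤ T.dim X

/-- There is a cycle class `ξ` of codimension `m` on a hypersurface `X` in `K` of dimension `2m`
with `deg (ξ h^m) = 0` and `deg (ξ ξ) ≠ 0`.  For instance the difference of two lines on the
Fermat surface of degree `d ≥ 2`. -/
def PrimitiveCycle (T : CycleData.{u, v, w} V) {d : ℕ} {K : V → Prop}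
    (S : HypersurfaceClass T d K) : Prop :=
  ∃ (X : V) (m : ℕ) (ξ : T.CH.R X) (c : ℚ), K X ∧ S.n X = 2 * m ∧ T.CH.InDeg ξ m ∧
    T.CH.IsZero (T.CH.dir (toUnit X) (T.CH.mul' ξ (T.CH.pow' (S.h X) m))) ∧ c ≠ 0 ∧
    T.CH.dir (toUnit X) (T.CH.mul' ξ ξ) = T.CH.num (𝟙_ V) c

/-- exterior product of classes -/
def ext (R : RingData.{u, v, w} V) {X Y : V} (α : R.R X) (β : R.R Y) : R.R (X ⊗ Y) :=
  R.pull (fst X Y) α * R.pull (snd X Y) β

/-- The primitive projector `Δ - (1 / d) ∑ h^k × h^(n-k)`. -/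
noncomputable def prim (T : CycleData.{u, v, w} V) (d : ℕ) {X : V} (n : ℕ) (h : T.CH.R X) :
    T.CH.R (X ⊗ X) :=
  T.CH.diag X - (d : ℚ)⁻¹ • ∑ k ∈ Finset.range (n + 1), ext T.CH (h ^ k) (h ^ (n - k))

/-- The test object of a point. -/
noncomputable def pointTest (T : CycleData.{u, v, w} V) : Test T where
  Y := 𝟙_ V
  e := T.CH.diag (𝟙_ V)
  lo := 0
  hi := 0

/-- The test object of a hypersurface. -/
noncomputable def primTest (T : CycleData.{u, v, w} V) (d : ℕ) (X : V) (n : ℕ) (h : T.CH.R X) :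
    Test T where
  Y := X
  e := prim T d n h
  lo := n
  hi := n

/-- The point and the hypersurfaces in `K`. -/
def hypTests {T : CycleData.{u, v, w} V} {d : ℕ} {K : V → Prop} (S : HypersurfaceClass T d K) :
    Set (Test T) :=
  {t | t = pointTest T ∨ ∃ X, K X ∧ t = primTest T d X (S.n X) (S.h X)}

end Pool.Agent.Lib.MP_32dfd1_ag.Pur
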