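import Mathlib
import Pool.Agent.Lib.MP_32dfd1_ag.Pur.Ideal
import Pool.Agent.Lib.MP_32dfd1_ag.Pur.HypDefs

set_option autoImplicit false
set_option linter.unusedSectionVars false

/-!
# Exterior products and spans
-/

namespace Pool.Agent.Lib.MP_32dfd1_ag.Pur.Hyp

open CategoryTheory MonoidalCategory CartesianMonoidalCategory Pool.Agent.Lib.MP_32dfd1_ag.Cyc
  Pool.Agent.Lib.MP_32dfd1_ag.Par Pool.Agent.Lib.MP_32dfd1_ag.Sur

universe u v w

variable {V : Type u} [Category.{v} V] [CartesianMonoidalCategory V]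

section

variable (R : RingData.{u, v, w} V) [R.Functorial] [R.Direct] [R.Formulas]

/-- external products of correspondences given by spans -/
theorem ep_span {U U' X X' Y Y' : V} (f : U ⟶ X) (g : U ⟶ Y) (f' : U' ⟶ X') (g' : U' ⟶ Y')
    (w : R.R U) (w' : R.R U') :
    ep R (R.push (lift f g) w) (R.push (lift f' g') w') =
      R.push (lift (f ⊗ₘ f') (g ⊗ₘ g')) (R.pull (fst U U') w * R.pull (snd U U') w') := by
  rw [ep_eq, ← push_product]
  have h := RingData.pull_push_iso R (Iso.refl (U ⊗ U')) (four X X' Y Y')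
    (lift (f ⊗ₘ f') (g ⊗ₘ g')) (lift f g ⊗ₘ lift f' g') (by ext <;> simp [four])
    (R.pull (fst U U') w * R.pull (snd U U') w')
  rw [h, Iso.refl_hom, R.pull_id]

/-- the correspondence `X ⟶ pt` given by a class -/
def toPt {X : V} (α : R.R X) : R.R (X ⊗ 𝟙_ V) := R.pull (fst X (𝟙_ V)) α

/-- the correspondence `pt ⟶ X` given by a class -/
def ofPt {X : V} (α : R.R X) : R.R (𝟙_ V ⊗ X) := R.pull (snd (𝟙_ V) X) α

/-- `X ⟶ X × pt` -/
def rUnit (X : V) : X ≅ X ⊗ 𝟙_ V where
  hom := lift (𝟙 X) (toUnit X)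
  inv := fst X (𝟙_ V)
  hom_inv_id := by simp
  inv_hom_id := by
    ext
    simp

/-- `X ⟶ pt × X` -/
def lUnit (X : V) : X ≅ 𝟙_ V ⊗ X where
  hom := lift (toUnit X) (𝟙 X)
  inv := snd (𝟙_ V) X
  hom_inv_id := by simp
  inv_hom_id := by
    ext
    simp

theorem toPt_eq {X : V} (α : R.R X) : toPt R α = R.push (lift (𝟙 X) (toUnit X)) α :=
  (R.push_iso (rUnit X) α).symm

theorem ofPt_eq {X : V} (α : R.R X) : ofPt R α = R.push (lift (toUnit X) (𝟙 X)) α :=
  (R.push_iso (lUnit X) α).symm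

theorem toPt_comp {X Z : V} (α : R.R X) (d : R.R (𝟙_ V ⊗ Z)) :
    R.comp (toPt R α) d = R.pull (fst X Z) α * R.pull (toUnit X ▷ Z) d := by
  rw [toPt_eq, span_comp, id_whiskerRight, R.push_id]

theorem toPt_ofPt {X Y : V} (α : R.R X) (β : R.R Y) :
    R.comp (toPt R α) (ofPt R β) = ext R α β := by
  rw [toPt_comp]
  unfold ofPt ext
  rw [← R.pull_comp, whiskerRight_snd]

theorem ofPt_comp {X Z : V} (α : R.R X) (d : R.R (X ⊗ Z)) :
    R.comp (ofPt R α) d = R.push (toUnit X ▷ Z) (R.pull (fst X Z) α * d) := by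
  rw [ofPt_eq, span_comp, id_whiskerRight, R.pull_id]

theorem ofPt_toPt {X : V} (β η : R.R X) :
    R.comp (ofPt R β) (toPt R η) = R.pull (fst (𝟙_ V) (𝟙_ V)) (R.push (toUnit X) (β * η)) := by
  rw [ofPt_comp, R.base_change]
  unfold toPt
  rw [map_mul (R.pull _)]

theorem ext_toPt {X Y : V} (α : R.R X) (β η : R.R Y) (c : ℚ)
    (h : R.push (toUnit Y) (β * η) = c • 1) :
    R.comp (ext R α β) (toPt R η) = c • toPt R α := by
  rw [← toPt_ofPt, comp_assoc, ofPt_toPt, h, map_smul, map_one (R.pull _), comp_smul, toPt_comp,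
    map_one (R.pull _), mul_one]
  rfl

/-- the inverse image of the degree -/
theorem push_snd_pull_fst {X Y : V} (x : R.R X) :
    R.push (snd X Y) (R.pull (fst X Y) x) = R.pull (toUnit Y) (R.push (toUnit X) x) := by
  have h := R.base_change (toUnit X) Y x
  have h2 : toUnit Y = (lUnit Y).hom ≫ fst (𝟙_ V) Y := toUnit_unique _ _
  have h3 : snd X Y = (toUnit X ▷ Y) ≫ (lUnit Y).inv := by
    change _ = _ ≫ snd (𝟙_ V) Y
    simp
  rw [h2, R.pull_comp, h, h3, R.push_comp]
  exact R.push_iso (lUnit Y).symm _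

/-- the action of an exterior product -/
theorem act_ext {X Y : V} (α z : R.R X) (β : R.R Y) (c : ℚ)
    (h : R.push (toUnit X) (z * α) = c • 1) : R.act (ext R α β) z = c • β := by
  unfold RingData.act ext
  rw [← mul_assoc, ← map_mul (R.pull _), R.proj_right, push_snd_pull_fst, h, map_smul,
    map_one (R.pull _), smul_mul_assoc, one_mul]

/-- `Δ × (X' ⟶ pt)` as a span -/
theorem ep_diag_toPt (X : V) {X' : V} (η : R.R X') :
    ep R (R.diag X) (toPt R η) = R.push (lift (𝟙 (X ⊗ X')) (X ◁ toUnit X'))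
      (R.pull (snd X X') η) := by
  rw [toPt_eq]
  unfold RingData.diag
  rw [ep_span, map_one (R.pull _), one_mul]
  congr 2
  ext <;> simp

/-- `(X ⟶ pt) × Δ` as a span -/
theorem ep_toPt_diag {X : V} (X' : V) (η : R.R X) :
    ep R (toPt R η) (R.diag X') = R.push (lift (𝟙 (X ⊗ X')) (toUnit X ▷ X'))
      (R.pull (fst X X') η) := by
  rw [toPt_eq]
  unfold RingData.diag
  rw [ep_span, map_one (R.pull _), mul_one]
  congr 2
  ext <;> simp

variable (hC : ∀ (X : V) (x y : R.R X), x * y = y * x)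

include hC in
/-- A projector `π'` with `π' ∘ η = 0` kills the correspondences
`z ↦ w_*(pr_1_*(z · pr_2^* η))`. -/
theorem kill_right {X X' W : V} {π : R.R (X ⊗ X)} {π' : R.R (X' ⊗ X')} {η : R.R X'}
    (h : R.comp π' (toPt R η) = 0) (w : R.R (X ⊗ W)) :
    R.comp (ep R π π') (R.pull (fst (X ⊗ X') W) (R.pull (snd X X') η) *
      R.pull (fst X X' ▷ W) w) = 0 := by
  have h1 : R.pull (fst (X ⊗ X') W) (R.pull (snd X X') η) * R.pull (fst X X' ▷ W) w =
      R.comp (ep R (R.diag X) (toPt R η)) (R.pull (fst X (𝟙_ V) ▷ W) w) := by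
    rw [ep_diag_toPt, span_comp, id_whiskerRight, R.push_id, ← R.pull_comp _ (fst X (𝟙_ V) ▷ W),
      ← comp_whiskerRight, whiskerLeft_fst]
  rw [h1, ← comp_assoc, comp_ep R hC, h, ep_zero]
  unfold RingData.comp
  rw [map_zero, zero_mul, map_zero]

include hC in
theorem kill_left {X X' W : V} {π : R.R (X ⊗ X)} {π' : R.R (X' ⊗ X')} {η : R.R X}
    (h : R.comp π (toPt R η) = 0) (w : R.R (X' ⊗ W)) :
    R.comp (ep R π π') (R.pull (fst (X ⊗ X') W) (R.pull (fst X X') η) *
      R.pull (snd X X' ▷ W) w) = 0 := by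
  have h1 : R.pull (fst (X ⊗ X') W) (R.pull (fst X X') η) * R.pull (snd X X' ▷ W) w =
      R.comp (ep R (toPt R η) (R.diag X')) (R.pull (snd (𝟙_ V) X' ▷ W) w) := by
    rw [ep_toPt_diag, span_comp, id_whiskerRight, R.push_id, ← R.pull_comp _ (snd (𝟙_ V) X' ▷ W),
      ← comp_whiskerRight, whiskerRight_snd]
  rw [h1, ← comp_assoc, comp_ep R hC, h, zero_ep]
  unfold RingData.comp
  rw [map_zero, zero_mul, map_zero]

include hC in
/-- the projector kills exterior products with products of powers -/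
theorem kill_ext {X X' W : V} {π : R.R (X ⊗ X)} {π' : R.R (X' ⊗ X')} {η' : R.R X'}
    (h : R.comp π' (toPt R η') = 0) (η : R.R X) (β : R.R W) :
    R.comp (ep R π π') (ext R (R.pull (fst X X') η * R.pull (snd X X') η') β) = 0 := by
  have h1 : ext R (R.pull (fst X X') η * R.pull (snd X X') η') β =
      R.pull (fst (X ⊗ X') W) (R.pull (snd X X') η') * R.pull (fst X X' ▷ W) (ext R η β) := by
    unfold ext
    rw [map_mul (R.pull _), map_mul (R.pull (fst X X' ▷ W)), ← R.pull_comp _ (fst X W),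
      ← R.pull_comp _ (snd X W), whiskerRight_fst, whiskerRight_snd, R.pull_comp _ (fst X X'),
      hC _ (R.pull (fst (X ⊗ X') W) (R.pull (fst X X') η)), mul_assoc]
  rw [h1]
  exact kill_right R hC h _

/-- composition of a span with an exterior product -/
theorem span_ext {U X Y W : V} (f : U ⟶ X) (g : U ⟶ Y) (α : R.R Y) (β : R.R W) :
    R.comp (R.push (lift f g) 1) (ext R α β) = ext R (R.push f (R.pull g α)) β := by
  rw [span_comp, map_one (R.pull _), one_mul]
  unfold ext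
  rw [map_mul (R.pull _), ← R.pull_comp, ← R.pull_comp, whiskerRight_fst, whiskerRight_snd,
    R.base_change, ← R.proj_right, R.pull_comp (fst U W) g, ← R.pull_comp (f ▷ W) (snd X W),
    whiskerRight_snd]

end

end Pool.Agent.Lib.MP_32dfd1_ag.Pur.Hyp
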