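import Mathlib
import Pool.Agent.Lib.MP_32dfd1_ag.Pur.Ideal
import Pool.Agent.Lib.MP_32dfd1_ag.Pur.HypDefs
import Pool.Agent.Lib.MP_32dfd1_ag.Pur.HypExt

set_option autoImplicit false
set_option linter.unusedSectionVars false

/-!
# The join of two hypersurfaces
-/

namespace Pool.Agent.Lib.MP_32dfd1_ag.Pur.Hyp

open CategoryTheory MonoidalCategory CartesianMonoidalCategory Pool.Agent.Lib.MP_32dfd1_ag.Cyc
  Pool.Agent.Lib.MP_32dfd1_ag.Par Pool.Agent.Lib.MP_32dfd1_ag.Sur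

universe u v w

variable {V : Type u} [Category.{v} V] [CartesianMonoidalCategory V]
  {T : CycleData.{u, v, w} V} [T.Textbook] {d : ℕ} {X X' X'' : V} {h : T.CH.R X}
  {h' : T.CH.R X'} {h'' : T.CH.R X''}

/-- the correspondence `X × X' ⟶ X''` of degree `1` given by the join -/
def joinA (T : CycleData.{u, v, w} V) (J : JoinData X X' X'') : T.CH.R ((X ⊗ X') ⊗ X'') :=
  T.CH.push (lift J.p (J.j ≫ J.b)) 1

/-- the correspondence `X'' ⟶ X × X'` of degree `- 1` given by the join -/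
def joinB (T : CycleData.{u, v, w} V) (J : JoinData X X' X'') : T.CH.R (X'' ⊗ (X ⊗ X')) :=
  T.CH.push (lift (J.j ≫ J.b) J.p) 1

theorem joinA_mem {J : JoinData X X' X''} (hJ : IsJoin T d h h' h'' J) :
    joinA T J ∈ T.CH.gr ((X ⊗ X') ⊗ X'') (T.dim (X ⊗ X') + 1) := by
  refine T.gr_congr (T.CH_push_mem _ (T.CH.one_mem _)) ?_
  rw [T.dim_tensor, T.dim_tensor, hJ.good.dim_E, hJ.good.dim_X]
  ring

theorem joinB_mem {J : JoinData X X' X''} (hJ : IsJoin T d h h' h'' J) :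
    joinB T J ∈ T.CH.gr (X'' ⊗ (X ⊗ X')) (T.dim X'' - 1) := by
  refine T.gr_congr (T.CH_push_mem _ (T.CH.one_mem _)) ?_
  rw [T.dim_tensor, T.dim_tensor, hJ.good.dim_E, hJ.good.dim_X]
  ring

theorem zero_comp {R : RingData.{u, v, w} V} {X Y Z : V} (c : R.R (Y ⊗ Z)) :
    R.comp (0 : R.R (X ⊗ Y)) c = 0 := map_zero (compR R c)

theorem comp_zero {R : RingData.{u, v, w} V} {X Y Z : V} (c : R.R (X ⊗ Y)) :
    R.comp c (0 : R.R (Y ⊗ Z)) = 0 := map_zero (compL R c)

theorem lift_whisker {E Z Y W : V} (j : E ⟶ Z) (b : Z ⟶ Y) (p : E ⟶ W) :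
    lift (j ≫ b) p = lift (𝟙 E) p ≫ j ▷ W ≫ b ▷ W := by
  ext <;> simp

theorem lift_whisker' {E W : V} (p : E ⟶ W) :
    lift (𝟙 E) p ≫ p ▷ W = p ≫ lift (𝟙 W) (𝟙 W) := by
  ext <;> simp

variable (hC : ∀ (X : V) (x y : T.CH.R X), x * y = y * x)

/-- the product of powers of `h` and `h'` in `CH(X × X')` -/
def hh (T : CycleData.{u, v, w} V) (h : T.CH.R X) (h' : T.CH.R X') :
    Submodule ℚ (T.CH.R (X ⊗ X')) :=
  Submodule.span ℚ {x | ∃ a b : ℕ, x = T.CH.pull (fst X X') (h ^ a) *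
    T.CH.pull (snd X X') (h' ^ b)}

theorem one_mem_hh : (1 : T.CH.R (X ⊗ X')) ∈ hh T h h' :=
  Submodule.subset_span ⟨0, 0, by rw [pow_zero, pow_zero, map_one, map_one, mul_one]⟩

theorem fst_mul_hh {x : T.CH.R (X ⊗ X')} (hx : x ∈ hh T h h') :
    T.CH.pull (fst X X') h * x ∈ hh T h h' := by
  unfold hh at hx
  induction hx using Submodule.span_induction with
  | zero => rw [mul_zero]; exact Submodule.zero_mem _
  | add x y _ _ hx hy => rw [mul_add]; exact Submodule.add_mem _ hx hy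
  | smul q x _ hx => rw [mul_smul_comm]; exact Submodule.smul_mem _ _ hx
  | mem x hx =>
    obtain ⟨a, b, rfl⟩ := hx
    refine Submodule.subset_span ⟨a + 1, b, ?_⟩
    rw [pow_succ', map_mul (T.CH.pull _), mul_assoc]

include hC in
theorem snd_mul_hh {x : T.CH.R (X ⊗ X')} (hx : x ∈ hh T h h') :
    T.CH.pull (snd X X') h' * x ∈ hh T h h' := by
  unfold hh at hx
  induction hx using Submodule.span_induction with
  | zero => rw [mul_zero]; exact Submodule.zero_mem _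
  | add x y _ _ hx hy => rw [mul_add]; exact Submodule.add_mem _ hx hy
  | smul q x _ hx => rw [mul_smul_comm]; exact Submodule.smul_mem _ _ hx
  | mem x hx =>
    obtain ⟨a, b, rfl⟩ := hx
    refine Submodule.subset_span ⟨a, b + 1, ?_⟩
    rw [pow_succ', map_mul (T.CH.pull _), ← mul_assoc, ← mul_assoc,
      hC _ (T.CH.pull (snd X X') h')]

/-- `p_* 1 = 0` for the bundle of lines -/
theorem push_one {J : JoinData X X' X''} (hJ : IsJoin T d h h' h'' J) :
    T.CH.push J.p (1 : T.CH.R J.E) = 0 := by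
  have h1 : T.CH.push J.p (1 : T.CH.R J.E) ∈ T.CH.gr (X ⊗ X') (-1) := by
    refine T.gr_congr (T.CH_push_mem _ (T.CH.one_mem _)) ?_
    rw [T.dim_tensor, hJ.good.dim_E]
    ring
  refine T.CH_zero (X ⊗ X') (-1) _ (by norm_num) ⟨h1, ?_⟩
  have h2 := T.cl_mem _ _ _ h1
  rwa [T.H_bot _ _ (Or.inl (by norm_num)), Submodule.mem_bot] at h2

include hC in
/-- the direct images of the powers of the class `η` are polynomials in `h`, `h'` -/
theorem push_line {J : JoinData X X' X''} (hJ : IsJoin T d h h' h'' J) (k : ℕ) :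
    T.CH.push J.p (T.CH.pull (J.j ≫ J.b) (h'' ^ k)) ∈ hh T h h' := by
  have key : ∀ k : ℕ, ∃ a ∈ hh T h h', ∃ b ∈ hh T h h', T.CH.pull (J.j ≫ J.b) (h'' ^ k) =
      T.CH.pull J.p a + T.CH.pull J.p b * T.CH.pull (J.j ≫ J.b) h'' := by
    intro k
    induction k with
    | zero =>
      exact ⟨1, one_mem_hh, 0, Submodule.zero_mem _, by
        rw [pow_zero, map_one, map_one, map_zero, zero_mul, add_zero]⟩
    | succ k ih =>
      obtain ⟨a, ha, b, hb, hab⟩ := ih
      refine ⟨-(T.CH.pull (fst X X') h * (T.CH.pull (snd X X') h' * b)),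
        Submodule.neg_mem _ (fst_mul_hh (snd_mul_hh hC hb)),
        a + (T.CH.pull (fst X X') h * b + T.CH.pull (snd X X') h' * b),
        Submodule.add_mem _ ha (Submodule.add_mem _ (fst_mul_hh hb) (snd_mul_hh hC hb)), ?_⟩
      have hrel : (T.CH.pull (J.j ≫ J.b) h'' - T.CH.pull (J.p ≫ fst X X') h) *
        (T.CH.pull (J.j ≫ J.b) h'' - T.CH.pull (J.p ≫ snd X X') h') = 0 := hJ.line.relation
      rw [T.CH.pull_comp J.p, T.CH.pull_comp J.p] at hrel
      rw [pow_succ, map_mul (T.CH.pull _), hab]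
      generalize T.CH.pull (J.j ≫ J.b) h'' = η at hrel ⊢
      rw [map_neg, map_add, map_add, map_mul (T.CH.pull J.p), map_mul (T.CH.pull J.p),
        map_mul (T.CH.pull J.p)]
      generalize T.CH.pull J.p (T.CH.pull (fst X X') h) = x at hrel ⊢
      generalize T.CH.pull J.p (T.CH.pull (snd X X') h') = y at hrel ⊢
      generalize T.CH.pull J.p a = α
      generalize T.CH.pull J.p b = β
      have h1 : η * η = x * η + y * η - x * y := by
        rw [sub_mul, mul_sub, mul_sub] at hrel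
        rw [hC _ η y] at hrel
        rw [sub_eq_zero, sub_eq_iff_eq_add] at hrel
        rw [hrel]
        abel
      rw [add_mul, mul_assoc, h1, mul_sub, mul_add, add_mul, add_mul, hC _ x (y * β),
        mul_assoc y β x, ← mul_assoc β x η, ← mul_assoc β y η, ← mul_assoc β x y, hC _ β x,
        hC _ β y, hC _ y (x * β)]
      abel
  obtain ⟨a, _, b, hb, hab⟩ := key k
  have hline : T.CH.push J.p (T.CH.pull (J.j ≫ J.b) h'') = 1 :=
    hJ.line.line.trans (one_smul ℚ _)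
  rw [hab, map_add, T.CH.proj_left, hline, mul_one]
  have h1 : T.CH.push J.p (T.CH.pull J.p a) = 0 := by
    have h2 := T.CH.proj_left J.p (1 : T.CH.R J.E) a
    rw [mul_one, push_one hJ, mul_zero] at h2
    exact h2
  rw [h1, zero_add]
  exact hb

include hC in
theorem kill_hh {W : V} {π : T.CH.R (X ⊗ X)} {π' : T.CH.R (X' ⊗ X')}
    (hπ' : ∀ k : ℕ, T.CH.comp π' (toPt T.CH (h' ^ k)) = 0) {α : T.CH.R (X ⊗ X')}
    (hα : α ∈ hh T h h') (β : T.CH.R W) :
    T.CH.comp (ep T.CH π π') (ext T.CH α β) = 0 := by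
  unfold hh at hα
  induction hα using Submodule.span_induction with
  | zero =>
    unfold ext
    rw [map_zero, zero_mul, comp_zero]
  | add x y _ _ hx hy =>
    have : ext T.CH (x + y) β = ext T.CH x β + ext T.CH y β := by
      unfold ext
      rw [map_add, add_mul]
    rw [this, comp_add, hx, hy, add_zero]
  | smul q x _ hx =>
    have : ext T.CH (q • x) β = q • ext T.CH x β := by
      unfold ext
      rw [map_smul, smul_mul_assoc]
    rw [this, comp_smul, hx, smul_zero]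
  | mem x hx =>
    obtain ⟨a, b, rfl⟩ := hx
    exact kill_ext T.CH hC (hπ' b) _ _

include hC in
/-- The composition through `X''` is multiplication by `- d` after projection. -/
theorem join_comp {J : JoinData X X' X''} (hJ : IsJoin T d h h' h'' J) {π : T.CH.R (X ⊗ X)}
    {π' : T.CH.R (X' ⊗ X')} (hπ : ∀ k : ℕ, T.CH.comp π (toPt T.CH (h ^ k)) = 0)
    (hπ' : ∀ k : ℕ, T.CH.comp π' (toPt T.CH (h' ^ k)) = 0) :
    T.CH.comp (ep T.CH π π') (T.CH.comp (joinA T J) (joinB T J)) =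
      (-(d : ℚ)) • ep T.CH π π' := by
  obtain ⟨ζ, ζ', hζ, hζ', hbl⟩ := hJ.blowup
  obtain ⟨c, hc, hself⟩ := hJ.normal
  change T.CH.pull J.e ζ = T.CH.pull (snd X X') h' at hζ
  change T.CH.pull J.e' ζ' = T.CH.pull (fst X X') h at hζ'
  change T.CH.push J.p c = (-(d : ℚ)) • 1 at hc
  have hself' : ∀ (W : V) (y : T.CH.R (J.E ⊗ W)),
    T.CH.pull (J.j ▷ W) (T.CH.push (J.j ▷ W) y) = T.CH.pull (fst J.E W) c * y := hself
  have hsq : ∀ (W : V) (y : T.CH.R (J.D ⊗ W)), T.CH.pull (J.j ▷ W) (T.CH.push (J.i ▷ W) y) =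
    T.CH.push (J.s ▷ W) (T.CH.pull (J.e ▷ W) y) := hJ.square
  have hsq' : ∀ (W : V) (y : T.CH.R (J.D' ⊗ W)), T.CH.pull (J.j ▷ W) (T.CH.push (J.i' ▷ W) y) =
    T.CH.push (J.s' ▷ W) (T.CH.pull (J.e' ▷ W) y) := hJ.square'
  -- `B` as a direct image from `Z`
  set W := X ⊗ X' with hW
  let u : T.CH.R (J.Z ⊗ W) := T.CH.push (J.j ▷ W) (gr T.CH J.p)
  have hB : joinB T J = T.CH.push (J.b ▷ W) u := by
    change T.CH.push (lift (J.j ≫ J.b) J.p) 1 =
      T.CH.push (J.b ▷ W) (T.CH.push (J.j ▷ W) (T.CH.push (lift (𝟙 J.E) J.p) 1))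
    rw [← T.CH.push_comp, ← T.CH.push_comp, ← lift_whisker]
  -- the map from correspondences `Z ⟶ W`
  let Φ : T.CH.R (J.Z ⊗ W) →ₗ[ℚ] T.CH.R (W ⊗ W) :=
    (compL T.CH (ep T.CH π π')).comp
      ((T.CH.push (J.p ▷ W)).comp (T.CH.pull (J.j ▷ W)).toLinearMap)
  have hΦ : ∀ v, Φ v = T.CH.comp (ep T.CH π π') (T.CH.push (J.p ▷ W) (T.CH.pull (J.j ▷ W) v)) :=
    fun v => rfl
  have hAB : T.CH.comp (joinA T J) (joinB T J) = T.CH.push (J.p ▷ W) (T.CH.pull (J.j ▷ W)
      (T.CH.pull (J.b ▷ W) (T.CH.push (J.b ▷ W) u))) := by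
    rw [hB]
    unfold joinA
    rw [span_comp, map_one, one_mul, comp_whiskerRight, T.CH.pull_comp]
  have h1 : T.CH.comp (ep T.CH π π') (T.CH.comp (joinA T J) (joinB T J)) =
      Φ u - Φ (u - T.CH.pull (J.b ▷ W) (T.CH.push (J.b ▷ W) u)) := by
    rw [← map_sub, hAB, hΦ]
    congr 3
    abel
  -- the corrections
  have h2 : Φ (u - T.CH.pull (J.b ▷ W) (T.CH.push (J.b ▷ W) u)) = 0 := by
    have h3 : u - T.CH.pull (J.b ▷ W) (T.CH.push (J.b ▷ W) u) ∈
      Submodule.span ℚ {x | ∃ (k : ℕ) (y : T.CH.R (X ⊗ W)),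
        x = T.CH.push (J.i ▷ W) (T.CH.pull (fst J.D W) (ζ ^ k) * T.CH.pull (J.r ▷ W) y)} ⊔
      Submodule.span ℚ {x | ∃ (k : ℕ) (y : T.CH.R (X' ⊗ W)),
        x = T.CH.push (J.i' ▷ W) (T.CH.pull (fst J.D' W) (ζ' ^ k) * T.CH.pull (J.r' ▷ W) y)} :=
      hbl W u
    rw [← Submodule.span_union] at h3
    generalize u - T.CH.pull (J.b ▷ W) (T.CH.push (J.b ▷ W) u) = v at h3
    induction h3 using Submodule.span_induction with
    | zero => exact map_zero Φ
    | add x y _ _ hx hy => rw [map_add, hx, hy, add_zero]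
    | smul q x _ hx => rw [map_smul, hx, smul_zero]
    | mem x hx =>
      rcases hx with ⟨k, y, rfl⟩ | ⟨k, y, rfl⟩
      · rw [hΦ, hsq, ← T.CH.push_comp, ← comp_whiskerRight, hJ.good.s_p, id_whiskerRight,
          T.CH.push_id, map_mul (T.CH.pull _), ← T.CH.pull_comp, ← T.CH.pull_comp,
          ← comp_whiskerRight, hJ.good.e_r, whiskerRight_fst, T.CH.pull_comp, map_pow (T.CH.pull J.e),
          hζ, ← map_pow (T.CH.pull (snd X X'))]
        exact kill_right T.CH hC (hπ' k) y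
      · rw [hΦ, hsq', ← T.CH.push_comp, ← comp_whiskerRight, hJ.good.s_p', id_whiskerRight,
          T.CH.push_id, map_mul (T.CH.pull _), ← T.CH.pull_comp, ← T.CH.pull_comp,
          ← comp_whiskerRight, hJ.good.e_r', whiskerRight_fst, T.CH.pull_comp, map_pow (T.CH.pull J.e'),
          hζ', ← map_pow (T.CH.pull (fst X X'))]
        exact kill_left T.CH hC (hπ k) y
  -- the main term
  have h4 : T.CH.push (J.p ▷ W) (T.CH.pull (J.j ▷ W) u) = (-(d : ℚ)) • T.CH.diag W := by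
    change T.CH.push (J.p ▷ W) (T.CH.pull (J.j ▷ W) (T.CH.push (J.j ▷ W) (gr T.CH J.p))) = _
    rw [hself']
    unfold gr RingData.diag
    rw [← T.CH.proj_left, ← T.CH.pull_comp, lift_fst, T.CH.pull_id, mul_one, ← T.CH.push_comp]
    rw [lift_whisker', T.CH.push_comp, hc, map_smul]
  rw [h1, h2, sub_zero, hΦ, h4, comp_smul, comp_diag_right T.CH hC]

include hC in
/-- The external product of the primitive projectors factors through the primitive projector of the
join. -/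
theorem join_factor (hd : d ≠ 0) {J : JoinData X X' X''} (hJ : IsJoin T d h h' h'' J)
    {π : T.CH.R (X ⊗ X)} {π' : T.CH.R (X' ⊗ X')}
    (hπ : ∀ k : ℕ, T.CH.comp π (toPt T.CH (h ^ k)) = 0)
    (hπ' : ∀ k : ℕ, T.CH.comp π' (toPt T.CH (h' ^ k)) = 0) (n : ℕ) :
    ep T.CH π π' = T.CH.comp (T.CH.comp (T.CH.comp (ep T.CH π π') (joinA T J))
      (prim T d n h'')) ((-(d : ℚ))⁻¹ • joinB T J) := by
  have h1 : T.CH.comp (T.CH.comp (ep T.CH π π') (joinA T J)) (prim T d n h'') =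
      T.CH.comp (ep T.CH π π') (joinA T J) := by
    unfold prim
    rw [comp_sub, comp_diag_right T.CH hC, comp_smul, comp_sum, Finset.sum_eq_zero, smul_zero,
      sub_zero]
    intro k _
    rw [comp_assoc]
    unfold joinA
    rw [span_ext]
    exact kill_hh hC hπ' (push_line hC hJ k) _
  have hd' : (-(d : ℚ)) ≠ 0 := neg_ne_zero.2 (by exact_mod_cast hd)
  rw [h1, comp_smul, comp_assoc, join_comp hC hJ hπ hπ', smul_smul, inv_mul_cancel₀ hd', one_smul]

end Pool.Agent.Lib.MP_32dfd1_ag.Pur.Hyp
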