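import Mathlib
import Pool.Agent.Lib.MP_32dfd1_ag.Pur.Ideal
import Pool.Agent.Lib.MP_32dfd1_ag.Pur.HypDefs
import Pool.Agent.Lib.MP_32dfd1_ag.Pur.HypExt

set_option autoImplicit false
set_option linter.unusedSectionVars false

/-!
# The primitive projector of a hypersurface
-/

namespace Pool.Agent.Lib.MP_32dfd1_ag.Pur.Hyp

open CategoryTheory MonoidalCategory CartesianMonoidalCategory Pool.Agent.Lib.MP_32dfd1_ag.Cyc
  Pool.Agent.Lib.MP_32dfd1_ag.Par Pool.Agent.Lib.MP_32dfd1_ag.Sur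

universe u v w

variable {V : Type u} [Category.{v} V] [CartesianMonoidalCategory V]
  {T : CycleData.{u, v, w} V} [T.Textbook] {d : ℕ} {X : V} {n : ℕ} {h : T.CH.R X}

theorem pow_gr {x : T.CH.R X} (hx : x ∈ T.CH.gr X 1) (m : ℕ) : x ^ m ∈ T.CH.gr X m := by
  induction m with
  | zero => simpa using T.CH.one_mem X
  | succ m ih =>
    rw [pow_succ]
    refine T.gr_congr (T.CH.mul_mem ih hx) ?_
    push_cast; ring

theorem pow_zero_of_lt (H : IsHypersurface T d X n h) {k : ℕ} (hk : n < k) : h ^ k = 0 := by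
  have h1 := pow_gr H.mem k
  rwa [T.CH_bot X k (by rw [H.dim_eq]; exact_mod_cast hk), Submodule.mem_bot] at h1

/-- push forward to the point of the powers of `h`: zero for `m > n` as `CH^m(X) = 0`, zero for
`m < n` as `CH^(m-n)(pt) = 0` (CH_zero, H_bot) -/
theorem push_pow (H : IsHypersurface T d X n h) (m : ℕ) :
    T.CH.push (toUnit X) (h ^ m) = (if m = n then (d : ℚ) else 0) • 1 := by
  split_ifs with hm
  · rw [hm]; exact H.degree
  · rw [zero_smul]
    have h1 : T.CH.push (toUnit X) (h ^ m) ∈ T.CH.gr (𝟙_ V) ((m : ℤ) - n) := by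
      refine T.gr_congr (T.CH_push_mem (toUnit X) (pow_gr H.mem m)) ?_
      rw [T.dim_unit, H.dim_eq]; ring
    rcases lt_or_gt_of_ne hm with h2 | h2
    · refine T.CH_zero (𝟙_ V) ((m : ℤ) - n) _ (by omega) ⟨h1, ?_⟩
      have h3 := T.cl_mem _ _ _ h1
      rwa [T.H_bot (𝟙_ V) _ (Or.inl (by omega)), Submodule.mem_bot] at h3
    · rwa [T.CH_bot (𝟙_ V) _ (by rw [T.dim_unit]; omega), Submodule.mem_bot] at h1

theorem ext_mem {α β : T.CH.R X} {a b : ℤ} (hα : α ∈ T.CH.gr X a) (hβ : β ∈ T.CH.gr X b) :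
    ext T.CH α β ∈ T.CH.gr (X ⊗ X) (a + b) :=
  T.CH.mul_mem (T.CH.pull_mem _ hα) (T.CH.pull_mem _ hβ)

theorem prim_mem (H : IsHypersurface T d X n h) :
    prim T d n h ∈ T.CH.gr (X ⊗ X) (T.dim X) := by
  refine Submodule.sub_mem _ (T.diag_mem X) (Submodule.smul_mem _ _
    (Submodule.sum_mem _ fun k hk => ?_))
  refine T.gr_congr (ext_mem (pow_gr H.mem k) (pow_gr H.mem (n - k))) ?_
  rw [Finset.mem_range] at hk
  rw [H.dim_eq]
  omega

/-- uses ext_toPt of HypExt (`c = d` for `k = i`, else `0`) and `h ^ k = 0` for `k > n` -/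
theorem prim_comp_toPt (hd : d ≠ 0) (H : IsHypersurface T d X n h) (k : ℕ) :
    T.CH.comp (prim T d n h) (toPt T.CH (h ^ k)) = 0 := by
  have hd' : (d : ℚ) ≠ 0 := by exact_mod_cast hd
  rcases lt_or_ge n k with hk | hk
  · rw [pow_zero_of_lt H hk]
    have h1 : toPt T.CH (0 : T.CH.R X) = 0 := by unfold toPt; rw [map_zero]
    rw [h1]
    exact map_zero (compL T.CH (prim T d n h))
  · unfold prim
    rw [sub_comp, RingData.comp_diag, smul_comp, sum_comp]
    have h1 : ∀ i ∈ Finset.range (n + 1), T.CH.comp (ext T.CH (h ^ i) (h ^ (n - i)))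
        (toPt T.CH (h ^ k)) = if i = k then (d : ℚ) • toPt T.CH (h ^ k) else 0 := by
      intro i hi
      rw [Finset.mem_range] at hi
      have h2 := push_pow H (n - i + k)
      rw [pow_add] at h2
      rw [ext_toPt T.CH (h ^ i) (h ^ (n - i)) (h ^ k) _ h2]
      by_cases hik : i = k
      · rw [if_pos (by omega), if_pos hik, hik]
      · rw [if_neg (by omega), if_neg hik, zero_smul]
    rw [Finset.sum_congr rfl h1, Finset.sum_ite_eq', if_pos (Finset.mem_range.2 (by omega)),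
      smul_smul, inv_mul_cancel₀ hd', one_smul, sub_self]

/-- uses act_ext of HypExt -/
theorem prim_act_pow (hd : d ≠ 0) (H : IsHypersurface T d X n h) (k : ℕ) :
    T.CH.act (prim T d n h) (h ^ k) = 0 := by
  have hd' : (d : ℚ) ≠ 0 := by exact_mod_cast hd
  rcases lt_or_ge n k with hk | hk
  · rw [pow_zero_of_lt H hk]
    exact RingData.act_zero T.CH _
  · unfold prim
    rw [sub_act, RingData.act_diag, RingData.smul_act, RingData.sum_act]
    have h1 : ∀ i ∈ Finset.range (n + 1), T.CH.act (ext T.CH (h ^ i) (h ^ (n - i))) (h ^ k) =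
        if i = n - k then (d : ℚ) • h ^ k else 0 := by
      intro i hi
      rw [Finset.mem_range] at hi
      have h2 := push_pow H (k + i)
      rw [pow_add] at h2
      rw [act_ext T.CH (h ^ i) (h ^ k) (h ^ (n - i)) _ h2]
      by_cases hik : i = n - k
      · rw [if_pos (by omega), if_pos hik, hik]
        congr 2
        omega
      · rw [if_neg (by omega), if_neg hik, zero_smul]
    rw [Finset.sum_congr rfl h1, Finset.sum_ite_eq', if_pos (Finset.mem_range.2 (by omega)),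
      smul_smul, inv_mul_cancel₀ hd', one_smul, sub_self]

theorem prim_coh (hd : d ≠ 0) (H : IsHypersurface T d X n h) (j : ℤ) (hj : j ≠ n)
    (x : T.H.R X) (hx : x ∈ T.H.gr X j) : T.H.act (T.cl _ (prim T d n h)) x = 0 := by
  have h1 : x ∈ Submodule.span ℚ {y | ∃ k : ℕ, j = 2 * k ∧ y = T.cl X (h ^ k)} :=
    H.lefschetz j hj x hx
  clear hx
  induction h1 using Submodule.span_induction with
  | zero => exact RingData.act_zero T.H _
  | add x y _ _ hx hy => rw [RingData.act_add, hx, hy, add_zero]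
  | smul q x _ hx => rw [RingData.act_smul, hx, smul_zero]
  | mem y hy =>
    obtain ⟨k, _, rfl⟩ := hy
    rw [← T.cl_act, prim_act_pow hd H, map_zero]

/-- `H^j(X)` is spanned by `cl (h ^ k)`, `j = 2k`, and `cl_act` -/
theorem primTest_coh (hd : d ≠ 0) (H : IsHypersurface T d X n h) :
    (primTest T d X n h).Coh := by
  refine ⟨prim_mem H, fun j hj x hx => prim_coh hd H j ?_ x hx⟩
  rintro rfl
  rcases hj with hj | hj
  · exact lt_irrefl _ hj
  · exact lt_irrefl _ hj

theorem pt_coh (j : ℤ) (hj : j < 0 ∨ 0 < j) (x : T.H.R (𝟙_ V)) (hx : x ∈ T.H.gr (𝟙_ V) j) :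
    T.H.act (T.cl _ (T.CH.diag (𝟙_ V))) x = 0 := by
  have h1 : T.H.gr (𝟙_ V) j = ⊥ := by
    refine T.H_bot _ _ ?_
    rw [T.dim_unit]
    omega
  rw [h1, Submodule.mem_bot] at hx
  rw [hx]
  exact RingData.act_zero T.H _

theorem pointTest_coh : (pointTest T).Coh :=
  ⟨T.diag_mem (𝟙_ V), fun j hj x hx => pt_coh j hj x hx⟩

theorem pt_van (m : ℤ) (z : T.CH.R (𝟙_ V)) (hz : T.HomTrivial (𝟙_ V) m z) : z = 0 := by
  rcases le_or_gt m 0 with h1 | h1
  · exact T.CH_zero (𝟙_ V) m z h1 hz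
  · have h2 : z ∈ T.CH.gr (𝟙_ V) m := hz.1
    rwa [T.CH_bot (𝟙_ V) m (by rw [T.dim_unit]; exact h1), Submodule.mem_bot] at h2

theorem pointTest_van : (pointTest T).Van := fun m z hz _ =>
  (RingData.act_diag T.CH z).trans (pt_van m z hz)

/-- exterior products of homogeneous classes of complementary degrees are sharp:
`ext α β = comp (comp (toPt α) (diag pt)) (ofPt β)` -/
theorem ext_sharp {F : Set (Test T)} (hF : pointTest T ∈ F) {α β : T.CH.R X} {a b : ℤ}
    (hC : ∀ (X : V) (x y : T.CH.R X), x * y = y * x)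
    (hα : α ∈ T.CH.gr X a) (hβ : β ∈ T.CH.gr X b) (hab : a + b = T.dim X) :
    ext T.CH α β ∈ Sharp T F X := by
  have h1 : ext T.CH α β = T.CH.comp (T.CH.comp (toPt T.CH α) (T.CH.diag (𝟙_ V)))
      (ofPt T.CH β) := by
    rw [comp_diag_right T.CH hC, toPt_ofPt]
  have hα' : toPt T.CH α ∈ T.CH.gr (X ⊗ 𝟙_ V) (T.dim X + (-b)) :=
    T.gr_congr (T.CH.pull_mem _ hα) (by omega)
  have hβ' : ofPt T.CH β ∈ T.CH.gr (𝟙_ V ⊗ X) (T.dim (𝟙_ V) - (-b)) :=
    T.gr_congr (T.CH.pull_mem _ hβ) (by rw [T.dim_unit]; ring)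
  refine sharp_of (k := 2 * b)
    (Submodule.subset_span ⟨pointTest T, -b, toPt T.CH α, ofPt T.CH β, hF, ?_, hα', hβ', h1⟩)
    (Submodule.subset_span ⟨pointTest T, -b, toPt T.CH α, ofPt T.CH β, hF, ?_, hα', hβ', h1⟩)
  · change 2 * b ≤ 0 - 2 * (-b)
    linarith
  · change 0 - 2 * (-b) ≤ 2 * b
    linarith

/-- a hypersurface is pure if its test object and the point are in the family -/
theorem pure_hyp {F : Set (Test T)} (hF : pointTest T ∈ F) (hF' : primTest T d X n h ∈ F)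
    (hC : ∀ (X : V) (x y : T.CH.R X), x * y = y * x) (hd : d ≠ 0)
    (H : IsHypersurface T d X n h) : Pure T F X := by
  have key : T.CH.diag X = prim T d n h +
      (d : ℚ)⁻¹ • ∑ k ∈ Finset.range (n + 1), ext T.CH (h ^ k) (h ^ (n - k)) := by
    unfold prim
    rw [sub_add_cancel]
  have hp : prim T d n h = T.CH.comp (T.CH.comp (T.CH.diag X) (prim T d n h)) (T.CH.diag X) := by
    rw [RingData.comp_diag, comp_diag_right T.CH hC]
  have h1 : prim T d n h ∈ Sharp T F X := by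
    refine sharp_of (k := n) (Submodule.subset_span ⟨primTest T d X n h, 0, T.CH.diag X,
      T.CH.diag X, hF', ?_, diag_mem' X, diag_mem'' X, hp⟩) (Submodule.subset_span
      ⟨primTest T d X n h, 0, T.CH.diag X, T.CH.diag X, hF', ?_, diag_mem' X, diag_mem'' X, hp⟩)
    · change (n : ℤ) ≤ n - 2 * 0
      linarith
    · change (n : ℤ) - 2 * 0 ≤ n
      linarith
  unfold Pure
  rw [key]
  refine Submodule.add_mem _ h1 (Submodule.smul_mem _ _ (Submodule.sum_mem _ fun k hk => ?_))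
  rw [Finset.mem_range] at hk
  refine ext_sharp hF hC (pow_gr H.mem k) (pow_gr H.mem (n - k)) ?_
  rw [H.dim_eq]
  omega

end Pool.Agent.Lib.MP_32dfd1_ag.Pur.Hyp
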