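import Mathlib
import Pool.Agent.Lib.MP_32dfd1_ag.Pur.Ideal
import Pool.Agent.Lib.MP_32dfd1_ag.Pur.HypDefs
import Pool.Agent.Lib.MP_32dfd1_ag.Pur.HypExt

set_option autoImplicit false
set_option linter.unusedSectionVars false

/-!
# Products of test objects with a point
-/

namespace Pool.Agent.Lib.MP_32dfd1_ag.Pur.Hyp

open CategoryTheory MonoidalCategory CartesianMonoidalCategory Pool.Agent.Lib.MP_32dfd1_ag.Cyc
  Pool.Agent.Lib.MP_32dfd1_ag.Par Pool.Agent.Lib.MP_32dfd1_ag.Sur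

universe u v w

variable {V : Type u} [Category.{v} V] [CartesianMonoidalCategory V]

section

variable (R : RingData.{u, v, w} V) [R.Functorial] [R.Direct] [R.Formulas]

theorem gr_comp {X Y Z : V} (f : X ⟶ Y) (d : R.R (Y ⊗ Z)) :
    R.comp (gr R f) d = R.pull (f ▷ Z) d := by
  unfold gr
  rw [span_comp, id_whiskerRight, R.push_id, map_one (R.pull _), one_mul]

theorem comp_gt (hC : ∀ (X : V) (x y : R.R X), x * y = y * x) {Q X Y : V} (c : R.R (Q ⊗ Y))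
    (f : X ⟶ Y) : R.comp c (R.gt f) = R.pull (Q ◁ f) c := by
  rw [← tr_tr R (R.comp c (R.gt f)), tr_comp R hC, tr_gt, gr_comp]
  unfold tr
  rw [← R.pull_comp, ← R.pull_comp]
  congr 1
  have h : ((sw Q X).hom ≫ f ▷ Q) ≫ (sw Y Q).hom = Q ◁ f := by ext <;> simp [sw]
  rw [h]

theorem diag_unit : R.diag (𝟙_ V) = 1 := by
  have h := R.push_iso (rUnit (𝟙_ V)) (1 : R.R (𝟙_ V))
  rw [map_one (R.pull _)] at h
  rw [← h]
  unfold RingData.diag rUnit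
  congr 2
  exact congrArg (lift (𝟙 (𝟙_ V))) (toUnit_unique _ _)

theorem ep_diag_unit_left (hC : ∀ (X : V) (x y : R.R X), x * y = y * x) {X : V} (e : R.R (X ⊗ X)) :
    ep R (R.diag (𝟙_ V)) e =
      R.comp (R.comp (gr R (snd (𝟙_ V) X)) e) (R.gt (snd (𝟙_ V) X)) := by
  rw [comp_gt R hC, gr_comp, ← R.pull_comp, ← MonoidalCategory.tensorHom_def']
  unfold ep
  rw [diag_unit, map_one (R.pull _), one_mul]

theorem ep_diag_unit_right (hC : ∀ (X : V) (x y : R.R X), x * y = y * x) {X : V} (e : R.R (X ⊗ X)) :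
    ep R e (R.diag (𝟙_ V)) =
      R.comp (R.comp (gr R (fst X (𝟙_ V))) e) (R.gt (fst X (𝟙_ V))) := by
  rw [comp_gt R hC, gr_comp, ← R.pull_comp, ← MonoidalCategory.tensorHom_def']
  unfold ep
  rw [diag_unit, map_one (R.pull _), mul_one]

end

variable {T : CycleData.{u, v, w} V} [T.Textbook]

theorem gr_mem {X Y : V} (f : X ⟶ Y) : gr T.CH f ∈ T.CH.gr (X ⊗ Y) (T.dim Y) := by
  rw [← tr_gt]
  exact tr_mem T.CH (T.gt_mem f)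

variable (hC : ∀ (X : V) (x y : T.CH.R X), x * y = y * x) {F : Set (Test T)}

include hC in
theorem unit_left {t : Test T} (ht : t ∈ F) :
    ep T.CH (T.CH.diag (𝟙_ V)) t.e ∈ AtLeast T F (𝟙_ V ⊗ t.Y) (0 + t.lo) ∧
      ep T.CH (T.CH.diag (𝟙_ V)) t.e ∈ AtMost T F (𝟙_ V ⊗ t.Y) (0 + t.hi) := by
  rw [ep_diag_unit_left T.CH hC]
  have h1 : gr T.CH (snd (𝟙_ V) t.Y) ∈ T.CH.gr ((𝟙_ V ⊗ t.Y) ⊗ t.Y) (T.dim (𝟙_ V ⊗ t.Y) + 0) :=
    T.gr_congr (gr_mem _) (by rw [T.dim_tensor, T.dim_unit]; ring)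
  have h2 : T.CH.gt (snd (𝟙_ V) t.Y) ∈ T.CH.gr (t.Y ⊗ (𝟙_ V ⊗ t.Y)) (T.dim t.Y - 0) :=
    T.gr_congr (T.gt_mem _) (by ring)
  exact ⟨Submodule.subset_span ⟨t, 0, _, _, ht, by linarith, h1, h2, rfl⟩,
    Submodule.subset_span ⟨t, 0, _, _, ht, by linarith, h1, h2, rfl⟩⟩

include hC in
theorem unit_right {t : Test T} (ht : t ∈ F) :
    ep T.CH t.e (T.CH.diag (𝟙_ V)) ∈ AtLeast T F (t.Y ⊗ 𝟙_ V) (t.lo + 0) ∧
      ep T.CH t.e (T.CH.diag (𝟙_ V)) ∈ AtMost T F (t.Y ⊗ 𝟙_ V) (t.hi + 0) := by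
  rw [ep_diag_unit_right T.CH hC]
  have h1 : gr T.CH (fst t.Y (𝟙_ V)) ∈ T.CH.gr ((t.Y ⊗ 𝟙_ V) ⊗ t.Y) (T.dim (t.Y ⊗ 𝟙_ V) + 0) :=
    T.gr_congr (gr_mem _) (by rw [T.dim_tensor, T.dim_unit]; ring)
  have h2 : T.CH.gt (fst t.Y (𝟙_ V)) ∈ T.CH.gr (t.Y ⊗ (t.Y ⊗ 𝟙_ V)) (T.dim t.Y - 0) :=
    T.gr_congr (T.gt_mem _) (by ring)
  exact ⟨Submodule.subset_span ⟨t, 0, _, _, ht, by linarith, h1, h2, rfl⟩,
    Submodule.subset_span ⟨t, 0, _, _, ht, by linarith, h1, h2, rfl⟩⟩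

end Pool.Agent.Lib.MP_32dfd1_ag.Pur.Hyp
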