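import Mathlib
import Pool.Agent.Lib.MP_32dfd1_ag.Pur.Hull
import Pool.Agent.Lib.MP_32dfd1_ag.Pur.HypProj
import Pool.Agent.Lib.MP_32dfd1_ag.Pur.HypJoin
import Pool.Agent.Lib.MP_32dfd1_ag.Pur.HypUnit

set_option autoImplicit false
set_option linter.unusedSectionVars false

/-!
# Q1 for hypersurfaces of one degree
-/

namespace Pool.Agent.Lib.MP_32dfd1_ag.Pur.Hyp

open CategoryTheory MonoidalCategory CartesianMonoidalCategory Pool.Agent.Lib.MP_32dfd1_ag.Cyc
  Pool.Agent.Lib.MP_32dfd1_ag.Par Pool.Agent.Lib.MP_32dfd1_ag.Sur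

universe u v w

variable {V : Type u} [Category.{v} V] [CartesianMonoidalCategory V]
  {T : CycleData.{u, v, w} V} [T.Textbook] {d : ℕ} {K : V → Prop}

theorem coh_hypTests (hd : d ≠ 0) (S : HypersurfaceClass T d K) : ∀ t ∈ hypTests S, t.Coh := by
  rintro t (rfl | ⟨X, hX, rfl⟩)
  · exact pointTest_coh
  · exact primTest_coh hd (S.hyp X hX)

/-- odd cohomology outside of the middle is zero -/
theorem odd_eq_bot {X : V} {n : ℕ} {h : T.CH.R X} (H : IsHypersurface T d X n h) {j : ℤ}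
    (hj : Odd j) (hjn : j ≠ n) : T.H.gr X j = ⊥ := by
  rw [eq_bot_iff]
  intro x hx
  have h1 : x ∈ Submodule.span ℚ {y | ∃ k : ℕ, j = 2 * k ∧ y = T.cl X (h ^ k)} :=
    H.lefschetz j hjn x hx
  refine (Submodule.span_le.2 ?_) h1
  rintro x ⟨k, hk, _⟩
  rw [hk] at hj
  exact absurd hj (Int.not_odd_iff_even.2 (even_two_mul _))

theorem van_hypTests (S : HypersurfaceClass T d K) (hQ : Q1On T K) :
    ∀ t ∈ hypTests S, t.Van := by
  rintro t (rfl | ⟨X, hX, rfl⟩)
  · exact pointTest_van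
  · intro m z hz hm
    have h0 : z = 0 := by
      by_cases h1 : m ≤ 0
      · exact T.homTrivial_eq_zero h1 hz
      · refine hQ X hX m (by omega) (odd_eq_bot (S.hyp X hX) ⟨m - 1, by ring⟩ ?_) z hz
        change 2 * m - 1 < (S.n X : ℤ) ∨ (S.n X : ℤ) < 2 * m - 1 at hm
        omega
    rw [h0]
    exact RingData.act_zero _ _

variable (hC : ∀ (X : V) (x y : T.CH.R X), x * y = y * x)

include hC in
theorem prodClosed_hypTests (hd : d ≠ 0) (S : HypersurfaceClass T d K) :
    ProdClosed T (hypTests S) := by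
  rintro t (rfl | ⟨X, hX, rfl⟩) t' ht'
  · exact unit_left hC ht'
  · rcases ht' with rfl | ⟨X', hX', rfl⟩
    · exact unit_right hC (Or.inr ⟨X, hX, rfl⟩)
    · obtain ⟨X'', J, hX'', hJ⟩ := S.join X X' hX hX'
      have hn : (S.n X'' : ℤ) = S.n X + S.n X' + 2 := by
        have h1 := hJ.good.dim_X
        rwa [(S.hyp X hX).dim_eq, (S.hyp X' hX').dim_eq, (S.hyp X'' hX'').dim_eq] at h1
      have hf := join_factor hC hd hJ (prim_comp_toPt hd (S.hyp X hX))
        (prim_comp_toPt hd (S.hyp X' hX')) (S.n X'')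
      have ha : T.CH.comp (ep T.CH (prim T d (S.n X) (S.h X)) (prim T d (S.n X') (S.h X')))
          (joinA T J) ∈ T.CH.gr ((X ⊗ X') ⊗ X'') (T.dim (X ⊗ X') + 1) := by
        refine T.gr_congr (T.comp_mem (ep_mem T.CH (prim_mem (S.hyp X hX))
          (prim_mem (S.hyp X' hX'))) (joinA_mem hJ)) ?_
        rw [T.dim_tensor]
        ring
      have hb : (-(d : ℚ))⁻¹ • joinB T J ∈ T.CH.gr (X'' ⊗ (X ⊗ X')) (T.dim X'' - 1) :=
        Submodule.smul_mem _ _ (joinB_mem hJ)
      refine ⟨Submodule.subset_span ⟨primTest T d X'' (S.n X'') (S.h X''), 1, _, _,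
        Or.inr ⟨X'', hX'', rfl⟩, ?_, ha, hb, hf⟩,
        Submodule.subset_span ⟨primTest T d X'' (S.n X'') (S.h X''), 1, _, _,
        Or.inr ⟨X'', hX'', rfl⟩, ?_, ha, hb, hf⟩⟩
      · change (S.n X : ℤ) + S.n X' ≤ S.n X'' - 2 * 1
        omega
      · change (S.n X'' : ℤ) - 2 * 1 ≤ (S.n X : ℤ) + S.n X'
        omega

theorem pointTest_mem (S : HypersurfaceClass T d K) : pointTest T ∈ hypTests S := Or.inl rfl

include hC in
theorem pure_of_mem (hd : d ≠ 0) (S : HypersurfaceClass T d K) {X : V} (hX : K X) :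
    Pure T (hypTests S) X :=
  pure_hyp (pointTest_mem S) (Or.inr ⟨X, hX, rfl⟩) hC hd (S.hyp X hX)

include hC in
/-- a point is pure -/
theorem pure_pt (S : HypersurfaceClass T d K) : Pure T (hypTests S) (𝟙_ V) := by
  have h1 : T.CH.diag (𝟙_ V) = T.CH.comp (T.CH.comp (T.CH.diag (𝟙_ V)) (T.CH.diag (𝟙_ V)))
      (T.CH.diag (𝟙_ V)) := by
    rw [comp_diag_right T.CH hC, RingData.comp_diag]
  refine sharp_of (k := 0) ?_ ?_
  · refine Submodule.subset_span ⟨pointTest T, 0, _, _, pointTest_mem S, ?_, diag_mem' _,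
      diag_mem'' _, h1⟩
    change (0 : ℤ) ≤ 0 - 2 * 0
    norm_num
  · refine Submodule.subset_span ⟨pointTest T, 0, _, _, pointTest_mem S, ?_, diag_mem' _,
      diag_mem'' _, h1⟩
    change (0 : ℤ) - 2 * 0 ≤ 0
    norm_num

include hC in
/-- Q1 for the hypersurfaces of degree `d` in the class `K` is equivalent to Q1, to the one-step
conjecture, and to the conjectures of Murre with a filtration of length one, for all
varieties generated by `K`. -/
theorem hyp_tfae (hd : d ≠ 0) (S : HypersurfaceClass T d K) :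
    [Q1On T K, Q1On T (Hull T K), OneStepOn T (Hull T K),
      FullMurreOn T (Hull T K) ∧ HomCorrOn T (Hull T K)].TFAE :=
  tfae_hull hC (coh_hypTests hd S) (prodClosed_hypTests hC hd S) (pure_pt hC S)
    (fun _ hX => pure_of_mem hC hd S hX) (van_hypTests S)

end Pool.Agent.Lib.MP_32dfd1_ag.Pur.Hyp
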