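import Mathlib
import Pool.Agent.Lib.MP_32dfd1_ag.Pur.Hyp

set_option autoImplicit false
set_option linter.unusedSectionVars false

/-!
# Hypersurfaces of large dimension suffice
-/

namespace Pool.Agent.Lib.MP_32dfd1_ag.Pur

open CategoryTheory MonoidalCategory CartesianMonoidalCategory Pool.Agent.Lib.MP_32dfd1_ag.Cyc
  Pool.Agent.Lib.MP_32dfd1_ag.Par Pool.Agent.Lib.MP_32dfd1_ag.Sur

universe u v w

variable {V : Type u} [Category.{v} V] [CartesianMonoidalCategory V]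

namespace Hyp

variable {T : CycleData.{u, v, w} V} [T.Textbook] {d : ℕ} {K : V → Prop}

/-- hypersurfaces of dimension at least `N` -/
def restrict (S : HypersurfaceClass T d K) (N : ℤ) :
    HypersurfaceClass T d (DimAtLeast T K N) where
  n := S.n
  h := S.h
  hyp X hX := S.hyp X hX.1
  join X X' hX hX' := by
    obtain ⟨X'', J, hX'', hJ⟩ := S.join X X' hX.1 hX'.1
    refine ⟨X'', J, ⟨hX'', ?_⟩, hJ⟩
    have h1 := hX.2
    have h2 : (0 : ℤ) ≤ T.dim X' := by rw [(S.hyp X' hX'.1).dim_eq]; omega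
    rw [hJ.good.dim_X]
    linarith

variable (hC : ∀ (X : V) (x y : T.CH.R X), x * y = y * x)

theorem eq_zero_of_neg {Y : V} {m : ℤ} {z : T.CH.R Y} (hm : m < 0) (hz : z ∈ T.CH.gr Y m) :
    z = 0 := by
  refine T.CH_zero Y m z hm.le ⟨hz, ?_⟩
  have h2 := T.cl_mem _ _ _ hz
  rwa [T.H_bot _ _ (Or.inl (by linarith)), Submodule.mem_bot] at h2

/-- push forward to a point of classes of the wrong degree -/
theorem push_eq_zero {Y : V} {m : ℤ} {z : T.CH.R Y} (hm : m ≠ T.dim Y) (hz : z ∈ T.CH.gr Y m) :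
    T.CH.push (toUnit Y) z = 0 := by
  rcases lt_or_gt_of_ne hm with h | h
  · refine eq_zero_of_neg (m := m - T.dim Y) (by linarith) (T.gr_congr (T.CH_push_mem _ hz) ?_)
    rw [T.dim_unit]
    ring
  · rw [T.CH_bot Y m h, Submodule.mem_bot] at hz
    rw [hz, map_zero]

theorem push_comm {Y : V} {x y : T.CH.R Y}
    (hC : ∀ (X : V) (x y : T.CH.R X), x * y = y * x) :
    T.CH.push (toUnit Y) (x * y) = T.CH.push (toUnit Y) (y * x) := by rw [hC]

include hC in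
theorem prim_comp_xi {X : V} {n : ℕ} {h ξ : T.CH.R X} {m : ℕ} (H : IsHypersurface T d X n h)
    (hn : n = 2 * m) (hξ : ξ ∈ T.CH.gr X m) (h0 : T.CH.push (toUnit X) (ξ * h ^ m) = 0) :
    T.CH.comp (prim T d n h) (toPt T.CH ξ) = toPt T.CH ξ := by
  unfold prim
  rw [sub_comp, RingData.comp_diag, smul_comp, sum_comp, Finset.sum_eq_zero, smul_zero, sub_zero]
  intro k hk
  rw [Finset.mem_range] at hk
  rw [ext_toPt T.CH _ _ _ 0, zero_smul]
  rw [zero_smul, hC]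
  by_cases hkm : n - k = m
  · rw [hkm]
    exact h0
  · refine push_eq_zero (m := (m : ℤ) + (n - k : ℕ)) ?_ (T.CH.mul_mem hξ (pow_gr H.mem _))
    rw [H.dim_eq]
    omega

include hC in
theorem xi_comp_xi {X : V} {n : ℕ} {h ξ : T.CH.R X} {m : ℕ} {c : ℚ}
    (H : IsHypersurface T d X n h)
    (hn : n = 2 * m) (hξ : ξ ∈ T.CH.gr X m) (h0 : T.CH.push (toUnit X) (ξ * h ^ m) = 0)
    (hc : T.CH.push (toUnit X) (ξ * ξ) = c • 1) :
    T.CH.comp (T.CH.comp (ofPt T.CH ξ) (prim T d n h)) (toPt T.CH ξ) = c • T.CH.diag (𝟙_ V) := by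
  rw [comp_assoc, prim_comp_xi hC H hn hξ h0, ofPt_toPt, hc, map_smul, map_one (T.CH.pull _),
    diag_unit]

include hC in
/-- `e` as a composition through `X × pt` -/
theorem unit_factor {X : V} (e : T.CH.R (X ⊗ X)) :
    e = T.CH.comp (T.CH.comp (T.CH.gt (fst X (𝟙_ V))) (ep T.CH e (T.CH.diag (𝟙_ V))))
      (gr T.CH (fst X (𝟙_ V))) := by
  have h1 : T.CH.comp (T.CH.gt (fst X (𝟙_ V))) (gr T.CH (fst X (𝟙_ V))) = T.CH.diag X := by
    have h2 : T.CH.gt (fst X (𝟙_ V)) = gr T.CH (rUnit X).hom := gt_iso T.CH (rUnit X).symm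
    rw [h2, gr_comp_gr T.CH hC]
    have h3 : (rUnit X).hom ≫ fst X (𝟙_ V) = 𝟙 X := (rUnit X).hom_inv_id
    rw [h3, gr_id]
  rw [ep_diag_unit_right T.CH hC, ← comp_assoc, ← comp_assoc, h1, RingData.comp_diag, comp_assoc,
    h1, comp_diag_right T.CH hC]

include hC in
/-- the primitive projector of `X` factors through the one of the join with `X₀` -/
theorem prim_factor (hd : d ≠ 0) (S : HypersurfaceClass T d K) {X X₀ : V} (hX : K X) (hX₀ : K X₀)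
    {m : ℕ} {ξ : T.CH.R X₀} {c : ℚ} (hn : S.n X₀ = 2 * m) (hξ : ξ ∈ T.CH.gr X₀ m)
    (h0 : T.CH.push (toUnit X₀) (ξ * S.h X₀ ^ m) = 0) (hc0 : c ≠ 0)
    (hc : T.CH.push (toUnit X₀) (ξ * ξ) = c • 1) :
    ∃ (X'' : V) (a : T.CH.R (X ⊗ X'')) (b : T.CH.R (X'' ⊗ X)), K X'' ∧
      S.n X'' = S.n X + 2 * m + 2 ∧
      a ∈ T.CH.gr (X ⊗ X'') (T.dim X + (m + 1)) ∧ b ∈ T.CH.gr (X'' ⊗ X) (T.dim X'' - (m + 1)) ∧
      prim T d (S.n X) (S.h X) = T.CH.comp (T.CH.comp a (prim T d (S.n X'') (S.h X''))) b := by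
  obtain ⟨X'', J, hX'', hJ⟩ := S.join X X₀ hX hX₀
  set π := prim T d (S.n X) (S.h X) with hπ
  set π₀ := prim T d (S.n X₀) (S.h X₀) with hπ₀
  set π'' := prim T d (S.n X'') (S.h X'') with hπ''
  have hdim : S.n X'' = S.n X + 2 * m + 2 := by
    have h1 := hJ.good.dim_X
    rw [(S.hyp X hX).dim_eq, (S.hyp X₀ hX₀).dim_eq, (S.hyp X'' hX'').dim_eq, hn] at h1
    push_cast at h1
    omega
  have hf : ep T.CH π π₀ = T.CH.comp (T.CH.comp (T.CH.comp (ep T.CH π π₀) (joinA T J)) π'')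
      ((-(d : ℚ))⁻¹ • joinB T J) := join_factor hC hd hJ (prim_comp_toPt hd (S.hyp X hX))
        (prim_comp_toPt hd (S.hyp X₀ hX₀)) (S.n X'')
  -- the sandwich
  have hs : T.CH.comp (T.CH.comp (ep T.CH (T.CH.diag X) (ofPt T.CH ξ)) (ep T.CH π π₀))
      (ep T.CH (T.CH.diag X) (toPt T.CH ξ)) = c • ep T.CH π (T.CH.diag (𝟙_ V)) := by
    rw [comp_ep T.CH hC, comp_ep T.CH hC, xi_comp_xi hC (S.hyp X₀ hX₀) hn hξ h0 hc,
      RingData.comp_diag, comp_diag_right T.CH hC, ep_smul]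
  have hπf := unit_factor hC π
  have h1 : ep T.CH π (T.CH.diag (𝟙_ V)) = c⁻¹ • T.CH.comp (T.CH.comp
      (ep T.CH (T.CH.diag X) (ofPt T.CH ξ)) (ep T.CH π π₀))
      (ep T.CH (T.CH.diag X) (toPt T.CH ξ)) := by
    rw [hs, smul_smul, inv_mul_cancel₀ hc0, one_smul]
  let a₁ : T.CH.R ((X ⊗ 𝟙_ V) ⊗ (X ⊗ X₀)) := ep T.CH (T.CH.diag X) (ofPt T.CH ξ)
  let b₁ : T.CH.R ((X ⊗ X₀) ⊗ (X ⊗ 𝟙_ V)) := ep T.CH (T.CH.diag X) (toPt T.CH ξ)
  let A : T.CH.R ((X ⊗ X₀) ⊗ X'') := T.CH.comp (ep T.CH π π₀) (joinA T J)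
  let B : T.CH.R (X'' ⊗ (X ⊗ X₀)) := (-(d : ℚ))⁻¹ • joinB T J
  let g : T.CH.R (X ⊗ (X ⊗ 𝟙_ V)) := T.CH.gt (fst X (𝟙_ V))
  let g' : T.CH.R ((X ⊗ 𝟙_ V) ⊗ X) := gr T.CH (fst X (𝟙_ V))
  have hg : g ∈ T.CH.gr (X ⊗ (X ⊗ 𝟙_ V)) (T.dim X) := T.gt_mem _
  have hg' : g' ∈ T.CH.gr ((X ⊗ 𝟙_ V) ⊗ X) (T.dim X) := gr_mem _
  have hξ1 : ofPt T.CH ξ ∈ T.CH.gr (𝟙_ V ⊗ X₀) m := T.CH.pull_mem _ hξ
  have hξ2 : toPt T.CH ξ ∈ T.CH.gr (X₀ ⊗ 𝟙_ V) m := T.CH.pull_mem _ hξ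
  have ha₁ : a₁ ∈ T.CH.gr ((X ⊗ 𝟙_ V) ⊗ (X ⊗ X₀)) (T.dim X + m) :=
    ep_mem T.CH (T.diag_mem X) hξ1
  have hb₁ : b₁ ∈ T.CH.gr ((X ⊗ X₀) ⊗ (X ⊗ 𝟙_ V)) (T.dim X + m) :=
    ep_mem T.CH (T.diag_mem X) hξ2
  have hA : A ∈ T.CH.gr ((X ⊗ X₀) ⊗ X'') (T.dim (X ⊗ X₀) + 1) := by
    refine T.gr_congr (T.comp_mem (ep_mem T.CH (prim_mem (S.hyp X hX))
      (prim_mem (S.hyp X₀ hX₀))) (joinA_mem hJ)) ?_
    rw [T.dim_tensor]
    ring
  have hB : B ∈ T.CH.gr (X'' ⊗ (X ⊗ X₀)) (T.dim X'' - 1) :=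
    Submodule.smul_mem _ _ (joinB_mem hJ)
  refine ⟨X'', T.CH.comp (T.CH.comp g a₁) A, c⁻¹ • T.CH.comp (T.CH.comp B b₁) g', hX'', hdim,
    ?_, ?_, ?_⟩
  · refine T.gr_congr (T.comp_mem (T.comp_mem hg ha₁) hA) ?_
    rw [T.dim_tensor, T.dim_tensor, T.dim_unit, (S.hyp X₀ hX₀).dim_eq, hn]
    ring
  · refine Submodule.smul_mem _ _ (T.gr_congr (T.comp_mem (T.comp_mem hB hb₁) hg') ?_)
    rw [T.dim_tensor, T.dim_tensor, T.dim_unit, (S.hyp X₀ hX₀).dim_eq, hn]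
    push_cast
    ring
  · have hf' : ep T.CH π π₀ = T.CH.comp (T.CH.comp A π'') B := hf
    have h1' : ep T.CH π (T.CH.diag (𝟙_ V)) =
        c⁻¹ • T.CH.comp (T.CH.comp a₁ (ep T.CH π π₀)) b₁ := h1
    have hπf' : π = T.CH.comp (T.CH.comp g (ep T.CH π (T.CH.diag (𝟙_ V)))) g' := hπf
    clear_value A B a₁ b₁ g g'
    rw [hπf', h1', hf', comp_smul, smul_comp, comp_smul]
    congr 1
    simp only [comp_assoc]
    rfl

include hC in
/-- the primitive projectors of all hypersurfaces in `K` are sharp with respect to the test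
objects of large dimension -/
theorem prim_high (hd : d ≠ 0) (S : HypersurfaceClass T d K) (hP : PrimitiveCycle T S) (N : ℤ)
    (r : ℕ) : ∀ X, K X → N ≤ T.dim X + 2 * r →
      prim T d (S.n X) (S.h X) ∈ AtLeast T (hypTests (restrict S N)) X (S.n X) ∧
      prim T d (S.n X) (S.h X) ∈ AtMost T (hypTests (restrict S N)) X (S.n X) := by
  induction r with
  | zero =>
    intro X hX hN
    have ht : primTest T d X (S.n X) (S.h X) ∈ hypTests (restrict S N) :=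
      Or.inr ⟨X, ⟨hX, by simpa using hN⟩, rfl⟩
    have h1 : prim T d (S.n X) (S.h X) = T.CH.comp (T.CH.comp (T.CH.diag X)
        (prim T d (S.n X) (S.h X))) (T.CH.diag X) := by
      rw [comp_diag_right T.CH hC, RingData.comp_diag]
    refine ⟨Submodule.subset_span ⟨_, 0, _, _, ht, ?_, diag_mem' _, diag_mem'' _, h1⟩,
      Submodule.subset_span ⟨_, 0, _, _, ht, ?_, diag_mem' _, diag_mem'' _, h1⟩⟩
    · change (S.n X : ℤ) ≤ S.n X - 2 * 0
      linarith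
    · change (S.n X : ℤ) - 2 * 0 ≤ S.n X
      linarith
  | succ r ih =>
    intro X hX hN
    obtain ⟨X₀, m, ξ, c, hX₀, hn, hξ, h0, hc0, hc⟩ := hP
    obtain ⟨X'', a, b, hX'', hdim, ha, hb, hf⟩ := prim_factor hC hd S hX hX₀ hn hξ h0 hc0 hc
    have h1 := ih X'' hX'' (by
      rw [(S.hyp X'' hX'').dim_eq, hdim]
      rw [(S.hyp X hX).dim_eq] at hN
      push_cast at hN ⊢
      linarith)
    rw [hf]
    have e : (S.n X'' : ℤ) - 2 * (m + 1) = S.n X := by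
      rw [hdim]
      push_cast
      ring
    have h2 := atLeast_conj ha hb h1.1
    have h3 := atMost_conj ha hb h1.2
    rw [e] at h2 h3
    exact ⟨h2, h3⟩

include hC in
theorem pure_high (hd : d ≠ 0) (S : HypersurfaceClass T d K) (hP : PrimitiveCycle T S) (N : ℤ)
    {X : V} (hX : K X) : Pure T (hypTests (restrict S N)) X := by
  have h1 : T.CH.diag X = prim T d (S.n X) (S.h X) + (d : ℚ)⁻¹ •
      ∑ k ∈ Finset.range (S.n X + 1), ext T.CH (S.h X ^ k) (S.h X ^ (S.n X - k)) := by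
    unfold prim
    rw [sub_add_cancel]
  have h2 := prim_high hC hd S hP N (N.toNat) X hX (by
    have : (0 : ℤ) ≤ T.dim X := by rw [(S.hyp X hX).dim_eq]; omega
    omega)
  unfold Pure
  rw [h1]
  refine Submodule.add_mem _ (sharp_of h2.1 h2.2) (Submodule.smul_mem _ _
    (Submodule.sum_mem _ fun k hk => ?_))
  rw [Finset.mem_range] at hk
  refine ext_sharp (pointTest_mem _) hC (pow_gr (S.hyp X hX).mem k)
    (pow_gr (S.hyp X hX).mem (S.n X - k)) ?_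
  rw [(S.hyp X hX).dim_eq]
  omega

include hC in
/-- Q1 for the hypersurfaces in `K` of dimension at least `N` suffices. -/
theorem high_tfae (hd : d ≠ 0) (S : HypersurfaceClass T d K) (hP : PrimitiveCycle T S) (N : ℤ) :
    [Q1On T (DimAtLeast T K N), Q1On T K, Q1On T (Hull T K), OneStepOn T (Hull T K),
      FullMurreOn T (Hull T K) ∧ HomCorrOn T (Hull T K)].TFAE := by
  have hF := coh_hypTests hd (restrict S N)
  have hprod := prodClosed_hypTests hC hd (restrict S N)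
  have hHull : ∀ X, Hull T K X → Pure T (hypTests (restrict S N)) X := fun X hX =>
    pure_of_hull hC hprod (pure_pt hC (restrict S N)) (fun X hX => pure_high hC hd S hP N hX) hX
  tfae_have 1 → 5 := fun hQ => by
    have hV := van_hypTests (restrict S N) hQ
    exact ⟨fullMurre_mono hHull (fullMurre_pure hC hF hV hprod),
      homCorr_of_exterior (fun X Y hX hY => hull_tensor hC hX hY)
        (exteriorVanish_mono hHull (exteriorVanish_pure hC hV hprod))⟩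
  tfae_have 5 → 4 := fun h => oneStep_of_homCorr h.2 (murreOn_of_full h.1)
  tfae_have 4 → 3 := q1_of_oneStep
  tfae_have 3 → 2 := q1_mono fun X hX => hull_of hX
  tfae_have 2 → 1 := q1_mono fun X hX => hX.1
  tfae_finish

end Hyp

end Pool.Agent.Lib.MP_32dfd1_ag.Pur
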